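import Pool.Agent.K4H78.GA.Ind
import Pool.Agent.TH346.CG.Fin

/-!
# Assembly: finite abelian groups
-/

set_option autoImplicit false

open Finset
open scoped Pointwise

namespace Pool.Agent.K4H78.GA

open Pool.Agent.TH346.CG Pool.Agent.TH346.LG

theorem cube_mono {M₀ M : ℕ} (h : M₀ ≤ M) : Nonempty (cube M₀ ↪g cube M) := by
  classical
  refine ⟨⟨⟨fun S => S.map (Fin.castLEEmb h), Finset.map_injective _⟩, ?_⟩⟩
  intro S T
  show (symmDiff (S.map (Fin.castLEEmb h)) (T.map (Fin.castLEEmb h))).card = 1 ↔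
    (symmDiff S T).card = 1
  have h1 : symmDiff (S.map (Fin.castLEEmb h)) (T.map (Fin.castLEEmb h)) =
      (symmDiff S T).map (Fin.castLEEmb h) := by
    rw [Finset.map_eq_image, Finset.map_eq_image, Finset.map_eq_image,
      Finset.image_symmDiff _ _ (Fin.castLEEmb h).injective]
  rw [h1, Finset.card_map]

theorem fin_main (hb : Bohr) (M : ℕ) (hM : 2 ≤ M) (t : RT) (k : ℕ) : ∃ C : ℕ, ∀ (Γ : Type)
    [AddCommGroup Γ] [Fintype Γ] [DecidableEq Γ] (A : Finset Γ), -A = A → 0 ∉ A →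
    (SimpleGraph.addCayley (A : Set Γ)).CliqueFree (k + 1) →
    IsEmpty (cube M ↪g SimpleGraph.addCayley (A : Set Γ)) →
    IsEmpty (t.graph ↪g SimpleGraph.addCayley (A : Set Γ)) →
    (SimpleGraph.addCayley (A : Set Γ)).Colorable C := by
  classical
  obtain ⟨N, hN⟩ := Pool.Agent.W259.GS.noShatter (cube M)
    (Pool.Agent.TH283.CG.cube_colorable M) (k + 1)
  obtain ⟨Cp, dp, hpk⟩ := Pool.Agent.TH589.CG.packing_poly N
  obtain ⟨ε, C, J, hε, hC⟩ := tk_all hb M hM t Cp dp k 0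
  refine ⟨C, ?_⟩
  intro Γ _ _ _ A hA h0 hfree hemp htemp
  have hadj := addCayley_iff A hA h0
  have hPM : P M A {0} := Pool.Agent.TH967.CG.cube_emb M Γ A hA h0 hemp
  have hpack : Pack Cp dp A := by
    intro R U q hq hR hU
    have hSh := fun X hX => hN Γ (SimpleGraph.addCayley (A : Set Γ)) X hfree hemp hX
    apply hpk Γ (SimpleGraph.addCayley (A : Set Γ)) R U q hq hR hSh
    intro u hu v hv huv
    refine (hU u hu v hv huv).trans (Nat.mul_le_mul_left q (Finset.card_le_card ?_))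
    intro z hz
    have hz2 := Finset.mem_filter.1 hz
    refine (@Finset.mem_filter _ _ (_) _ _).2 ⟨hz2.1, ?_⟩
    rw [hadj, hadj]
    exact hz2.2
  have hloc : IsLoc (Finset.univ : Finset Γ) (0 : Γ → Fin 0 → ℝ) := by
    refine ⟨⟨Finset.mem_univ _, rfl⟩, ?_, ?_, ?_⟩
    · intro x _
      exact ⟨Finset.mem_univ _, Subsingleton.elim _ _⟩
    · intro x _
      have h1 : (0 : Γ → Fin 0 → ℝ) x = 0 := rfl
      rw [h1, norm_zero]
      exact zero_le_one
    · intro x _ y _ _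
      exact ⟨Finset.mem_univ _, Subsingleton.elim _ _⟩
  have hPL : PL M A Finset.univ := by
    intro a ha
    refine hPM a (fun i => ⟨(ha i).1, fun h => ?_⟩)
    rw [Finset.mem_singleton] at h
    have h1 := (ha i).1
    rw [h] at h1
    exact h0 h1
  have hNo : NoCh t A Finset.univ := by
    intro l hl _ hch
    obtain ⟨e⟩ := ch_embed A hA h0 t l hl hch
    exact htemp.false e
  have hPk : PackL Cp dp J A Finset.univ := fun R U q hq hR _ _ hU => hpack R U q hq hR hU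
  obtain ⟨c, hc⟩ := hC Γ A Finset.univ 0 hloc hA h0 hPL hNo hPk (by
    intro Q _ hQ
    by_contra hcon
    obtain ⟨Q', hQ', hcard⟩ := Finset.exists_subset_card_eq (show k + 1 ≤ Q.card by omega)
    apply hfree Q'
    rw [SimpleGraph.isNClique_iff]
    refine ⟨?_, hcard⟩
    intro x hx y hy hxy
    rw [hadj]
    exact hQ x (hQ' hx) y (hQ' hy) hxy)
  refine ⟨SimpleGraph.Coloring.mk c ?_⟩
  intro u v huv
  have hmem : ∀ u : Γ, u ∈ bl (Finset.univ : Finset Γ) (0 : Γ → Fin 0 → ℝ) ε := by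
    intro u
    rw [mem_bl]
    refine ⟨Finset.mem_univ _, ?_⟩
    have h1 : (0 : Γ → Fin 0 → ℝ) u = 0 := rfl
    rw [h1, norm_zero]
    exact hε.le
  exact hc u (hmem u) v (hmem v) ((hadj u v).1 huv)

/-- Gyárfás–Sumner for Cayley graphs of finite abelian groups. -/
theorem fin_forest (hb : Bohr) {m : ℕ} (F : SimpleGraph (Fin m)) (hF : F.IsAcyclic) :
    ∃ f : ℕ → ℕ, ∀ (Γ : Type) [AddCommGroup Γ] [Fintype Γ] (A : Set Γ),
      ¬ F.IsIndContained (SimpleGraph.addCayley A) →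
      (SimpleGraph.addCayley A).Colorable (f (SimpleGraph.addCayley A).cliqueNum) := by
  classical
  obtain ⟨T, hT, ⟨e⟩⟩ := Pool.Agent.H367R3.forest_in_tree F hF
  obtain ⟨t, ⟨g⟩⟩ := tree_rt m (Fin (m + 1)) T hT (Fintype.card_fin _)
  obtain ⟨M₀, ⟨h⟩⟩ := Pool.Agent.TH283.CG.forest_cube F hF
  obtain ⟨h'⟩ := cube_mono (le_max_left M₀ 2)
  choose f hf using fin_main hb (max M₀ 2) (le_max_right _ _) t
  refine ⟨f, ?_⟩
  intro Γ _ _ A hemp
  obtain ⟨A', hA'neg, h0A', -, hGeq⟩ := norm_gen A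
  rw [hGeq]
  rw [hGeq] at hemp
  apply hf _ Γ A' hA'neg h0A'
  · intro s hs
    have h := hs.isClique.card_le_cliqueNum
    rw [hs.card_eq] at h
    omega
  · exact ⟨fun φ => hemp ⟨(h.trans h').trans φ⟩⟩
  · exact ⟨fun φ => hemp ⟨(e.trans g).trans φ⟩⟩

end Pool.Agent.K4H78.GA
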