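import Pool.Agent.K4H78.GA.CubeMap
import Pool.Agent.K4H78.GA.Fin

/-!
# Boxes in `ℤ ^ D`: the finite model
-/

set_option autoImplicit false
set_option linter.unusedSectionVars false

open Finset
open scoped Pointwise

namespace Pool.Agent.K4H78.GA

open Pool.Agent.TH346.CG Pool.Agent.TH346.LG

section lift

variable {D m : ℕ} [NeZero m]

/-- the residues of least absolute value -/
def sig (x : Fin D → ZMod m) : Fin D → ℤ := fun i => (x i).valMinAbs

/-- reduction modulo `m` -/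
def pr (m : ℕ) (y : Fin D → ℤ) : Fin D → ZMod m := fun i => (y i : ZMod m)

theorem pr_sig (x : Fin D → ZMod m) : pr m (sig x) = x :=
  funext fun i => ZMod.coe_valMinAbs (x i)

theorem sig_pr (y : Fin D → ℤ) (h : ∀ i, 2 * |y i| < m) : sig (pr m y) = y := by
  funext i
  refine (ZMod.valMinAbs_spec _ _).2 ⟨rfl, ?_⟩
  have h1 := h i
  have h2 := neg_abs_le (y i)
  have h3 := le_abs_self (y i)
  constructor <;> omega

theorem sig_eq (x : Fin D → ZMod m) (y : Fin D → ℤ) (hx : pr m y = x)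
    (h : ∀ i, 2 * |y i| < m) : sig x = y := by
  rw [← hx]
  exact sig_pr y h

theorem pr_add (y y' : Fin D → ℤ) : pr m (y + y') = pr m y + pr m y' := by
  funext i
  simp [pr]

theorem pr_sub (y y' : Fin D → ℤ) : pr m (y - y') = pr m y - pr m y' := by
  funext i
  simp [pr]

theorem pr_neg (y : Fin D → ℤ) : pr m (-y) = -pr m y := by
  funext i
  simp [pr]

theorem sig_add (x x' : Fin D → ZMod m) (h : ∀ i, 2 * |sig x i + sig x' i| < m) :
    sig (x + x') = sig x + sig x' := by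
  apply sig_eq _ (sig x + sig x') _ h
  rw [pr_add, pr_sig, pr_sig]

theorem sig_sub (x x' : Fin D → ZMod m) (h : ∀ i, 2 * |sig x i - sig x' i| < m) :
    sig (x - x') = sig x - sig x' := by
  apply sig_eq _ (sig x - sig x') _ h
  rw [pr_sub, pr_sig, pr_sig]

theorem sig_neg (x : Fin D → ZMod m) (h : ∀ i, 2 * |sig x i| < m) : sig (-x) = -sig x := by
  apply sig_eq
  · rw [pr_neg, pr_sig]
  · intro i
    rw [Pi.neg_apply, abs_neg]
    exact h i

theorem sig_zero : sig (0 : Fin D → ZMod m) = 0 := by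
  apply sig_eq
  · funext i
    simp [pr]
  · intro i
    have := NeZero.pos m
    simpa using this

theorem sig_inj : Function.Injective (sig : (Fin D → ZMod m) → Fin D → ℤ) := by
  intro x x' h
  rw [← pr_sig x, h, pr_sig]

variable (m) in
/-- the elements with small residues -/
def Lam (n : Fin D → ℕ) : Finset (Fin D → ZMod m) :=
  Finset.univ.filter fun x => ∀ i, |sig x i| ≤ n i

theorem mem_Lam (n : Fin D → ℕ) (x : Fin D → ZMod m) : x ∈ Lam m n ↔ ∀ i, |sig x i| ≤ n i := by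
  unfold Lam
  rw [Finset.mem_filter]
  exact ⟨fun h => h.2, fun h => ⟨Finset.mem_univ _, h⟩⟩

/-- the local homomorphism -/
noncomputable def th (n : Fin D → ℕ) (x : Fin D → ZMod m) : Fin D → ℝ :=
  fun i => (sig x i : ℝ) / (n i : ℝ)

theorem loc_box (n : Fin D → ℕ) (hn : ∀ i, 2 * n i < m) : IsLoc (Lam m n) (th n) := by
  have hs : ∀ x ∈ Lam m n, ∀ i, 2 * |sig x i| < m := by
    intro x hx i
    have h1 := (mem_Lam n x).1 hx i
    have h2 := hn i
    omega
  refine ⟨⟨?_, ?_⟩, ?_, ?_, ?_⟩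
  · rw [mem_Lam]
    intro i
    rw [sig_zero]
    simp
  · funext i
    simp [th, sig_zero]
  · intro x hx
    have h1 := sig_neg x (hs x hx)
    refine ⟨?_, ?_⟩
    · rw [mem_Lam] at hx ⊢
      intro i
      rw [h1, Pi.neg_apply, abs_neg]
      exact hx i
    · funext i
      simp only [th, h1, Pi.neg_apply]
      push_cast
      ring
  · intro x hx
    rw [pi_norm_le_iff_of_nonneg zero_le_one]
    intro i
    rw [Real.norm_eq_abs]
    simp only [th]
    rw [abs_div, Nat.abs_cast]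
    apply div_le_one_of_le₀ _ (Nat.cast_nonneg _)
    have h1 := (mem_Lam n x).1 hx i
    exact_mod_cast h1
  · intro x hx y hy hxy
    have hb : ∀ i, |sig x i| + |sig y i| ≤ n i := by
      intro i
      have h1 := norm_le_pi_norm (th n x) i
      have h2 := norm_le_pi_norm (th n y) i
      rw [Real.norm_eq_abs] at h1 h2
      simp only [th] at h1 h2
      rw [abs_div, Nat.abs_cast] at h1 h2
      by_cases hni : n i = 0
      · have h3 := (mem_Lam n x).1 hx i
        have h4 := (mem_Lam n y).1 hy i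
        omega
      · have h5 : (0 : ℝ) < n i := by exact_mod_cast Nat.pos_of_ne_zero hni
        have h6 : |(sig x i : ℝ)| / n i + |(sig y i : ℝ)| / n i ≤ 1 :=
          (add_le_add h1 h2).trans hxy
        rw [← add_div, div_le_one h5] at h6
        exact_mod_cast h6
    have hadd : sig (x + y) = sig x + sig y := by
      apply sig_add
      intro i
      have h1 := hb i
      have h2 := abs_add_le (sig x i) (sig y i)
      have h3 := hn i
      omega
    refine ⟨?_, ?_⟩
    · rw [mem_Lam]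
      intro i
      rw [hadd, Pi.add_apply]
      exact (abs_add_le _ _).trans (hb i)
    · funext i
      simp only [th, hadd, Pi.add_apply]
      push_cast
      ring

theorem ks_bound (n : Fin D → ℕ) (s : ℕ) (h : ∀ i, 2 * (s * n i) < m) :
    ∀ x ∈ ks s (Lam m n), ∀ i, |sig x i| ≤ s * n i := by
  induction s with
  | zero =>
    intro x hx i
    have : x = 0 := by simpa [ks] using hx
    rw [this, sig_zero]
    simp
  | succ s ih =>
    intro x hx i
    have h' : ∀ i, 2 * (s * n i) < m := by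
      intro i
      have h1 := h i
      have h2 : s * n i ≤ (s + 1) * n i := Nat.mul_le_mul_right _ (Nat.le_succ s)
      omega
    obtain ⟨y, hy, z, hz, rfl⟩ := Finset.mem_add.1 (show x ∈ ks s (Lam m n) + Lam m n from hx)
    have hb : ∀ i, |sig y i| + |sig z i| ≤ ((s + 1 : ℕ) : ℤ) * n i := by
      intro i
      have h1 := ih h' y hy i
      have h2 := (mem_Lam n z).1 hz i
      push_cast
      linarith
    have hadd : sig (y + z) = sig y + sig z := by
      apply sig_add
      intro i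
      have h1 := hb i
      have h2 := abs_add_le (sig y i) (sig z i)
      have h3 := h i
      have h4 : (2 * (((s + 1 : ℕ) : ℤ) * n i)) < m := by exact_mod_cast h3
      linarith
    rw [hadd, Pi.add_apply]
    exact (abs_add_le _ _).trans (hb i)

end lift

section box

variable {D m : ℕ} [NeZero m]

/-- the graph on the box with connection set `A` -/
def boxG (N : Fin D → ℕ) (A : Set (Fin D → ℤ)) : SimpleGraph (∀ i, Fin (N i)) :=
  (SimpleGraph.addCayley A).comap fun v i => ((v i : ℕ) : ℤ)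

theorem boxG_adj (N : Fin D → ℕ) (A : Set (Fin D → ℤ)) (v w : ∀ i, Fin (N i)) :
    (boxG N A).Adj v w ↔
      ((fun i => ((w i : ℕ) : ℤ) - ((v i : ℕ) : ℤ)) : Fin D → ℤ) ≠ 0 ∧
      (((fun i => ((w i : ℕ) : ℤ) - ((v i : ℕ) : ℤ)) : Fin D → ℤ) ∈ A ∨
        -((fun i => ((w i : ℕ) : ℤ) - ((v i : ℕ) : ℤ)) : Fin D → ℤ) ∈ A) := by
  show (SimpleGraph.addCayley A).Adj (fun i => ((v i : ℕ) : ℤ)) (fun i => ((w i : ℕ) : ℤ)) ↔ _
  obtain ⟨x, hx⟩ : ∃ x : Fin D → ℤ, x = fun i => ((v i : ℕ) : ℤ) := ⟨_, rfl⟩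
  obtain ⟨y, hy⟩ : ∃ y : Fin D → ℤ, y = fun i => ((w i : ℕ) : ℤ) := ⟨_, rfl⟩
  have h1 : ((fun i => ((w i : ℕ) : ℤ) - ((v i : ℕ) : ℤ)) : Fin D → ℤ) = y - x := by
    rw [hx, hy]
    rfl
  rw [h1, ← hx, ← hy, SimpleGraph.addCayley_adj']
  constructor
  · rintro ⟨hne, g, hg, h | h⟩
    · refine ⟨fun h0 => hne (sub_eq_zero.1 h0).symm, Or.inl ?_⟩
      rw [← h, add_sub_cancel_left]
      exact hg
    · refine ⟨fun h0 => hne (sub_eq_zero.1 h0).symm, Or.inr ?_⟩
      rw [h, neg_sub, add_sub_cancel_left]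
      exact hg
  · rintro ⟨h0, h | h⟩
    · exact ⟨fun h' => h0 (by rw [h', sub_self]), _, h, Or.inl (by abel)⟩
    · exact ⟨fun h' => h0 (by rw [h', sub_self]), _, h, Or.inr (by abel)⟩

variable (m) in
/-- the connection set in the finite model -/
noncomputable def Amod (N : Fin D → ℕ) (A : Set (Fin D → ℤ)) : Finset (Fin D → ZMod m) :=
  open Classical in
  Finset.univ.filter fun x => (sig x ≠ 0 ∧ (sig x ∈ A ∨ -sig x ∈ A)) ∧ ∀ i, |sig x i| < N i

theorem mem_Amod (N : Fin D → ℕ) (A : Set (Fin D → ℤ)) (x : Fin D → ZMod m) :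
    x ∈ Amod m N A ↔ (sig x ≠ 0 ∧ (sig x ∈ A ∨ -sig x ∈ A)) ∧ ∀ i, |sig x i| < N i := by
  classical
  simp only [Amod, Finset.mem_filter, Finset.mem_univ, true_and]

theorem Amod_neg (N : Fin D → ℕ) (hm : ∀ i, 4 * N i < m) (A : Set (Fin D → ℤ)) :
    -(Amod m N A) = Amod m N A := by
  have key : ∀ x, x ∈ Amod m N A → -x ∈ Amod m N A := by
    intro x hx
    rw [mem_Amod] at hx
    have h1 : sig (-x) = -sig x := by
      apply sig_neg
      intro i
      have h2 := hx.2 i
      have h3 := hm i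
      omega
    rw [mem_Amod, h1]
    refine ⟨⟨by rw [neg_ne_zero]; exact hx.1.1, ?_⟩, ?_⟩
    · rw [neg_neg]
      exact hx.1.2.symm
    · intro i
      rw [Pi.neg_apply, abs_neg]
      exact hx.2 i
  ext x
  rw [Finset.mem_neg']
  constructor
  · intro h
    have := key _ h
    rwa [neg_neg] at this
  · exact key x

theorem zero_Amod (N : Fin D → ℕ) (A : Set (Fin D → ℤ)) : (0 : Fin D → ZMod m) ∉ Amod m N A := by
  intro h
  rw [mem_Amod, sig_zero] at h
  exact h.1.1 rfl

/-- the vertex of the box near the middle -/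
def vx (N : Fin D → ℕ) (hN : ∀ i, 0 < N i) (x : Fin D → ZMod m) : ∀ i, Fin (N i) :=
  fun i => ⟨(((N i / 2 : ℕ) : ℤ) + sig x i).toNat % N i, Nat.mod_lt _ (hN i)⟩

theorem vx_val (N : Fin D → ℕ) (hN : ∀ i, 0 < N i) (x : Fin D → ZMod m)
    (h : ∀ i, 4 * |sig x i| ≤ N i) (i : Fin D) :
    ((vx N hN x i : ℕ) : ℤ) = ((N i / 2 : ℕ) : ℤ) + sig x i := by
  have h1 := h i
  have h2 := neg_abs_le (sig x i)
  have h3 := le_abs_self (sig x i)
  have h4 := hN i
  have h5 : (((N i / 2 : ℕ) : ℤ) + sig x i).toNat < N i := by omega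
  show (((((N i / 2 : ℕ) : ℤ) + sig x i).toNat % N i : ℕ) : ℤ) = _
  rw [Nat.mod_eq_of_lt h5]
  omega

theorem vx_adj (N : Fin D → ℕ) (hN : ∀ i, 0 < N i) (hm : ∀ i, 4 * N i < m)
    (A : Set (Fin D → ℤ)) (x x' : Fin D → ZMod m)
    (h : ∀ i, 4 * |sig x i| ≤ N i) (h' : ∀ i, 4 * |sig x' i| ≤ N i) :
    (boxG N A).Adj (vx N hN x) (vx N hN x') ↔ x' - x ∈ Amod m N A := by
  have hb : ∀ i, 2 * |sig x' i - sig x i| ≤ N i := by
    intro i
    have h1 := h i
    have h2 := h' i
    have h3 := abs_sub (sig x' i) (sig x i)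
    omega
  have hsub : sig (x' - x) = sig x' - sig x := by
    apply sig_sub
    intro i
    have h1 := hb i
    have h2 := hm i
    omega
  have heq : ((fun i => ((vx N hN x' i : ℕ) : ℤ) - ((vx N hN x i : ℕ) : ℤ)) : Fin D → ℤ) =
      sig (x' - x) := by
    rw [hsub]
    funext i
    rw [vx_val N hN x h, vx_val N hN x' h', Pi.sub_apply]
    ring
  rw [boxG_adj, heq, mem_Amod]
  refine ⟨fun h1 => ⟨h1, ?_⟩, fun h1 => h1.1⟩
  intro i
  rw [hsub, Pi.sub_apply]
  have h1 := hb i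
  have h2 := hN i
  omega

theorem vx_inj (N : Fin D → ℕ) (hN : ∀ i, 0 < N i) (x x' : Fin D → ZMod m)
    (h : ∀ i, 4 * |sig x i| ≤ N i) (h' : ∀ i, 4 * |sig x' i| ≤ N i)
    (hxx : vx N hN x = vx N hN x') : x = x' := by
  apply sig_inj
  funext i
  have h1 := vx_val N hN x h i
  have h2 := vx_val N hN x' h' i
  rw [hxx, h2] at h1
  omega

/-- embedding into the box -/
theorem lift_emb {W : Type} (T : SimpleGraph W) (N : Fin D → ℕ) (hN : ∀ i, 0 < N i)
    (hm : ∀ i, 4 * N i < m) (A : Set (Fin D → ℤ)) (φ : W → Fin D → ZMod m)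
    (hφ : ∀ w i, 4 * |sig (φ w) i| ≤ N i) (hinj : Function.Injective φ)
    (hadj : ∀ v w, T.Adj v w ↔ φ w - φ v ∈ Amod m N A) : Nonempty (T ↪g boxG N A) := by
  refine ⟨⟨⟨fun w => vx N hN (φ w), ?_⟩, ?_⟩⟩
  · intro v w hvw
    exact hinj (vx_inj N hN _ _ (hφ v) (hφ w) hvw)
  · intro v w
    rw [hadj]
    exact vx_adj N hN hm A _ _ (hφ v) (hφ w)

end box

end Pool.Agent.K4H78.GA
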