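import Pool.Agent.K4H78.GA.Box

/-!
# Gyárfás–Sumner for boxes in `ℤ ^ D`
-/

set_option autoImplicit false
set_option linter.unusedSectionVars false

open Finset
open scoped Pointwise

namespace Pool.Agent.K4H78.GA

open Pool.Agent.TH346.CG Pool.Agent.TH346.LG

theorem sum_ks {Γ : Type} [AddCommGroup Γ] [DecidableEq Γ] {M : ℕ} (X : Finset Γ)
    (a : Fin M → Γ) (ha : ∀ i, a i ∈ X) (v : Finset (Fin M)) :
    ∑ i ∈ v, a i ∈ ks v.card X := by
  classical
  induction v using Finset.induction_on with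
  | empty => simp [ks]
  | insert i v hi ih =>
    rw [Finset.sum_insert hi, Finset.card_insert_of_notMem hi, add_comm (a i)]
    exact Finset.add_mem_add ih (ha i)

theorem sg_ks {Γ : Type} [AddCommGroup Γ] [DecidableEq Γ] (X : Finset Γ) (hX : -X = X)
    (h0 : (0 : Γ) ∈ X) : ∀ l : List Γ, (∀ x ∈ l, x ∈ X) → ∀ w ∈ sg l, w ∈ ks l.length X := by
  intro l
  induction l with
  | nil =>
    intro _ w hw
    simp [sg] at hw
  | cons b l ih =>
    intro hl w hw
    have hb : b ∈ X := hl b List.mem_cons_self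
    have hb' : -b ∈ X := by
      rw [← hX, Finset.mem_neg', neg_neg]
      exact hb
    have hz : (0 : Γ) ∈ ks l.length X := ks_mono X h0 (Nat.zero_le _) (by simp [ks])
    have ih' := ih (fun x hx => hl x (List.mem_cons_of_mem _ hx))
    rw [List.length_cons]
    show w ∈ ks l.length X + X
    rw [sg] at hw
    simp only [Finset.mem_union, Finset.mem_insert, Finset.mem_singleton,
      Finset.mem_image] at hw
    rcases hw with ((hw | hw | hw) | ⟨w', hw', rfl⟩) | ⟨w', hw', rfl⟩
    · have := Finset.add_mem_add (ih' w hw) h0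
      rwa [add_zero] at this
    · have := Finset.add_mem_add hz hb
      rw [zero_add] at this
      rw [hw]
      exact this
    · have := Finset.add_mem_add hz hb'
      rw [zero_add] at this
      rw [hw]
      exact this
    · exact Finset.add_mem_add (ih' w' hw') hb
    · rw [sub_eq_add_neg]
      exact Finset.add_mem_add (ih' w' hw') hb'

theorem ch_map {Γ : Type} [AddCommGroup Γ] [DecidableEq Γ] (A : Finset Γ) (hA : -A = A)
    (h0 : (0 : Γ) ∉ A) (t : RT) (l : List Γ) (hl : l.length = t.E) (hch : Ch A l) :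
    ∃ φ : t.V → Γ, Function.Injective φ ∧ (∀ v, φ v = 0 ∨ φ v ∈ sg l) ∧
      ∀ v w, t.graph.Adj v w ↔ φ w - φ v ∈ A := by
  classical
  obtain ⟨φ, hr, hps, h1, h2⟩ := rt_embed A hA t l hl hch
  have hneg : ∀ x : Γ, -x ∈ A ↔ x ∈ A := by
    intro x
    rw [← Finset.mem_neg', hA]
  have hadj : ∀ v w, t.graph.Adj v w ↔ φ w - φ v ∈ A := by
    intro v w
    constructor
    · intro h
      have := h1 v w h
      rwa [← hneg, neg_sub] at this
    · intro h
      by_contra hcon
      have hne : v ≠ w := by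
        rintro rfl
        rw [sub_self] at h
        exact h0 h
      have := (h2 v w hne hcon).1
      rw [← hneg, neg_sub] at this
      exact this h
  refine ⟨φ, ?_, ?_, hadj⟩
  · intro v w hvw
    by_contra hne
    by_cases h : t.adj v w
    · have h3 := h1 v w h
      rw [hvw, sub_self] at h3
      exact h0 h3
    · exact (h2 v w hne h).2 (by rw [hvw, sub_self])
  · intro v
    by_cases hv : v = t.root
    · left
      rw [hv]
      exact hr
    · right
      exact ps_sub_sg l (hps v hv)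

theorem box_main (hb : Bohr) (M : ℕ) (hM : 2 ≤ M) (t : RT) (D k : ℕ) {m₀ : ℕ}
    (F : SimpleGraph (Fin m₀)) (hF2 : F.Colorable 2) (hFt : Nonempty (F ↪g t.graph))
    (hFc : Nonempty (F ↪g cube M)) :
    ∃ C : ℕ, ∀ (N : Fin D → ℕ) (A : Set (Fin D → ℤ)), (∀ i, 0 < N i) →
      (boxG N A).CliqueFree (k + 1) → IsEmpty (F ↪g boxG N A) → (boxG N A).Colorable C := by
  classical
  obtain ⟨N₀, hN₀⟩ := Pool.Agent.W259.GS.noShatter F hF2 (k + 1)
  obtain ⟨Cp, dp, hpk⟩ := Pool.Agent.TH589.CG.packing_poly N₀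
  obtain ⟨ε, C, J, hε, hC⟩ := tk_all hb M hM t Cp dp k D
  obtain ⟨q, hq⟩ : ∃ q : ℕ, 1 / ε < q := exists_nat_gt _
  have hq0 : 0 < q := by
    have h1 : (0 : ℝ) < q := lt_trans (by positivity) hq
    exact_mod_cast h1
  obtain ⟨c, hc⟩ : ∃ c, c = 4 * (J + t.E + M + 1) := ⟨_, rfl⟩
  have hc0 : 0 < c := by omega
  refine ⟨(c * q) ^ D * C, ?_⟩
  intro N A hN hfree hemp
  obtain ⟨m, hm'⟩ : ∃ m, m = 4 * (∑ i, N i) + 5 := ⟨_, rfl⟩
  have : NeZero m := ⟨by omega⟩
  have hm : ∀ i, 4 * N i < m := by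
    intro i
    have h1 : N i ≤ ∑ i, N i :=
      Finset.single_le_sum (f := N) (fun _ _ => Nat.zero_le _) (Finset.mem_univ i)
    omega
  have hm4 : ∀ i, 4 * (N i : ℤ) < m := by
    intro i
    exact_mod_cast hm i
  obtain ⟨n, hn⟩ : ∃ n : Fin D → ℕ, n = fun i => N i / c := ⟨_, rfl⟩
  have hcn : ∀ i, c * n i ≤ N i := by
    intro i
    rw [hn]
    exact Nat.mul_div_le _ _
  have hsn : ∀ s, 4 * s ≤ c → ∀ i, 4 * (s * n i) ≤ N i := by
    intro s hs i
    calc 4 * (s * n i) = 4 * s * n i := by ring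
      _ ≤ c * n i := Nat.mul_le_mul_right _ hs
      _ ≤ N i := hcn i
  have hnN : ∀ i, 4 * n i ≤ N i := by
    intro i
    have := hsn 1 (by omega) i
    omega
  have hloc : IsLoc (Lam m n) (th n) := loc_box n (by
    intro i
    have h1 := hm i
    have h2 := hnN i
    omega)
  have hbound : ∀ s, 4 * s ≤ c → ∀ x ∈ ks s (Lam m n), ∀ i, 4 * |sig x i| ≤ N i := by
    intro s hs x hx i
    have h1 := ks_bound n s (by
      intro i
      have h1 := hm i
      have h2 := hsn s hs i
      omega) x hx i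
    have h2 := hsn s hs i
    have h3 : (4 * ((s : ℤ) * n i)) ≤ N i := by exact_mod_cast h2
    linarith
  have h0Λ : (0 : Fin D → ZMod m) ∈ Lam m n := hloc.zero.1
  have hΛn : -(Lam m n) = Lam m n := by
    have h1 : bl (Lam m n) (th n) 1 = Lam m n := by
      ext x
      rw [mem_bl]
      exact ⟨fun h => h.1, fun h => ⟨h, hloc.le x h⟩⟩
    rw [← h1]
    exact hloc.bl_neg 1
  have hAn := Amod_neg (m := m) N hm A
  have h0A := zero_Amod (m := m) N A
  -- the hypotheses of the local theorem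
  have hPL : PL M (Amod m N A) (Lam m n) := by
    intro a ha
    by_contra hcon
    push Not at hcon
    obtain ⟨hinj, hadj⟩ := cube_map M _ (Amod m N A) hAn h0A a (fun i => (ha i).1) hcon
    obtain ⟨e⟩ := lift_emb (cube M) N hN hm A (fun v => ∑ i ∈ v, a i) (by
      intro v
      apply hbound M (by omega)
      have h1 := sum_ks (Lam m n) a (fun i => (ha i).2) v
      refine ks_mono _ h0Λ ?_ h1
      have h2 := Finset.card_le_univ v
      rwa [Fintype.card_fin] at h2) hinj hadj
    obtain ⟨e'⟩ := hFc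
    exact hemp.false (e'.trans e)
  have hNo : NoCh t (Amod m N A) (Lam m n) := by
    intro l hl hlΛ hch
    obtain ⟨φ, hinj, hφ, hadj⟩ := ch_map (Amod m N A) hAn h0A t l hl hch
    obtain ⟨e⟩ := lift_emb t.graph N hN hm A φ (by
      intro v
      apply hbound t.E (by omega)
      rcases hφ v with h | h
      · rw [h]
        exact ks_mono _ h0Λ (Nat.zero_le _) (by simp [ks])
      · have h1 := sg_ks (Lam m n) hΛn h0Λ l hlΛ _ h
        rwa [hl] at h1) hinj hadj
    obtain ⟨e'⟩ := hFt
    exact hemp.false (e'.trans e)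
  have hbJ : ∀ x ∈ ks J (Lam m n), ∀ i, 4 * |sig x i| ≤ N i := hbound J (by omega)
  have hPk : PackL Cp dp J (Amod m N A) (Lam m n) := by
    intro R U q' hq' hR hRJ hUJ hU
    have hinj : ∀ x ∈ ks J (Lam m n), ∀ y ∈ ks J (Lam m n), vx N hN x = vx N hN y → x = y :=
      fun x hx y hy hxy => vx_inj N hN x y (hbJ x hx) (hbJ y hy) hxy
    have hUc : (U.image (vx N hN)).card = U.card := by
      apply Finset.card_image_of_injOn
      intro x hx y hy hxy
      exact hinj x (hUJ hx) y (hUJ hy) hxy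
    rw [← hUc]
    apply hpk _ (boxG N A) (R.image (vx N hN)) (U.image (vx N hN)) q' hq' (hR.image _)
      (fun X hX => hN₀ _ (boxG N A) X hfree hemp hX)
    intro u hu v hv huv
    obtain ⟨x, hx, rfl⟩ := Finset.mem_image.1 hu
    obtain ⟨y, hy, rfl⟩ := Finset.mem_image.1 hv
    have hxy : x ≠ y := fun h => huv (by rw [h])
    refine (Finset.card_image_le.trans (hU x hx y hy hxy)).trans (Nat.mul_le_mul_left q' ?_)
    refine Finset.card_le_card_of_injOn (vx N hN) ?_ ?_
    · intro z hz
      have hz2 := Finset.mem_filter.1 (Finset.mem_coe.1 hz)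
      refine Finset.mem_coe.2 ((@Finset.mem_filter _ _ (_) _ _).2
        ⟨Finset.mem_image_of_mem _ hz2.1, ?_⟩)
      rw [vx_adj N hN hm A x z (hbJ x (hUJ hx)) (hbJ z (hRJ hz2.1)),
        vx_adj N hN hm A y z (hbJ y (hUJ hy)) (hbJ z (hRJ hz2.1))]
      exact hz2.2
    · intro z hz w hw hzw
      have hz2 := (Finset.mem_filter.1 (Finset.mem_coe.1 hz)).1
      have hw2 := (Finset.mem_filter.1 (Finset.mem_coe.1 hw)).1
      exact hinj z (hRJ hz2) w (hRJ hw2) hzw
  have hb1 : ∀ x ∈ Lam m n, ∀ i, 4 * |sig x i| ≤ N i := by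
    intro x hx
    apply hbound 1 (by omega)
    show x ∈ ({0} : Finset _) + Lam m n
    rw [Finset.singleton_zero, zero_add]
    exact hx
  obtain ⟨c', hc'⟩ := hC _ (Amod m N A) (Lam m n) (th n) hloc hAn h0A hPL hNo hPk (by
    intro Q hQ hQc
    by_contra hcon
    obtain ⟨Q', hQ', hcard⟩ := Finset.exists_subset_card_eq (show k + 1 ≤ Q.card by omega)
    apply hfree (Q'.image (vx N hN))
    rw [SimpleGraph.isNClique_iff]
    constructor
    · intro u hu v hv huv
      obtain ⟨x, hx, rfl⟩ := Finset.mem_image.1 (Finset.mem_coe.1 hu)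
      obtain ⟨y, hy, rfl⟩ := Finset.mem_image.1 (Finset.mem_coe.1 hv)
      have hxy : x ≠ y := fun h => huv (by rw [h])
      rw [vx_adj N hN hm A x y (hb1 x (hQ (hQ' hx))) (hb1 y (hQ (hQ' hy)))]
      exact hQc x (hQ' hx) y (hQ' hy) hxy
    · rw [Finset.card_image_of_injOn, hcard]
      intro x hx y hy hxy
      exact vx_inj N hN x y (hb1 x (hQ (hQ' hx))) (hb1 y (hQ (hQ' hy))) hxy)
  -- the colouring
  obtain ⟨w, hw⟩ : ∃ w : Fin D → ℕ, w = fun i => n i / q + 1 := ⟨_, rfl⟩
  have hw0 : ∀ i, 0 < w i := by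
    intro i
    rw [hw]
    exact Nat.succ_pos _
  have hcell : ∀ (v : ∀ i, Fin (N i)) (i : Fin D), (v i : ℕ) / w i < c * q := by
    intro v i
    apply Nat.div_lt_of_lt_mul
    have h1 : N i < c * (n i + 1) := by
      rw [hn]
      exact Nat.lt_mul_div_succ _ hc0
    have h2 : n i < q * w i := by
      rw [hw]
      exact Nat.lt_mul_div_succ _ hq0
    calc (v i : ℕ) < N i := (v i).2
      _ < c * (n i + 1) := h1
      _ ≤ c * (q * w i) := Nat.mul_le_mul_left _ h2
      _ = w i * (c * q) := by ring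
  obtain ⟨r, hr⟩ : ∃ r : (∀ i, Fin (N i)) → Fin D → ℤ,
      r = fun v i => (((v i : ℕ) % w i : ℕ) : ℤ) := ⟨_, rfl⟩
  have hrn : ∀ v i, 0 ≤ r v i ∧ r v i ≤ ((n i / q : ℕ) : ℤ) := by
    intro v i
    rw [hr]
    refine ⟨Int.natCast_nonneg _, ?_⟩
    have h1 := Nat.mod_lt (v i : ℕ) (hw0 i)
    have h2 : w i = n i / q + 1 := by rw [hw]
    have h3 : (v i : ℕ) % w i ≤ n i / q := by omega
    simp only
    exact Nat.cast_le.2 h3
  have hrn' : ∀ v i, r v i ≤ n i := by
    intro v i
    refine (hrn v i).2.trans ?_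
    exact_mod_cast Nat.div_le_self _ _
  have hsig : ∀ v, sig (pr m (r v)) = r v := by
    intro v
    apply sig_pr
    intro i
    rw [abs_of_nonneg (hrn v i).1]
    have h1 := hrn' v i
    have h2 := hnN i
    have h3 := hm i
    omega
  have hrb : ∀ v, pr m (r v) ∈ bl (Lam m n) (th n) ε := by
    intro v
    rw [mem_bl, mem_Lam, hsig]
    refine ⟨fun i => ?_, ?_⟩
    · rw [abs_of_nonneg (hrn v i).1]
      exact hrn' v i
    · rw [pi_norm_le_iff_of_nonneg hε.le]
      intro i
      rw [Real.norm_eq_abs]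
      simp only [th, hsig]
      have h1 : (r v i : ℝ) ≤ (n i : ℝ) / q := by
        have h2 : (r v i : ℝ) ≤ ((n i / q : ℕ) : ℝ) := by
          have h3 : ((r v i : ℤ) : ℝ) ≤ (((n i / q : ℕ) : ℤ) : ℝ) := Int.cast_le.2 (hrn v i).2
          rwa [Int.cast_natCast] at h3
        exact h2.trans Nat.cast_div_le
      have h2 : (0 : ℝ) ≤ r v i := by exact_mod_cast (hrn v i).1
      rw [abs_of_nonneg (by positivity)]
      have hq' : (0 : ℝ) < q := by exact_mod_cast hq0
      by_cases hni : n i = 0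
      · rw [hni]
        simpa using hε.le
      · have h5 : (0 : ℝ) < n i := by exact_mod_cast Nat.pos_of_ne_zero hni
        rw [div_le_iff₀ h5]
        refine h1.trans ?_
        rw [div_eq_mul_one_div, mul_comm]
        apply mul_le_mul_of_nonneg_right _ h5.le
        rw [div_lt_iff₀ hε] at hq
        rw [div_le_iff₀ hq']
        linarith
  have hcol : (boxG N A).Coloring ((Fin D → Fin (c * q)) × Fin C) :=
    SimpleGraph.Coloring.mk
      (fun v => ((fun i => ⟨(v i : ℕ) / w i, hcell v i⟩ : Fin D → Fin (c * q)), c' (pr m (r v))))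
      (by
        intro u v huv heq
        have h1 := congrArg Prod.fst heq
        have h2 : c' (pr m (r u)) = c' (pr m (r v)) := congrArg Prod.snd heq
        have h3 : ∀ i, (u i : ℕ) / w i = (v i : ℕ) / w i := by
          intro i
          have h4 := congrFun h1 i
          exact congrArg Fin.val h4
        have h4 : ((fun i => ((v i : ℕ) : ℤ) - ((u i : ℕ) : ℤ)) : Fin D → ℤ) = r v - r u := by
          funext i
          rw [Pi.sub_apply, hr]
          have e1 := Nat.div_add_mod (u i : ℕ) (w i)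
          have e2 := Nat.div_add_mod (v i : ℕ) (w i)
          rw [h3 i] at e1
          have e3 : ((u i : ℕ) : ℤ) = (w i : ℤ) * (((v i : ℕ) / w i : ℕ) : ℤ) +
              (((u i : ℕ) % w i : ℕ) : ℤ) := by exact_mod_cast e1.symm
          have e4 : ((v i : ℕ) : ℤ) = (w i : ℤ) * (((v i : ℕ) / w i : ℕ) : ℤ) +
              (((v i : ℕ) % w i : ℕ) : ℤ) := by exact_mod_cast e2.symm
          simp only
          linarith
        rw [boxG_adj, h4] at huv
        refine hc' _ (hrb u) _ (hrb v) ?_ h2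
        have h5 : sig (pr m (r v) - pr m (r u)) = r v - r u := by
          rw [sig_sub, hsig, hsig]
          intro i
          rw [hsig, hsig]
          have a1 := (hrn v i).1
          have a2 := (hrn u i).1
          have a3 := hrn' v i
          have a4 := hrn' u i
          have a5 := hnN i
          have a6 := hm i
          have a7 : |r v i - r u i| ≤ n i := by
            rw [abs_le]
            constructor <;> linarith
          omega
        rw [mem_Amod, h5]
        refine ⟨huv, ?_⟩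
        intro i
        have a1 := (hrn v i).1
        have a2 := (hrn u i).1
        have a3 := hrn' v i
        have a4 := hrn' u i
        have a5 := hnN i
        have a6 := hN i
        have a7 : |r v i - r u i| ≤ n i := by
          rw [abs_le]
          constructor <;> linarith
        rw [Pi.sub_apply]
        omega)
  have h1 := hcol.colorable
  rw [Fintype.card_prod, Fintype.card_fun, Fintype.card_fin, Fintype.card_fin,
    Fintype.card_fin] at h1
  exact h1

/-- Gyárfás–Sumner for boxes. -/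
theorem box_forest (hb : Bohr) {m₀ : ℕ} (F : SimpleGraph (Fin m₀)) (hF : F.IsAcyclic) (D : ℕ) :
    ∃ f : ℕ → ℕ, ∀ (N : Fin D → ℕ) (A : Set (Fin D → ℤ)),
      ¬ F.IsIndContained (boxG N A) → (boxG N A).Colorable (f (boxG N A).cliqueNum) := by
  classical
  obtain ⟨T, hT, ⟨e⟩⟩ := Pool.Agent.H367R3.forest_in_tree F hF
  obtain ⟨t, ⟨g⟩⟩ := tree_rt m₀ (Fin (m₀ + 1)) T hT (Fintype.card_fin _)
  obtain ⟨M₀, ⟨h⟩⟩ := Pool.Agent.TH283.CG.forest_cube F hF
  obtain ⟨h'⟩ := cube_mono (le_max_left M₀ 2)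
  choose f hf using fun k => box_main hb (max M₀ 2) (le_max_right _ _) t D k F
    hF.colorable_two ⟨e.trans g⟩ ⟨h.trans h'⟩
  refine ⟨f, ?_⟩
  intro N A hemp
  by_cases hN : ∀ i, 0 < N i
  · apply hf _ N A hN
    · intro s hs
      have h := hs.isClique.card_le_cliqueNum
      rw [hs.card_eq] at h
      omega
    · exact ⟨fun φ => hemp ⟨φ⟩⟩
  · push Not at hN
    obtain ⟨i, hi⟩ := hN
    have hE : IsEmpty (∀ i, Fin (N i)) := ⟨fun v => by
      have := (v i).2
      omega⟩
    exact ⟨SimpleGraph.Coloring.mk (fun v => hE.elim v) (fun {v} => hE.elim v)⟩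

end Pool.Agent.K4H78.GA
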