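import Pool.Agent.TH346.CG.Defs2

/-!
# Independent elements give an induced cube

Adapted from `Pool/Agent/TH967/CG/CubeEmb.lean`.
-/

set_option autoImplicit false

open Finset
open scoped Pointwise

namespace Pool.Agent.K4H78.GA

open Pool.Agent.TH346.CG

theorem cube_map (M : ℕ) (Γ : Type) [AddCommGroup Γ] [DecidableEq Γ]
    (A : Finset Γ) (hA : -A = A) (h0 : 0 ∉ A) (a : Fin M → Γ) (ha : ∀ i, a i ∈ A)
    (hcon : ∀ ε : Fin M → SignType, 2 ≤ (univ.filter (fun i => ε i ≠ 0)).card →
      (∑ i, ((ε i : SignType) : ℤ) • a i) ∉ A ∪ {0}) :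
    Function.Injective (fun v : Finset (Fin M) => ∑ i ∈ v, a i) ∧
      ∀ v w : Finset (Fin M), (cube M).Adj v w ↔ (∑ i ∈ w, a i) - (∑ i ∈ v, a i) ∈ A := by
  obtain ⟨ε, hε⟩ : ∃ ε : Finset (Fin M) → Finset (Fin M) → Fin M → SignType,
      ∀ v w i, ε v w i = if i ∈ v then (if i ∈ w then 0 else 1)
        else (if i ∈ w then -1 else 0) := ⟨_, fun _ _ _ => rfl⟩
  obtain ⟨φ, hφd⟩ : ∃ φ : Finset (Fin M) → Γ, φ = fun v => ∑ i ∈ v, a i := ⟨_, rfl⟩
  have hφ : ∀ v w, ∑ i, ((ε v w i : SignType) : ℤ) • a i = φ v - φ w := by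
    intro v w
    have h1 : ∀ v, φ v = ∑ i, if i ∈ v then a i else 0 := by
      intro v
      rw [hφd, Finset.sum_ite_mem, Finset.univ_inter]
    rw [h1, h1, ← Finset.sum_sub_distrib]
    refine Finset.sum_congr rfl fun i _ => ?_
    rw [hε]
    by_cases h2 : i ∈ v <;> by_cases h3 : i ∈ w <;> simp [h2, h3]
  have hsupp : ∀ v w i, ε v w i ≠ 0 ↔ i ∈ symmDiff v w := by
    intro v w i
    rw [hε, Finset.mem_symmDiff]
    by_cases h2 : i ∈ v <;> by_cases h3 : i ∈ w <;> simp [h2, h3]
  have hfilt : ∀ v w, (univ.filter (fun i => ε v w i ≠ 0)) = symmDiff v w := by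
    intro v w
    ext i
    rw [Finset.mem_filter, hsupp]
    exact ⟨fun h => h.2, fun h => ⟨Finset.mem_univ i, h⟩⟩
  have hneg : ∀ g, g ∈ A → -g ∈ A := by
    intro g hg
    rw [← hA]
    exact Finset.neg_mem_neg hg
  have hadj : ∀ v w, (cube M).Adj v w → φ v - φ w ∈ A := by
    intro v w hvw
    obtain ⟨i, hi⟩ := Finset.card_eq_one.1 (show (symmDiff v w).card = 1 from hvw)
    rw [← hφ]
    have h1 : ∑ i', ((ε v w i' : SignType) : ℤ) • a i' = ((ε v w i : SignType) : ℤ) • a i := by
      apply Finset.sum_eq_single i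
      · intro j _ hj
        have h2 : ε v w j = 0 := by
          by_contra h3
          rw [← ne_eq, hsupp, hi, Finset.mem_singleton] at h3
          exact hj h3
        rw [h2]
        simp
      · intro h
        exact absurd (Finset.mem_univ i) h
    rw [h1]
    have h2 : ε v w i ≠ 0 := by
      rw [hsupp, hi]
      exact Finset.mem_singleton_self i
    have h3 : ε v w i = 1 ∨ ε v w i = -1 := by
      rcases SignType.trichotomy (ε v w i) with h | h | h
      · exact Or.inr h
      · exact absurd h h2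
      · exact Or.inl h
    rcases h3 with h3 | h3
    · rw [h3]
      simpa using ha i
    · rw [h3]
      simpa using hneg _ (ha i)
  have hnadj : ∀ v w, v ≠ w → ¬ (cube M).Adj v w → φ v - φ w ∉ A ∧ φ v - φ w ≠ 0 := by
    intro v w hne hvw
    have hc0 : (symmDiff v w).card ≠ 0 := by
      intro hc
      rw [Finset.card_eq_zero] at hc
      exact hne (symmDiff_eq_bot.1 (by rw [hc]; rfl))
    have hc1 : (symmDiff v w).card ≠ 1 := fun hc => hvw hc
    have h1 := hcon (ε v w) (by rw [hfilt]; omega)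
    rw [hφ, Finset.mem_union, Finset.mem_singleton] at h1
    exact ⟨fun h => h1 (Or.inl h), fun h => h1 (Or.inr h)⟩
  have hinj : Function.Injective φ := by
    intro v w hvw
    by_contra hne
    by_cases h : (cube M).Adj v w
    · have h1 := hadj v w h
      rw [hvw, sub_self] at h1
      exact h0 h1
    · exact (hnadj v w hne h).2 (by rw [hvw, sub_self])
  rw [hφd] at hinj hadj hnadj
  refine ⟨hinj, ?_⟩
  intro v w
  constructor
  · intro h
    have h1 := hneg _ (hadj v w h)
    rwa [neg_sub] at h1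
  · intro h
    by_contra hvw
    have hne : v ≠ w := by
      rintro rfl
      rw [sub_self] at h
      exact h0 h
    apply (hnadj v w hne hvw).1
    have h1 := hneg _ h
    rwa [neg_sub] at h1

end Pool.Agent.K4H78.GA
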