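import Pool.Agent.TH346.CG.Defs2

/-!
# Local homomorphisms to `ℝ ^ D`, signed sums
-/

set_option autoImplicit false

open Finset
open scoped Pointwise

namespace Pool.Agent.K4H78.GA

/-- `θ` is a local homomorphism to `ℝ ^ D`, defined on the symmetric set `Λ`. -/
structure IsLoc {Γ : Type} [AddCommGroup Γ] [DecidableEq Γ] {D : ℕ} (Λ : Finset Γ)
    (θ : Γ → Fin D → ℝ) : Prop where
  zero : (0 : Γ) ∈ Λ ∧ θ 0 = 0
  neg : ∀ x ∈ Λ, -x ∈ Λ ∧ θ (-x) = -θ x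
  le : ∀ x ∈ Λ, ‖θ x‖ ≤ 1
  add : ∀ x ∈ Λ, ∀ y ∈ Λ, ‖θ x‖ + ‖θ y‖ ≤ 1 → x + y ∈ Λ ∧ θ (x + y) = θ x + θ y

/-- the ball of radius `r` -/
noncomputable def bl {Γ : Type} {D : ℕ} (Λ : Finset Γ) (θ : Γ → Fin D → ℝ) (r : ℝ) : Finset Γ :=
  open Classical in Λ.filter fun x => ‖θ x‖ ≤ r

/-- nontrivial signed sub-sums -/
def sg {Γ : Type} [AddCommGroup Γ] [DecidableEq Γ] : List Γ → Finset Γ
  | [] => ∅
  | b :: l => sg l ∪ {b, -b} ∪ (sg l).image (fun w => w + b) ∪ (sg l).image (fun w => w - b)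

/-- nontrivial signed sub-sums with positive first term -/
def ps {Γ : Type} [AddCommGroup Γ] [DecidableEq Γ] : List Γ → Finset Γ
  | [] => ∅
  | b :: l => ps l ∪ {b} ∪ (sg l).image (fun w => w + b)

end Pool.Agent.K4H78.GA
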