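import Pool.Agent.K4H78.GA.Select

/-!
# Many steps of the same kind: the geometry
-/

set_option autoImplicit false

open Finset
open scoped Pointwise

namespace Pool.Agent.K4H78.GA

open Pool.Agent.TH346.CG

section

variable {Γ : Type} [AddCommGroup Γ] [DecidableEq Γ] {D : ℕ}

/-- slow step -/
def SlowStep (Λ : Finset Γ) (θ : Γ → Fin D → ℝ) (M ρ : ℝ) (B U : Finset Γ) : Prop :=
  B ⊆ bl Λ θ ρ ∧ U = bl Λ θ (M * ρ)

/-- fast step -/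
def FastStep (Λ : Finset Γ) (θ : Γ → Fin D → ℝ) (M ρ γ : ℝ) (B U : Finset Γ)
    (v : Fin D → ℝ) : Prop :=
  ∃ r, ρ ≤ r ∧ r ≤ M * ρ ∧ B ⊆ bl Λ θ r ∧ U = bl Λ θ (r - γ) ∧ (∀ b ∈ B, ‖θ b - v‖ ≤ γ) ∧
    r - γ - γ ≤ ‖v‖ ∧ ‖v‖ ≤ r

variable {Λ : Finset Γ} {θ : Γ → Fin D → ℝ}

theorem sum_small (M ρ₀ δ : ℝ) (hM : 2 ≤ M) (hρ : 0 < ρ₀) (hδ : 0 < δ)
    (hδM : δ * (32 * M) ≤ 1) (i : ℕ) (I : List ℕ) (hs : I.Pairwise (· < ·))
    (hI : ∀ j ∈ I, i < j) : (I.map fun i => M * (ρ₀ * δ ^ i)).sum ≤ ρ₀ * δ ^ i / 16 := by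
  have hδ2 : δ ≤ 1 / 2 := by nlinarith
  have h1 := geom_sum δ hδ hδ2 I hs (i + 1) (fun j hj => hI j hj)
  have h2 : (I.map fun i => M * (ρ₀ * δ ^ i)).sum = M * ρ₀ * (I.map fun i => δ ^ i).sum := by
    rw [← List.sum_map_mul_left]
    congr 1
    apply List.map_congr_left
    intro x _
    ring
  rw [h2]
  have h3 : M * ρ₀ * (I.map fun i => δ ^ i).sum ≤ M * ρ₀ * (2 * δ ^ (i + 1)) :=
    mul_le_mul_of_nonneg_left h1 (by positivity)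
  refine h3.trans ?_
  have h4 : M * ρ₀ * (2 * δ ^ (i + 1)) = ρ₀ * δ ^ i * (δ * (32 * M)) / 16 := by
    rw [pow_succ]; ring
  rw [h4]
  have h5 : 0 < ρ₀ * δ ^ i := by positivity
  have h6 : ρ₀ * δ ^ i * (δ * (32 * M)) ≤ ρ₀ * δ ^ i * 1 := mul_le_mul_of_nonneg_left hδM h5.le
  linarith

theorem pow_small (δ : ℝ) (hδ : 0 < δ) (hδ1 : δ ≤ 1) (ρ₀ : ℝ) (hρ : 0 < ρ₀) (i : ℕ) :
    0 < ρ₀ * δ ^ i ∧ ρ₀ * δ ^ i ≤ ρ₀ := by
  constructor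
  · positivity
  · have h1 : δ ^ i ≤ 1 := pow_le_one₀ hδ.le hδ1
    nlinarith

/-- only slow steps -/
theorem slow_ch (hloc : IsLoc Λ θ) (A : Finset Γ) (hA : -A = A) (B U V : ℕ → Finset Γ)
    (M ρ₀ δ : ℝ) (hM : 2 ≤ M) (hρ : 0 < ρ₀) (hMρ : M * ρ₀ ≤ 1 / 2) (hδ : 0 < δ)
    (hδM : δ * (32 * M) ≤ 1) (I : List ℕ) (hs : I.Pairwise (· < ·))
    (hI : ∀ i ∈ I, ((0 : Γ) ∈ V i ∧ B i ⊆ A) ∧ SlowStep Λ θ M (ρ₀ * δ ^ i) (B i) (U i))
    (l : List Γ) (hl : Sel A B U V I l) : Ch A l := by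
  have hδ1 : δ ≤ 1 := by nlinarith
  refine sel_ch A hA B U V I l (fun i hi => (hI i hi).1) hl ?_
  intro I₁ i I₂ b l₂ hI₁ hl₂ hb w hw
  rw [hI₁, List.pairwise_append] at hs
  obtain ⟨-, hs2, -⟩ := hs
  rw [List.pairwise_cons] at hs2
  have hsmall := sum_small M ρ₀ δ hM hρ hδ hδM i I₂ hs2.2 hs2.1
  obtain ⟨hp1, hp2⟩ := pow_small δ hδ hδ1 ρ₀ hρ i
  have hρ4 : ρ₀ ≤ 1 / 4 := by nlinarith
  have hw' := sel_mem hloc A B U V (fun i => M * (ρ₀ * δ ^ i)) (fun i => by positivity) I₂ l₂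
    (fun j hj => by
      have hjI : j ∈ I := by
        rw [hI₁]
        exact List.mem_append_right _ (List.mem_cons_of_mem _ hj)
      refine (hI j hjI).2.1.trans (bl_mono Λ θ ?_)
      have := (pow_small δ hδ hδ1 ρ₀ hρ j).1
      nlinarith)
    (by linarith) hl₂ w (ps_sub_sg l₂ hw)
  have hiI : i ∈ I := by
    rw [hI₁]
    exact List.mem_append_right _ List.mem_cons_self
  obtain ⟨hBi, hUi⟩ := (hI i hiI).2
  rw [hUi]
  refine bl_mono Λ θ ?_ (hloc.sub_mem (r := ρ₀ * δ ^ i) (r' := ρ₀ * δ ^ i / 16) (by linarith)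
    (hBi hb) (bl_mono Λ θ hsmall hw')).1
  nlinarith

/-- only fast steps in almost the same direction -/
theorem fast_ch (hloc : IsLoc Λ θ) (A : Finset Γ) (hA : -A = A) (B U V : ℕ → Finset Γ)
    (M ρ₀ δ γ : ℝ) (hM : 2 ≤ M) (hρ : 0 < ρ₀) (hMρ : M * ρ₀ ≤ 1 / 2) (hδ : 0 < δ)
    (hδM : δ * (32 * M) ≤ 1) (hγ : 0 < γ) (I : List ℕ) (hs : I.Pairwise (· < ·))
    (v : ℕ → Fin D → ℝ) (u : Fin D → ℝ)
    (hI : ∀ i ∈ I, ((0 : Γ) ∈ V i ∧ B i ⊆ A) ∧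
      FastStep Λ θ M (ρ₀ * δ ^ i) γ (B i) (U i) (v i) ∧ γ ≤ ρ₀ * δ ^ i / 32 ∧
      ‖(‖v i‖)⁻¹ • v i - u‖ ≤ 1 / 16)
    (l : List Γ) (hl : Sel A B U V I l) : Ch A l := by
  have hδ1 : δ ≤ 1 := by nlinarith
  have hρ4 : ρ₀ ≤ 1 / 4 := by nlinarith
  have hBR : ∀ i ∈ I, B i ⊆ bl Λ θ (M * (ρ₀ * δ ^ i)) := by
    intro i hi
    obtain ⟨r, h1, h2, h3, -⟩ := (hI i hi).2.1
    exact h3.trans (bl_mono Λ θ h2)
  have hlam : ∀ i ∈ I, 3 / 4 * (ρ₀ * δ ^ i) ≤ ‖v i‖ ∧ ‖v i‖ ≤ M * (ρ₀ * δ ^ i) := by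
    intro i hi
    obtain ⟨r, h1, h2, -, -, -, h3, h4⟩ := (hI i hi).2.1
    have h5 := (hI i hi).2.2.1
    exact ⟨by linarith, by linarith⟩
  have hvu : ∀ i ∈ I, ‖v i - ‖v i‖ • u‖ ≤ ‖v i‖ / 16 := by
    intro i hi
    obtain ⟨h1, -⟩ := hlam i hi
    have h2 := (pow_small δ hδ hδ1 ρ₀ hρ i).1
    have h3 : 0 < ‖v i‖ := by linarith
    have h4 : v i - ‖v i‖ • u = ‖v i‖ • ((‖v i‖)⁻¹ • v i - u) := by
      rw [smul_sub, smul_smul, mul_inv_cancel₀ h3.ne', one_smul]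
    rw [h4, norm_smul, Real.norm_eq_abs, abs_of_pos h3]
    have h5 := (hI i hi).2.2.2
    have := mul_le_mul_of_nonneg_left h5 h3.le
    linarith
  -- positive sums
  have hpos : ∀ (I₂ : List ℕ) (l₂ : List Γ), I₂.Pairwise (· < ·) → (∀ i ∈ I₂, i ∈ I) →
      Sel A B U V I₂ l₂ → ∀ w ∈ ps l₂, ∃ j ∈ I₂, ‖θ w - ‖v j‖ • u‖ ≤ ‖v j‖ / 4 := by
    intro I₂
    induction I₂ with
    | nil =>
      intro l₂ _ _ h w hw
      rcases l₂ with _ | ⟨b, l₂⟩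
      · simp [ps] at hw
      · exact absurd h (by simp [Sel])
    | cons i I₂ ih =>
      intro l₂ hs2 hsub h w hw
      rcases l₂ with _ | ⟨b, l₂⟩
      · exact absurd h (by simp [Sel])
      obtain ⟨hb, -, hl₂⟩ := h
      rw [List.pairwise_cons] at hs2
      have hiI : i ∈ I := hsub i List.mem_cons_self
      obtain ⟨r, h1, h2, h3, h4, h5, h6, h7⟩ := (hI i hiI).2.1
      have hγi := (hI i hiI).2.2.1
      obtain ⟨hl1, hl2⟩ := hlam i hiI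
      have hvi := hvu i hiI
      have hp1 := (pow_small δ hδ hδ1 ρ₀ hρ i).1
      have hp2 := (pow_small δ hδ hδ1 ρ₀ hρ i).2
      rw [mem_ps_cons] at hw
      rcases hw with hw | hw | ⟨w', hw', hw⟩
      · obtain ⟨j, hj, hj2⟩ := ih l₂ hs2.2 (fun j hj => hsub j (List.mem_cons_of_mem _ hj)) hl₂ w
          hw
        exact ⟨j, List.mem_cons_of_mem _ hj, hj2⟩
      · refine ⟨i, List.mem_cons_self, ?_⟩
        rw [hw]
        have h8 : θ b - ‖v i‖ • u = (θ b - v i) + (v i - ‖v i‖ • u) := by abel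
        rw [h8]
        have h9 := norm_add_le (θ b - v i) (v i - ‖v i‖ • u)
        have h10 := h5 b hb
        linarith
      · refine ⟨i, List.mem_cons_self, ?_⟩
        have hsmall := sum_small M ρ₀ δ hM hρ hδ hδM i I₂ hs2.2 hs2.1
        have hw2 := sel_mem hloc A B U V (fun i => M * (ρ₀ * δ ^ i)) (fun i => by positivity)
          I₂ l₂ (fun j hj => hBR j (hsub j (List.mem_cons_of_mem _ hj))) (by linarith) hl₂ w' hw'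
        have hw3 : w' ∈ bl Λ θ (ρ₀ * δ ^ i / 16) := bl_mono Λ θ hsmall hw2
        have hbB : b ∈ bl Λ θ (M * (ρ₀ * δ ^ i)) := hBR i hiI hb
        have hMp : M * (ρ₀ * δ ^ i) ≤ 1 / 2 := by
          have : M * (ρ₀ * δ ^ i) ≤ M * ρ₀ := mul_le_mul_of_nonneg_left hp2 (by linarith)
          linarith
        have h8 := (hloc.add_mem (r := ρ₀ * δ ^ i / 16) (r' := M * (ρ₀ * δ ^ i)) (by linarith)
          hw3 hbB).2
        rw [← hw, h8]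
        rw [mem_bl] at hw3
        have h9 : θ w' + θ b - ‖v i‖ • u = θ w' + ((θ b - v i) + (v i - ‖v i‖ • u)) := by abel
        rw [h9]
        have h10 := norm_add_le (θ w') ((θ b - v i) + (v i - ‖v i‖ • u))
        have h11 := norm_add_le (θ b - v i) (v i - ‖v i‖ • u)
        have h12 := h5 b hb
        linarith [hw3.2]
  refine sel_ch A hA B U V I l (fun i hi => (hI i hi).1) hl ?_
  intro I₁ i I₂ b l₂ hI₁ hl₂ hb w hw
  rw [hI₁, List.pairwise_append] at hs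
  obtain ⟨-, hs2, -⟩ := hs
  rw [List.pairwise_cons] at hs2
  have hsub : ∀ j ∈ I₂, j ∈ I := by
    intro j hj
    rw [hI₁]
    exact List.mem_append_right _ (List.mem_cons_of_mem _ hj)
  have hiI : i ∈ I := by
    rw [hI₁]
    exact List.mem_append_right _ List.mem_cons_self
  obtain ⟨j, hj, hjw⟩ := hpos I₂ l₂ hs2.2 hsub hl₂ w hw
  have hij : i < j := hs2.1 j hj
  have hsmall := sum_small M ρ₀ δ hM hρ hδ hδM i I₂ hs2.2 hs2.1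
  obtain ⟨hp1, hp2⟩ := pow_small δ hδ hδ1 ρ₀ hρ i
  have hMp : M * (ρ₀ * δ ^ i) ≤ 1 / 2 := by
    have : M * (ρ₀ * δ ^ i) ≤ M * ρ₀ := mul_le_mul_of_nonneg_left hp2 (by linarith)
    linarith
  have hw2 := sel_mem hloc A B U V (fun i => M * (ρ₀ * δ ^ i)) (fun i => by positivity)
    I₂ l₂ (fun j hj => hBR j (hsub j hj)) (by linarith) hl₂ w (ps_sub_sg l₂ hw)
  have hw3 : w ∈ bl Λ θ (ρ₀ * δ ^ i / 16) := bl_mono Λ θ hsmall hw2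
  have hbB : b ∈ bl Λ θ (M * (ρ₀ * δ ^ i)) := hBR i hiI hb
  obtain ⟨h8, h9⟩ := hloc.sub_mem (r := M * (ρ₀ * δ ^ i)) (r' := ρ₀ * δ ^ i / 16)
    (by linarith) hbB hw3
  obtain ⟨r, h1, h2, h3, h4, h5, h6, h7⟩ := (hI i hiI).2.1
  rw [h4, mem_bl]
  rw [mem_bl] at h8
  refine ⟨h8.1, ?_⟩
  rw [h9]
  obtain ⟨hl1, hl2⟩ := hlam i hiI
  obtain ⟨hl3, hl4⟩ := hlam j (hsub j hj)
  have hvi := hvu i hiI
  have hγj := (hI j (hsub j hj)).2.2.1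
  -- `‖v j‖ ≤ ‖v i‖`
  have hji : ‖v j‖ ≤ ‖v i‖ := by
    have e1 : δ ^ j ≤ δ ^ (i + 1) := pow_le_pow_of_le_one hδ.le hδ1 hij
    have e2 : M * (ρ₀ * δ ^ j) ≤ M * (ρ₀ * δ ^ (i + 1)) := by
      apply mul_le_mul_of_nonneg_left _ (by linarith)
      exact mul_le_mul_of_nonneg_left e1 hρ.le
    have e3 : M * (ρ₀ * δ ^ (i + 1)) = ρ₀ * δ ^ i * (δ * (32 * M)) / 32 := by
      rw [pow_succ]; ring
    have e4 : ρ₀ * δ ^ i * (δ * (32 * M)) ≤ ρ₀ * δ ^ i * 1 :=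
      mul_le_mul_of_nonneg_left hδM hp1.le
    linarith
  have hvi0 : 0 < ‖v i‖ := by linarith
  have hvj0 : 0 ≤ ‖v j‖ := norm_nonneg _
  have e5 : ‖v i - ‖v j‖ • u‖ ≤ ‖v i‖ - ‖v j‖ + ‖v j‖ / 16 := by
    have e6 : v i - ‖v j‖ • u = (1 - ‖v j‖ / ‖v i‖) • v i +
        ‖v j‖ • ((‖v i‖)⁻¹ • v i - u) := by
      rw [smul_sub, smul_smul, sub_smul, one_smul, div_eq_mul_inv]
      abel
    rw [e6]
    refine (norm_add_le _ _).trans (add_le_add ?_ ?_)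
    · rw [norm_smul, Real.norm_eq_abs, abs_of_nonneg]
      · have e7 : (1 - ‖v j‖ / ‖v i‖) * ‖v i‖ = ‖v i‖ - ‖v j‖ := by
          rw [sub_mul, one_mul, div_mul_cancel₀ _ hvi0.ne']
        rw [e7]
      · have : ‖v j‖ / ‖v i‖ ≤ 1 := (div_le_one hvi0).2 hji
        linarith
    · rw [norm_smul, norm_norm]
      have := mul_le_mul_of_nonneg_left (hI i hiI).2.2.2 hvj0
      linarith
  have e8 : θ b - θ w = (θ b - v i) + ((v i - ‖v j‖ • u) - (θ w - ‖v j‖ • u)) := by abel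
  rw [e8]
  have e9 := norm_add_le (θ b - v i) ((v i - ‖v j‖ • u) - (θ w - ‖v j‖ • u))
  have e10 := norm_sub_le (v i - ‖v j‖ • u) (θ w - ‖v j‖ • u)
  have e11 := h5 b hb
  linarith

end

end Pool.Agent.K4H78.GA
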