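import Pool.Agent.K4H78.GA.Defs
import Pool.Agent.TH391.CG.Scale

/-!
# Balls of local homomorphisms to `ℝ ^ D`
-/

set_option autoImplicit false

open Finset
open scoped Pointwise

namespace Pool.Agent.K4H78.GA

open Pool.Agent.TH346.CG

theorem mem_bl {Γ : Type} {D : ℕ} (Λ : Finset Γ) (θ : Γ → Fin D → ℝ) (r : ℝ) (x : Γ) :
    x ∈ bl Λ θ r ↔ x ∈ Λ ∧ ‖θ x‖ ≤ r := by
  unfold bl
  rw [mem_filter]

theorem bl_mono {Γ : Type} {D : ℕ} (Λ : Finset Γ) (θ : Γ → Fin D → ℝ) {r r' : ℝ} (h : r ≤ r') :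
    bl Λ θ r ⊆ bl Λ θ r' := by
  intro x hx
  rw [mem_bl] at hx ⊢
  exact ⟨hx.1, hx.2.trans h⟩

section loc

variable {Γ : Type} [AddCommGroup Γ] [DecidableEq Γ] {D : ℕ} {Λ : Finset Γ} {θ : Γ → Fin D → ℝ}

theorem IsLoc.bl_neg_mem (h : IsLoc Λ θ) {r : ℝ} {x : Γ} (hx : x ∈ bl Λ θ r) :
    -x ∈ bl Λ θ r := by
  rw [mem_bl] at hx ⊢
  obtain ⟨h1, h2⟩ := h.neg x hx.1
  refine ⟨h1, ?_⟩
  rw [h2, norm_neg]
  exact hx.2

theorem IsLoc.bl_neg (h : IsLoc Λ θ) (r : ℝ) : -(bl Λ θ r) = bl Λ θ r := by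
  ext x
  rw [Finset.mem_neg']
  constructor
  · intro hx
    have := h.bl_neg_mem hx
    rwa [neg_neg] at this
  · exact h.bl_neg_mem

theorem IsLoc.zero_mem (h : IsLoc Λ θ) {r : ℝ} (hr : 0 ≤ r) : (0 : Γ) ∈ bl Λ θ r := by
  rw [mem_bl]
  refine ⟨h.zero.1, ?_⟩
  rw [h.zero.2, norm_zero]
  exact hr

theorem IsLoc.add_mem (h : IsLoc Λ θ) {r r' : ℝ} (hr : r + r' ≤ 1) {x y : Γ}
    (hx : x ∈ bl Λ θ r) (hy : y ∈ bl Λ θ r') :
    x + y ∈ bl Λ θ (r + r') ∧ θ (x + y) = θ x + θ y := by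
  rw [mem_bl] at hx hy
  obtain ⟨h1, h2⟩ := h.add x hx.1 y hy.1 (le_trans (add_le_add hx.2 hy.2) hr)
  refine ⟨?_, h2⟩
  rw [mem_bl]
  refine ⟨h1, ?_⟩
  rw [h2]
  exact (norm_add_le _ _).trans (add_le_add hx.2 hy.2)

theorem IsLoc.sub_mem (h : IsLoc Λ θ) {r r' : ℝ} (hr : r + r' ≤ 1) {x y : Γ}
    (hx : x ∈ bl Λ θ r) (hy : y ∈ bl Λ θ r') :
    x - y ∈ bl Λ θ (r + r') ∧ θ (x - y) = θ x - θ y := by
  obtain ⟨h1, h2⟩ := h.add_mem hr hx (h.bl_neg_mem hy)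
  rw [mem_bl] at hy
  rw [← sub_eq_add_neg] at h1 h2
  refine ⟨h1, ?_⟩
  rw [h2, (h.neg y hy.1).2, sub_eq_add_neg]

theorem IsLoc.ks_mem (h : IsLoc Λ θ) {r : ℝ} (hr : 0 ≤ r) {X : Finset Γ}
    (hX : X ⊆ bl Λ θ r) : ∀ m : ℕ, (m : ℝ) * r ≤ 1 → ks m X ⊆ bl Λ θ (m * r) := by
  intro m
  induction m with
  | zero =>
    intro _ x hx
    have : x = 0 := by simpa [ks] using hx
    rw [this]
    exact h.zero_mem (by simp)
  | succ m ih =>
    intro hm x hx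
    have h1 : ((m + 1 : ℕ) : ℝ) * r = (m : ℝ) * r + r := by push_cast; ring
    rw [h1] at hm ⊢
    obtain ⟨y, hy, z, hz, rfl⟩ := Finset.mem_add.1 (show x ∈ ks m X + X from hx)
    exact (h.add_mem hm (ih (by linarith) hy) (hX hz)).1

theorem IsLoc.signed_mem (h : IsLoc Λ θ) {r : ℝ} (hr : 0 ≤ r) {M : ℕ} (a : Fin M → Γ)
    (ha : ∀ i, a i ∈ bl Λ θ r) (ε : Fin M → SignType) (s : Finset (Fin M)) :
    (s.card : ℝ) * r ≤ 1 → (∑ i ∈ s, ((ε i : SignType) : ℤ) • a i) ∈ bl Λ θ (s.card * r) := by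
  classical
  induction s using Finset.induction_on with
  | empty =>
    intro _
    rw [Finset.sum_empty]
    exact h.zero_mem (by simp)
  | insert i s his ih =>
    intro hm
    rw [Finset.card_insert_of_notMem his] at hm ⊢
    rw [Finset.sum_insert his]
    have h1 : ((s.card + 1 : ℕ) : ℝ) * r = r + (s.card : ℝ) * r := by push_cast; ring
    rw [h1] at hm ⊢
    refine (h.add_mem hm ?_ (ih (by linarith))).1
    rcases SignType.trichotomy (ε i) with h4 | h4 | h4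
    · rw [h4]
      have : ((-1 : SignType) : ℤ) • a i = -a i := by simp
      rw [this]
      exact h.bl_neg_mem (ha i)
    · rw [h4]
      have : ((0 : SignType) : ℤ) • a i = 0 := by simp
      rw [this]
      exact h.zero_mem hr
    · rw [h4]
      have : ((1 : SignType) : ℤ) • a i = a i := by simp
      rw [this]
      exact ha i

end loc

/-- finitely many cells of diameter at most `s` in the unit ball -/
theorem cells (D : ℕ) (s : ℝ) (hs : 0 < s) : ∃ κ : ℕ, ∃ col : (Fin D → ℝ) → Fin κ,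
    ∀ u v, ‖u‖ ≤ 1 → ‖v‖ ≤ 1 → col u = col v → ‖u - v‖ ≤ s := by
  classical
  obtain ⟨m, hm⟩ : ∃ m : ℕ, 1 / s ≤ m := ⟨_, Nat.le_ceil _⟩
  obtain ⟨g, hg⟩ : ∃ g : ℝ → Fin (2 * m + 3), ∀ t, ((g t : ℕ)) =
      min (⌊t / s⌋ + m + 1).toNat (2 * m + 2) :=
    ⟨fun t => ⟨min (⌊t / s⌋ + m + 1).toNat (2 * m + 2), by omega⟩, fun t => rfl⟩
  have hfl : ∀ t : ℝ, |t| ≤ 1 → -(m : ℤ) - 1 ≤ ⌊t / s⌋ ∧ ⌊t / s⌋ ≤ m := by
    intro t ht
    rw [abs_le] at ht
    have h1 : -(m : ℝ) ≤ t / s := by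
      have : -(1 / s) ≤ t / s := by
        rw [← neg_div, div_le_div_iff_of_pos_right hs]
        exact ht.1
      linarith
    have h2 : t / s ≤ m := by
      have : t / s ≤ 1 / s := by
        rw [div_le_div_iff_of_pos_right hs]
        exact ht.2
      linarith
    constructor
    · have h3 : (-(m : ℤ) : ℤ) ≤ ⌊t / s⌋ := by
        rw [Int.le_floor]
        push_cast
        exact h1
      omega
    · have h3 : (⌊t / s⌋ : ℝ) ≤ m := (Int.floor_le _).trans h2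
      exact_mod_cast h3
  have hinj : ∀ t t' : ℝ, |t| ≤ 1 → |t'| ≤ 1 → g t = g t' → |t - t'| ≤ s := by
    intro t t' ht ht' h
    have h1 := hfl t ht
    have h2 := hfl t' ht'
    have h3 : (g t : ℕ) = (g t' : ℕ) := by rw [h]
    rw [hg, hg] at h3
    have h4 : ⌊t / s⌋ = ⌊t' / s⌋ := by omega
    have h5 := Int.abs_sub_lt_one_of_floor_eq_floor h4
    rw [← sub_div, abs_div, abs_of_pos hs, div_lt_one hs] at h5
    exact h5.le
  let e := Fintype.equivFin (Fin D → Fin (2 * m + 3))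
  refine ⟨_, fun u => e (fun i => g (u i)), ?_⟩
  intro u v hu hv huv
  have h1 := e.injective huv
  rw [pi_norm_le_iff_of_nonneg hs.le]
  intro i
  have h2 : g (u i) = g (v i) := congrFun h1 i
  rw [Pi.sub_apply, Real.norm_eq_abs]
  refine hinj _ _ ?_ ?_ h2
  · have := norm_le_pi_norm u i
    rw [Real.norm_eq_abs] at this
    exact this.trans hu
  · have := norm_le_pi_norm v i
    rw [Real.norm_eq_abs] at this
    exact this.trans hv

/-- a cell with many elements -/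
theorem big_cell (D : ℕ) (s : ℝ) (hs : 0 < s) : ∃ N : ℕ, 1 ≤ N ∧ ∀ (Γ : Type) [DecidableEq Γ]
    (θ : Γ → Fin D → ℝ) (X : Finset Γ), (∀ x ∈ X, ‖θ x‖ ≤ 1) → X.Nonempty →
    ∃ B ⊆ X, B.Nonempty ∧ X.card ≤ N * B.card ∧ ∀ x ∈ B, ∀ y ∈ B, ‖θ x - θ y‖ ≤ s := by
  classical
  obtain ⟨κ, col, hcol⟩ := cells D s hs
  refine ⟨κ + 1, by omega, ?_⟩
  intro Γ _ θ X hX hne
  by_contra hcon
  push Not at hcon
  have h1 : ∀ c : Fin κ, κ * (X.filter fun x => col (θ x) = c).card < X.card := by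
    intro c
    by_cases hce : (X.filter fun x => col (θ x) = c).Nonempty
    · by_contra h2
      rw [not_lt] at h2
      obtain ⟨x, hx, y, hy, hxy⟩ := hcon (X.filter fun x => col (θ x) = c) (filter_subset _ _) hce
        (h2.trans (Nat.mul_le_mul_right _ (by omega)))
      rw [mem_filter] at hx hy
      exact absurd (hcol _ _ (hX x hx.1) (hX y hy.1) (hx.2.trans hy.2.symm)) (not_le.2 hxy)
    · rw [not_nonempty_iff_eq_empty] at hce
      rw [hce, card_empty, mul_zero]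
      exact hne.card_pos
  have h2 : X.card = ∑ c : Fin κ, (X.filter fun x => col (θ x) = c).card :=
    Finset.card_eq_sum_card_fiberwise (fun x _ => by simp)
  have hκ : 0 < κ := by
    obtain ⟨x, _⟩ := hne
    exact Fin.pos (col (θ x))
  have h3 : ∑ c : Fin κ, κ * (X.filter fun x => col (θ x) = c).card < ∑ _c : Fin κ, X.card :=
    Finset.sum_lt_sum_of_nonempty ⟨⟨0, hκ⟩, mem_univ _⟩ (fun c _ => h1 c)
  rw [← mul_sum, ← h2, sum_const, smul_eq_mul, card_univ, Fintype.card_fin] at h3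
  exact lt_irrefl _ h3

/-- small balls are large -/
theorem ball_card (D : ℕ) (δ : ℝ) (hδ : 0 < δ) : ∃ N : ℕ, 1 ≤ N ∧ ∀ (Γ : Type) [AddCommGroup Γ]
    [DecidableEq Γ] (Λ : Finset Γ) (θ : Γ → Fin D → ℝ), IsLoc Λ θ →
    (bl Λ θ (1 / 2)).card ≤ N * (bl Λ θ δ).card := by
  classical
  obtain ⟨N, hN, h⟩ := big_cell D δ hδ
  refine ⟨N, hN, ?_⟩
  intro Γ _ _ Λ θ hloc
  obtain ⟨B, hB, hne, hc, hd⟩ := h Γ θ (bl Λ θ (1 / 2))
    (fun x hx => by
      rw [mem_bl] at hx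
      linarith [hx.2])
    ⟨0, hloc.zero_mem (by norm_num)⟩
  refine hc.trans (Nat.mul_le_mul_left _ ?_)
  obtain ⟨y, hy⟩ := hne
  refine Finset.card_le_card_of_injOn (fun x => x - y) ?_ ?_
  · intro x hx
    rw [Finset.mem_coe] at hx ⊢
    obtain ⟨h1, h2⟩ := hloc.sub_mem (by norm_num) (hB hx) (hB hy)
    rw [mem_bl] at h1 ⊢
    refine ⟨h1.1, ?_⟩
    rw [h2]
    exact hd x hx y hy
  · intro x _ z _ hxz
    exact sub_left_injective hxz

end Pool.Agent.K4H78.GA
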