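import Pool.Agent.K4H78.GA.Tree
import Pool.Agent.K4H78.GA.Loc

/-!
# Local forms of the hypotheses; a good scale
-/

set_option autoImplicit false

open Finset
open scoped Pointwise

namespace Pool.Agent.K4H78.GA

open Pool.Agent.TH346.CG Pool.Agent.TH391.CG

/-- `M` elements of `A ∩ Λ` always have a signed sub-sum with at least two terms in `A ∪ {0}`. -/
def PL {Γ : Type} [AddCommGroup Γ] [DecidableEq Γ] (M : ℕ) (A Λ : Finset Γ) : Prop :=
  ∀ a : Fin M → Γ, (∀ i, a i ∈ A ∧ a i ∈ Λ) →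
    ∃ ε : Fin M → SignType, 2 ≤ (univ.filter (fun i => ε i ≠ 0)).card ∧
      (∑ i, ((ε i : SignType) : ℤ) • a i) ∈ A ∪ {0}

/-- There is no good list for the tree `t` in `Λ`. -/
def NoCh {Γ : Type} [AddCommGroup Γ] [DecidableEq Γ] (t : RT) (A Λ : Finset Γ) : Prop :=
  ∀ l : List Γ, l.length = t.E → (∀ x ∈ l, x ∈ Λ) → ¬ Ch A l

/-- polynomial packing bound for the translates of `A`, in the `J`-fold sumset of `Λ` -/
def PackL {Γ : Type} [AddCommGroup Γ] [DecidableEq Γ] (C d J : ℕ) (A Λ : Finset Γ) : Prop :=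
  ∀ (R U : Finset Γ) (q : ℕ), 1 ≤ q → R.Nonempty → R ⊆ ks J Λ → U ⊆ ks J Λ →
    (∀ u ∈ U, ∀ v ∈ U, u ≠ v →
      R.card ≤ q * (R.filter fun z => ¬ (z - u ∈ A ↔ z - v ∈ A)).card) →
    U.card ≤ C * q ^ d

theorem ks_sub_ks {Γ : Type} [AddCommGroup Γ] [DecidableEq Γ] {X Y : Finset Γ} (h : X ⊆ Y) :
    ∀ k, ks k X ⊆ ks k Y := by
  intro k
  induction k with
  | zero => exact Finset.Subset.refl _
  | succ k ih => exact Finset.add_subset_add ih h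

theorem PackL.mono {Γ : Type} [AddCommGroup Γ] [DecidableEq Γ] {C d J J' : ℕ}
    {A Λ Λ' : Finset Γ} (h : PackL C d J A Λ) (hJ : J' ≤ J) (hΛ : Λ' ⊆ Λ)
    (h0 : (0 : Γ) ∈ Λ) : PackL C d J' A Λ' := by
  have h1 : ks J' Λ' ⊆ ks J Λ := (ks_sub_ks hΛ J').trans (ks_mono h0 hJ)
  intro R U q hq hR hR' hU' hU
  exact h R U q hq hR (hR'.trans h1) (hU'.trans h1) hU

theorem PL.mono {Γ : Type} [AddCommGroup Γ] [DecidableEq Γ] {M : ℕ} {A Λ Λ' : Finset Γ}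
    (h : PL M A Λ) (hΛ : Λ' ⊆ Λ) : PL M A Λ' :=
  fun a ha => h a fun i => ⟨(ha i).1, hΛ (ha i).2⟩

theorem NoCh.mono {Γ : Type} [AddCommGroup Γ] [DecidableEq Γ] {t : RT} {A Λ Λ' : Finset Γ}
    (h : NoCh t A Λ) (hΛ : Λ' ⊆ Λ) : NoCh t A Λ' :=
  fun l hl hx => h l hl fun x hxl => hΛ (hx x hxl)

section

variable {Γ : Type} [AddCommGroup Γ] [DecidableEq Γ]

theorem step2 {A S : Finset Γ} (hne : S.Nonempty) (hS : -S = S) {K : ℕ} (hK1 : 1 ≤ K)
    (hK : (S + S + S).card ≤ K * S.card) {C d : ℕ} {J : ℕ} {Λ : Finset Γ}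
    (hP : PackL C d J A Λ) (hSΛ : insert 0 S ⊆ Λ) {q : ℕ} (hq : 1 ≤ q) (j : ℕ) (hj : j + 1 ≤ J) : ∃ U : Finset Γ, U.card ≤ C * ((2 * K) ^ (j + 1) * q) ^ d ∧
      ∀ s ∈ S, ∃ u ∈ U, s - u ∈ lev A S q j := by
  classical
  obtain ⟨E, hE⟩ : ∃ E : Finset Γ, E = lev A S q j := ⟨_, rfl⟩
  have h0E : (0 : Γ) ∈ E := by rw [hE]; exact zero_mem_lev A S q j
  obtain ⟨U, hU, hmax⟩ := exists_max_image
    (S.powerset.filter fun U => ∀ u ∈ U, ∀ v ∈ U, u ≠ v → ¬ (u - v ∈ E ∧ v - u ∈ E)) card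
    ⟨∅, by simp⟩
  rw [mem_filter, mem_powerset] at hU
  refine ⟨U, ?_, ?_⟩
  · have h0Λ : (0 : Γ) ∈ Λ := hSΛ (mem_insert_self _ _)
    refine hP (ks (j + 1) (insert 0 S)) U ((2 * K) ^ (j + 1) * q) ?_
      ⟨0, zero_mem_ks (mem_insert_self 0 S) _⟩ ((ks_sub_ks hSΛ _).trans (ks_mono h0Λ hj)) ?_ ?_
    · exact Nat.mul_pos (pow_pos (by omega) _) hq
    · intro u hu
      have h1 : u ∈ Λ := hSΛ (mem_insert_of_mem (hU.1 hu))
      have h2 : u ∈ ks 1 Λ := by rw [ks_one]; exact h1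
      exact ks_mono h0Λ (by omega) h2
    · intro u hu v hv huv
      by_cases h1 : v - u ∈ E
      · have h2 : u - v ∉ E := fun h3 => hU.2 u hu v hv huv ⟨h3, h1⟩
        rw [hE] at h2
        have h3 := sep hne hS hK1 hK (hU.1 hv) (hU.1 hu) h2
        have h4 : ((ks (j + 1) (insert 0 S)).filter fun z => ¬ (z - v ∈ A ↔ z - u ∈ A)) =
            (ks (j + 1) (insert 0 S)).filter fun z => ¬ (z - u ∈ A ↔ z - v ∈ A) :=
          filter_congr fun z _ => not_congr ⟨fun h => h.symm, fun h => h.symm⟩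
        rw [h4] at h3
        exact h3
      · rw [hE] at h1
        exact sep hne hS hK1 hK (hU.1 hu) (hU.1 hv) h1
  · intro s hs
    by_contra hcon
    have hcon' : ∀ u ∈ U, s - u ∉ E := by
      intro u hu h
      rw [hE] at h
      exact hcon ⟨u, hu, h⟩
    have hsU : s ∉ U := by
      intro h
      apply hcon' s h
      rw [sub_self]
      exact h0E
    have h1 : insert s U ∈ S.powerset.filter fun U =>
        ∀ u ∈ U, ∀ v ∈ U, u ≠ v → ¬ (u - v ∈ E ∧ v - u ∈ E) := by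
      rw [mem_filter, mem_powerset]
      refine ⟨insert_subset hs hU.1, ?_⟩
      intro u hu v hv huv
      rcases mem_insert.1 hu with hu' | hu'
      · rcases mem_insert.1 hv with hv' | hv'
        · exact absurd (hu'.trans hv'.symm) huv
        · intro h
          rw [hu'] at h
          exact hcon' v hv' h.1
      · rcases mem_insert.1 hv with hv' | hv'
        · intro h
          rw [hv'] at h
          exact hcon' u hu' h.2
        · exact hU.2 u hu' v hv' huv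
    have h2 := hmax _ h1
    rw [card_insert_of_notMem hsU] at h2
    omega

end

theorem good_scale (C d K : ℕ) : ∃ K₁ : ℕ, ∀ q₀ j₀ : ℕ, 1 ≤ q₀ → ∃ L J : ℕ,
    ∀ (Γ : Type) [AddCommGroup Γ] [DecidableEq Γ] (A S Λ : Finset Γ), S.Nonempty → -S = S →
      (S + S + S).card ≤ K * S.card → insert 0 S ⊆ Λ → PackL C d J A Λ →
      ∃ q j : ℕ, q₀ ≤ q ∧ j₀ ≤ j ∧ ∃ E : Finset Γ,
        (∀ a, a ∈ E ↔ a ∈ ks 2 (insert 0 S) ∧ q * nrm A (ks j (insert 0 S)) a ≤ S.card) ∧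
        (ks 4 E).card ≤ K₁ * E.card ∧
        ∃ Y : Finset Γ, Y.card ≤ L ∧ ∀ s ∈ S, ∃ y ∈ Y, s - y ∈ E := by
  obtain ⟨B, hB⟩ : ∃ B : ℕ, B = (8 * (2 * K) ^ 24) ^ d := ⟨_, rfl⟩
  refine ⟨2 * B * (2 * K) ^ 9, fun q₀ j₀ hq₀ => ?_⟩
  obtain ⟨M, hM⟩ : ∃ M : ℕ, M = C * ((2 * K) ^ (j₀ + 1) * q₀) ^ d := ⟨_, rfl⟩
  obtain ⟨n, hn⟩ : ∃ n : ℕ, n = (2 * K) ^ 2 * M := ⟨_, rfl⟩
  refine ⟨M * B ^ n, j₀ + 24 * n + 1, fun Γ _ _ A S Λ hne hS hK hSΛ hP => ?_⟩
  have hSc : 1 ≤ S.card := hne.card_pos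
  have hK1 : 1 ≤ K := by
    by_contra h
    have h1 : K = 0 := by omega
    rw [h1, zero_mul, Nat.le_zero, card_eq_zero] at hK
    have h2 : (S + S + S).Nonempty := (hne.add hne).add hne
    rw [hK] at h2
    exact Finset.not_nonempty_empty h2
  have hB1 : 1 ≤ B := by
    rw [hB]
    exact Nat.one_le_pow _ _ (Nat.mul_pos (by norm_num) (pow_pos (by omega) _))
  have hMi : ∀ i : ℕ, C * ((2 * K) ^ (j₀ + 24 * i + 1) * (q₀ * 8 ^ i)) ^ d = M * B ^ i := by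
    intro i
    have h1 : (2 * K) ^ (j₀ + 24 * i + 1) * (q₀ * 8 ^ i) =
        ((2 * K) ^ (j₀ + 1) * q₀) * (8 * (2 * K) ^ 24) ^ i := by
      generalize 2 * K = x
      ring
    rw [h1, hM, hB]
    generalize (2 * K) ^ (j₀ + 1) * q₀ = y
    generalize 8 * (2 * K) ^ 24 = z
    rw [mul_pow, ← pow_mul, ← pow_mul, mul_comm i d, mul_assoc]
  have hex : ∃ i, 1 ≤ i ∧ i ≤ n ∧ (ks 4 (lev A S (q₀ * 8 ^ i) (j₀ + 24 * i))).card ≤
      2 * B * (2 * K) ^ 9 * (lev A S (q₀ * 8 ^ i) (j₀ + 24 * i)).card := by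
    by_contra hno
    have hno' : ∀ i, 1 ≤ i → i ≤ n →
        2 * B * (2 * K) ^ 9 * (lev A S (q₀ * 8 ^ i) (j₀ + 24 * i)).card <
          (ks 4 (lev A S (q₀ * 8 ^ i) (j₀ + 24 * i))).card := by
      intro i h1 h2
      by_contra h3
      exact hno ⟨i, h1, h2, not_lt.1 h3⟩
    have hdec : ∀ i, i ≤ n → (2 * B) ^ i * (lev A S (q₀ * 8 ^ i) (j₀ + 24 * i)).card ≤
        (lev A S (q₀ * 8 ^ 0) (j₀ + 24 * 0)).card := by
      intro i
      induction i with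
      | zero => intro _; rw [pow_zero, one_mul]
      | succ i ih =>
        intro hi
        have h1 := hno' (i + 1) (by omega) hi
        have h2 := step1 A hne hS hK1 hK (q₀ * 8 ^ i) (j₀ + 24 * i)
        have e1 : 8 * (q₀ * 8 ^ i) = q₀ * 8 ^ (i + 1) := by ring
        have e2 : j₀ + 24 * i + 24 = j₀ + 24 * (i + 1) := by ring
        rw [e1, e2] at h2
        have h3 := h1.trans_le h2
        have h4 : 2 * B * (lev A S (q₀ * 8 ^ (i + 1)) (j₀ + 24 * (i + 1))).card ≤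
            (lev A S (q₀ * 8 ^ i) (j₀ + 24 * i)).card := by
          have h5 : (2 * K) ^ 9 * (2 * B *
              (lev A S (q₀ * 8 ^ (i + 1)) (j₀ + 24 * (i + 1))).card) ≤
              (2 * K) ^ 9 * (lev A S (q₀ * 8 ^ i) (j₀ + 24 * i)).card := by
            refine le_trans (le_of_eq ?_) h3.le
            ring
          exact Nat.le_of_mul_le_mul_left h5 (pow_pos (by omega) _)
        calc (2 * B) ^ (i + 1) * (lev A S (q₀ * 8 ^ (i + 1)) (j₀ + 24 * (i + 1))).card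
            = (2 * B) ^ i * (2 * B *
                (lev A S (q₀ * 8 ^ (i + 1)) (j₀ + 24 * (i + 1))).card) := by
              rw [pow_succ, mul_assoc]
          _ ≤ (2 * B) ^ i * (lev A S (q₀ * 8 ^ i) (j₀ + 24 * i)).card :=
              Nat.mul_le_mul_left _ h4
          _ ≤ _ := ih (by omega)
    have h1 := hdec n le_rfl
    obtain ⟨U, hU1, hU2⟩ := step2 hne hS hK1 hK hP hSΛ (q := q₀ * 8 ^ n)
      (Nat.mul_pos hq₀ (pow_pos (by norm_num) _)) (j₀ + 24 * n) le_rfl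
    rw [hMi n] at hU1
    have h2 := card_le_mul hU2
    have h3 : (lev A S (q₀ * 8 ^ 0) (j₀ + 24 * 0)).card ≤ (2 * K) ^ 2 * S.card :=
      (card_le_card (fun a ha => (mem_lev.1 ha).1)).trans (card_ks_T hne hS hK1 hK 2)
    obtain ⟨c, hc⟩ : ∃ c : ℕ, c = (lev A S (q₀ * 8 ^ n) (j₀ + 24 * n)).card := ⟨_, rfl⟩
    rw [← hc] at h1 h2
    have hc0 : 0 < c := by
      rw [hc]
      exact card_pos.2 ⟨0, zero_mem_lev A S _ _⟩
    have h4 : 2 ^ n * (B ^ n * c) ≤ n * (B ^ n * c) := by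
      calc 2 ^ n * (B ^ n * c) = (2 * B) ^ n * c := by rw [mul_pow, mul_assoc]
        _ ≤ (2 * K) ^ 2 * S.card := h1.trans h3
        _ ≤ (2 * K) ^ 2 * (M * B ^ n * c) :=
          Nat.mul_le_mul_left _ (h2.trans (Nat.mul_le_mul_right _ hU1))
        _ = n * (B ^ n * c) := by
          rw [hn]
          ring
    have h5 : 2 ^ n ≤ n :=
      Nat.le_of_mul_le_mul_right h4 (Nat.mul_pos (pow_pos (by omega) _) hc0)
    exact absurd h5 (not_le.2 Nat.lt_two_pow_self)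
  obtain ⟨i, hi1, hin, hi⟩ := hex
  obtain ⟨U, hU1, hU2⟩ := step2 hne hS hK1 hK hP hSΛ (q := q₀ * 8 ^ i)
    (Nat.mul_pos hq₀ (pow_pos (by norm_num) _)) (j₀ + 24 * i) (by omega)
  rw [hMi i] at hU1
  refine ⟨q₀ * 8 ^ i, j₀ + 24 * i, Nat.le_mul_of_pos_right _ (pow_pos (by norm_num) _),
    Nat.le_add_right _ _, lev A S (q₀ * 8 ^ i) (j₀ + 24 * i), fun a => mem_lev, hi, U, ?_, hU2⟩
  exact hU1.trans (Nat.mul_le_mul_left _ (Nat.pow_le_pow_right hB1 hin))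

end Pool.Agent.K4H78.GA
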