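import Pool.Agent.K4H78.GA.Region

/-!
# Induction on the clique number
-/

set_option autoImplicit false

open Finset
open scoped Pointwise

namespace Pool.Agent.K4H78.GA

open Pool.Agent.TH346.CG Pool.Agent.TH346.LG

/-- Sets of small tripling contain large local structures. -/
def Bohr : Prop := ∀ K : ℕ, ∃ D L : ℕ, ∀ (Γ : Type) [AddCommGroup Γ] [Fintype Γ]
    [DecidableEq Γ] (B : Finset Γ), B.Nonempty → -B = B → (B + B + B).card ≤ K * B.card →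
    ∃ (Λ : Finset Γ) (θ : Γ → Fin D → ℝ), IsLoc Λ θ ∧ Λ ⊆ ks 8 B ∧
      B.card ≤ L * (bl Λ θ (1 / 2)).card

theorem ks_ks {Γ : Type} [AddCommGroup Γ] [DecidableEq Γ] (T E : Finset Γ) (s : ℕ)
    (h : E ⊆ ks s T) : ∀ k, ks k E ⊆ ks (s * k) T := by
  intro k
  induction k with
  | zero => exact Finset.Subset.refl _
  | succ k ih =>
    intro x hx
    obtain ⟨y, hy, e, he, rfl⟩ := Finset.mem_add.1 (show x ∈ ks k E + E from hx)
    have h2 := Finset.add_mem_add (ih hy) (h he)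
    rw [ks_add] at h2
    exact h2

/-- the sets of mutually adjacent elements near the near-periods are smaller -/
theorem clique_down {Γ : Type} [AddCommGroup Γ] [DecidableEq Γ] {D : ℕ} (A Λ S E : Finset Γ)
    (θ : Γ → Fin D → ℝ) (hloc : IsLoc Λ θ) (hA : -A = A) (h0 : (0 : Γ) ∉ A) (a : ℕ) (r : ℝ)
    (hr : 0 ≤ r) (har : ((2 * a : ℕ) : ℝ) * r + r ≤ 1) (hSA : S ⊆ A) (hSb : S ⊆ bl Λ θ r)
    (hSne : S.Nonempty) (hSn : -S = S) (k q j : ℕ) (hq : (a + a) * (k + 2) ≤ q) (ha : 1 ≤ a)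
    (hj : 1 + 2 * (a + a) ≤ j)
    (hE : ∀ x, x ∈ E ↔ x ∈ ks 2 (insert 0 S) ∧ q * nrm A (ks j (insert 0 S)) x ≤ S.card)
    (hEn : -E = E)
    (hcl : ∀ Q ⊆ Λ, (∀ x ∈ Q, ∀ y ∈ Q, x ≠ y → y - x ∈ A) → Q.card ≤ k + 1) :
    ∀ Q ⊆ ks a E, (∀ x ∈ Q, ∀ y ∈ Q, x ≠ y → y - x ∈ A) → Q.card ≤ k := by
  intro Q₀ hQ₀ hQ₀c
  by_contra hcon
  obtain ⟨Q, hQQ₀, hQcard⟩ := Finset.exists_subset_card_eq (show k + 1 ≤ Q₀.card by omega)
  have hQ : Q ⊆ ks a E := hQQ₀.trans hQ₀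
  have hQc : ∀ x ∈ Q, ∀ y ∈ Q, x ≠ y → y - x ∈ A := fun x hx y hy =>
    hQ₀c x (hQQ₀ hx) y (hQQ₀ hy)
  obtain ⟨T, hT⟩ : ∃ T, T = insert 0 S := ⟨_, rfl⟩
  rw [← hT] at hE
  have hT0 : (0 : Γ) ∈ T := by rw [hT]; exact Finset.mem_insert_self _ _
  have hTn : -T = T := by rw [hT]; exact insert_neg S hSn
  have hneg : ∀ x : Γ, -x ∈ A ↔ x ∈ A := by
    intro x
    rw [← Finset.mem_neg', hA]
  obtain ⟨q₁, hq₁⟩ : Q.Nonempty := by
    rw [← Finset.card_pos, hQcard]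
    omega
  have hdiff : ∀ x ∈ Q, x - q₁ ∈ ks (a + a) E := by
    intro x hx
    rw [sub_eq_add_neg, ← ks_add]
    apply Finset.add_mem_add (hQ hx)
    rw [← ks_neg E hEn a, Finset.mem_neg', neg_neg]
    exact hQ hq₁
  have hbad : ∀ x ∈ Q, (k + 2) * (S.filter fun s => s - (x - q₁) ∉ A).card ≤ S.card := by
    intro x hx
    have h2 := Pool.Agent.TH511.CG.nrm_ks A T E hT0 hTn 1 (a + a) 2 q S.card (by
      intro e he
      have h3 := (hE e).1 he
      refine ⟨h3.1, ?_⟩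
      exact le_trans (Nat.mul_le_mul_left _ (nrm_mono A (ks_mono T hT0 hj) e)) h3.2) (x - q₁)
      (hdiff x hx)
    have h4 : (S.filter fun s => s - (x - q₁) ∉ A).card ≤ nrm A (ks 1 T) (x - q₁) := by
      unfold nrm
      apply Finset.card_le_card
      intro s hs
      rw [Finset.mem_filter] at hs ⊢
      refine ⟨?_, ?_⟩
      · show s ∈ ({0} : Finset Γ) + T
        rw [Finset.singleton_zero, zero_add, hT]
        exact Finset.mem_insert_of_mem hs.1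
      · intro h5
        exact hs.2 (h5.1 (hSA hs.1))
    have h5 : (a + a) * (k + 2) * nrm A (ks 1 T) (x - q₁) ≤ (a + a) * S.card :=
      (Nat.mul_le_mul_right _ hq).trans h2
    have h6 : (a + a) * ((k + 2) * nrm A (ks 1 T) (x - q₁)) ≤ (a + a) * S.card := by
      calc (a + a) * ((k + 2) * nrm A (ks 1 T) (x - q₁))
          = (a + a) * (k + 2) * nrm A (ks 1 T) (x - q₁) := by ring
        _ ≤ _ := h5
    exact (Nat.mul_le_mul_left _ h4).trans (Nat.le_of_mul_le_mul_left h6 (by omega))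
  have hex : ∃ x ∈ S, ∀ y ∈ Q, x - (y - q₁) ∈ A := by
    by_contra hno
    push Not at hno
    have h3 : S ⊆ Q.biUnion (fun y => S.filter (fun x => x - (y - q₁) ∉ A)) := by
      intro x hx
      obtain ⟨y, hy, hy2⟩ := hno x hx
      exact Finset.mem_biUnion.2 ⟨y, hy, Finset.mem_filter.2 ⟨hx, hy2⟩⟩
    have h4 := (Finset.card_le_card h3).trans Finset.card_biUnion_le
    have h5 : (k + 2) * S.card ≤ (k + 1) * S.card := by
      calc (k + 2) * S.card ≤ (k + 2) * ∑ y ∈ Q, (S.filter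
            (fun x => x - (y - q₁) ∉ A)).card := Nat.mul_le_mul_left _ h4
        _ = ∑ y ∈ Q, (k + 2) * (S.filter (fun x => x - (y - q₁) ∉ A)).card := by
            rw [Finset.mul_sum]
        _ ≤ ∑ _y ∈ Q, S.card := Finset.sum_le_sum (fun y hy => hbad y hy)
        _ = (k + 1) * S.card := by rw [Finset.sum_const, hQcard, smul_eq_mul]
    have h6 : 0 < S.card := hSne.card_pos
    have h7 : k + 2 ≤ k + 1 := Nat.le_of_mul_le_mul_right h5 h6
    omega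
  obtain ⟨x, hx, hxq⟩ := hex
  have hTb : T ⊆ bl Λ θ r := by
    rw [hT]
    intro y hy
    rcases Finset.mem_insert.1 hy with h | h
    · rw [h]; exact hloc.zero_mem hr
    · exact hSb h
  have hQb : Q ⊆ bl Λ θ (((2 * a : ℕ) : ℝ) * r) := by
    intro y hy
    have h1 : y ∈ ks (2 * a) T := ks_ks T E 2 (fun e he => ((hE e).1 he).1) a (hQ hy)
    exact hloc.ks_mem hr hTb (2 * a) (by linarith) h1
  have hz := (hloc.add_mem har (hQb hq₁) (hSb hx)).1
  have hzA : ∀ y ∈ Q, q₁ + x - y ∈ A := by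
    intro y hy
    have h4 : q₁ + x - y = x - (y - q₁) := by abel
    rw [h4]
    exact hxq y hy
  have hznot : q₁ + x ∉ Q := by
    intro h
    have := hzA _ h
    rw [sub_self] at this
    exact h0 this
  have h1 := hcl (insert (q₁ + x) Q) (by
    intro y hy
    rcases Finset.mem_insert.1 hy with h | h
    · rw [h]
      exact ((mem_bl _ _ _ _).1 hz).1
    · exact ((mem_bl _ _ _ _).1 (hQb h)).1) (by
    intro y hy w hw hyw
    rcases Finset.mem_insert.1 hy with h | h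
    · rcases Finset.mem_insert.1 hw with h' | h'
      · exact absurd (h.trans h'.symm) hyw
      · rw [h, ← hneg, neg_sub]
        exact hzA w h'
    · rcases Finset.mem_insert.1 hw with h' | h'
      · rw [h']
        exact hzA y h
      · exact hQc y h w h' hyw)
  rw [Finset.card_insert_of_notMem hznot, hQcard] at h1
  omega

/-- the statement for the local clique number `k` -/
def Tk (M : ℕ) (t : RT) (Cp dp k : ℕ) : Prop :=
  ∀ D : ℕ, ∃ (ε : ℝ) (C J : ℕ), 0 < ε ∧ ∀ (Γ : Type) [AddCommGroup Γ] [Fintype Γ]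
    [DecidableEq Γ] (A Λ : Finset Γ) (θ : Γ → Fin D → ℝ), IsLoc Λ θ → -A = A → 0 ∉ A →
    PL M A Λ → NoCh t A Λ → PackL Cp dp J A Λ →
    (∀ Q ⊆ Λ, (∀ x ∈ Q, ∀ y ∈ Q, x ≠ y → y - x ∈ A) → Q.card ≤ k) →
    ∃ c : Γ → Fin C, ∀ u ∈ bl Λ θ ε, ∀ v ∈ bl Λ θ ε, v - u ∈ A → c u ≠ c v

theorem piece_color (hb : Bohr) (M : ℕ) (t : RT) (Cp dp K k : ℕ) (hI : Tk M t Cp dp k) :
    ∃ C J : ℕ, ∀ (D : ℕ) (Γ : Type) [AddCommGroup Γ] [Fintype Γ] [DecidableEq Γ]
    (A Λ S : Finset Γ) (θ : Γ → Fin D → ℝ), IsLoc Λ θ → -A = A → 0 ∉ A →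
    PL M A Λ → NoCh t A Λ → PackL Cp dp J A Λ →
    (∀ Q ⊆ Λ, (∀ x ∈ Q, ∀ y ∈ Q, x ≠ y → y - x ∈ A) → Q.card ≤ k + 1) →
    S ⊆ A → S ⊆ bl Λ θ (1 / 20) → S.Nonempty → -S = S → (S + S + S).card ≤ K * S.card →
    ∃ c : Γ → Fin C, ∀ u v, v - u ∈ S → c u ≠ c v := by
  classical
  obtain ⟨K₁, hK₁⟩ := good_scale Cp dp K
  obtain ⟨L₂, J₂, hL₂⟩ := hK₁ ((8 + 8) * (k + 2)) (1 + 2 * (8 + 8)) (by omega)
  obtain ⟨D', L₃, hb'⟩ := hb K₁
  obtain ⟨ε', C', J', hε', hI'⟩ := hI D'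
  obtain ⟨ε, hεdef⟩ : ∃ ε, ε = min ε' 1 := ⟨_, rfl⟩
  have hε : 0 < ε := by rw [hεdef]; exact lt_min hε' one_pos
  have hε1 : ε ≤ 1 := by rw [hεdef]; exact min_le_right _ _
  have hεε' : ε ≤ ε' := by rw [hεdef]; exact min_le_left _ _
  obtain ⟨N₄, hN₄, hball⟩ := ball_card D' (ε / 4) (by linarith)
  obtain ⟨C, hC⟩ := region 16 (by norm_num) K (L₂ * (L₃ * N₄)) C'
  refine ⟨C, max J₂ J', ?_⟩
  intro D Γ _ _ _ A Λ S θ hloc hA h0 hPM hemp hpack hcl hSA hSb hSne hSn hSK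
  have h0Λ : (0 : Γ) ∈ Λ := hloc.zero.1
  have hSΛ : insert 0 S ⊆ Λ := by
    intro x hx
    rcases Finset.mem_insert.1 hx with h | h
    · rw [h]; exact h0Λ
    · exact ((mem_bl _ _ _ _).1 (hSb h)).1
  have hTΛ : ks 16 (insert 0 S) ⊆ Λ := by
    intro x hx
    have h1 : insert 0 S ⊆ bl Λ θ (1 / 20) := by
      intro y hy
      rcases Finset.mem_insert.1 hy with h | h
      · rw [h]; exact hloc.zero_mem (by norm_num)
      · exact hSb h
    exact ((mem_bl _ _ _ _).1 (hloc.ks_mem (by norm_num) h1 16 (by norm_num) hx)).1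
  obtain ⟨q, j, hq, hj, E, hE, hE4, Y, hY, hYS⟩ := hL₂ Γ A S Λ hSne hSn hSK hSΛ
    (hpack.mono (le_max_left _ _) (Finset.Subset.refl _) h0Λ)
  have hT0 : (0 : Γ) ∈ insert 0 S := Finset.mem_insert_self _ _
  have hTn : -(insert 0 S : Finset Γ) = insert 0 S := insert_neg S hSn
  have h0E : (0 : Γ) ∈ E := by
    rw [hE]
    refine ⟨ks_mono _ hT0 (Nat.zero_le 2) (by simp [ks]), ?_⟩
    have : nrm A (ks j (insert 0 S)) 0 = 0 := by
      unfold nrm
      rw [Finset.card_eq_zero, Finset.filter_eq_empty_iff]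
      intro t _
      rw [sub_zero]
      exact fun h => h Iff.rfl
    rw [this, Nat.mul_zero]
    exact Nat.zero_le _
  have hEn : -E = E := by
    ext x
    rw [Finset.mem_neg', hE, hE, nrm_neg A _ hA (ks_neg _ hTn j), ← Finset.mem_neg',
      ks_neg _ hTn]
  have hE3 : (E + E + E).card ≤ K₁ * E.card := by
    refine le_trans (Finset.card_le_card ?_) hE4
    intro x hx
    have h1 : x ∈ ks 3 E := by
      show x ∈ ((({0} : Finset Γ) + E) + E) + E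
      rw [Finset.singleton_zero, zero_add]
      exact hx
    exact ks_mono E h0E (by norm_num) h1
  obtain ⟨Λ', θ', hloc', hΛ', hcard'⟩ := hb' Γ E ⟨0, h0E⟩ hEn hE3
  have hcl' := clique_down A Λ S E θ hloc hA h0 8 (1 / 20) (by norm_num) (by norm_num) hSA hSb
    hSne hSn k q j hq (by norm_num) hj hE hEn hcl
  have hΛT : Λ' ⊆ ks 16 (insert 0 S) :=
    hΛ'.trans (ks_ks (insert 0 S) E 2 (fun e he => ((hE e).1 he).1) 8)
  have hΛΛ : Λ' ⊆ Λ := hΛT.trans hTΛ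
  obtain ⟨c', hc'⟩ := hI' Γ A Λ' θ' hloc' hA h0 (hPM.mono hΛΛ) (hemp.mono hΛΛ)
    (hpack.mono (le_max_right _ _) hΛΛ h0Λ) (fun Q hQ hQc => hcl' Q (hQ.trans hΛ') hQc)
  refine hC Γ S (bl Λ' θ' (ε / 4)) (bl Λ' θ' (ε / 2)) c' hSne hSn hSK
    (hloc'.zero_mem (by linarith)) ?_ ?_ (hloc'.bl_neg _) ?_ (bl_mono _ _ (by linarith)) ?_
  · have h1 : S ⊆ Y.biUnion (fun y => E.image (fun e => y + e)) := by
      intro s hs
      obtain ⟨y, hy, hsy⟩ := hYS s hs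
      exact Finset.mem_biUnion.2 ⟨y, hy, Finset.mem_image.2 ⟨s - y, hsy, by abel⟩⟩
    calc S.card ≤ (Y.biUnion (fun y => E.image (fun e => y + e))).card := Finset.card_le_card h1
      _ ≤ ∑ y ∈ Y, (E.image (fun e => y + e)).card := Finset.card_biUnion_le
      _ ≤ ∑ _y ∈ Y, E.card := Finset.sum_le_sum (fun y _ => Finset.card_image_le)
      _ = Y.card * E.card := by rw [Finset.sum_const, smul_eq_mul]
      _ ≤ L₂ * E.card := Nat.mul_le_mul_right _ hY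
      _ ≤ L₂ * (L₃ * (bl Λ' θ' (1 / 2)).card) := Nat.mul_le_mul_left _ hcard'
      _ ≤ L₂ * (L₃ * (N₄ * (bl Λ' θ' (ε / 4)).card)) :=
          Nat.mul_le_mul_left _ (Nat.mul_le_mul_left _ (hball Γ Λ' θ' hloc'))
      _ = _ := by ring
  · intro x hx
    obtain ⟨y, hy, z, hz, rfl⟩ := Finset.mem_sub.1 hx
    have h1 := (hloc'.sub_mem (by linarith) hy hz).1
    have h2 : ε / 4 + ε / 4 = ε / 2 := by ring
    rwa [h2] at h1
  · intro x hx
    exact hΛT ((mem_bl _ _ _ _).1 hx).1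
  · intro u hu v hv huv
    exact hc' u (bl_mono _ _ (by linarith) hu) v (bl_mono _ _ (by linarith) hv) (hSA huv)

theorem tk_all (hb : Bohr) (M : ℕ) (hM : 2 ≤ M) (t : RT) (Cp dp : ℕ) :
    ∀ k : ℕ, Tk M t Cp dp k := by
  classical
  intro k
  induction k with
  | zero =>
    intro D
    refine ⟨1, 1, 1, one_pos, ?_⟩
    intro Γ _ _ _ A Λ θ hloc _ _ _ _ _ hcl
    exfalso
    have h1 := hcl {0} (by simpa using hloc.zero.1) (by
      intro x hx y hy hxy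
      rw [Finset.mem_singleton] at hx hy
      exact absurd (hx.trans hy.symm) hxy)
    simp at h1
  | succ k ih =>
    intro D
    obtain ⟨ε₁, K, k₁, L₁, hε₁, hε₁κ, hLP⟩ := local_pieces M D t hM (1 / 20) (by norm_num)
      (by norm_num)
    obtain ⟨K', htri⟩ := Pool.Agent.TH75.CG.tripling K k₁
    obtain ⟨C, J, hC⟩ := piece_color hb M t Cp dp K' k ih
    refine ⟨ε₁ / 2, (C + 1) ^ L₁, J, by linarith, ?_⟩
    intro Γ _ _ _ A Λ θ hloc hA h0 hPM hemp hpack hcl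
    obtain ⟨s, hs, hs2, hs3⟩ := hLP Γ A Λ θ hloc hA h0 hPM hemp
    obtain ⟨A₁, hA₁⟩ : ∃ A₁, A₁ = A ∩ bl Λ θ (1 / 20) := ⟨_, rfl⟩
    rw [← hA₁] at hs2
    have hA₁A : A₁ ⊆ A := by rw [hA₁]; exact Finset.inter_subset_left
    have hA₁b : A₁ ⊆ bl Λ θ (1 / 20) := by rw [hA₁]; exact Finset.inter_subset_right
    have hA₁n : -A₁ = A₁ := by
      rw [hA₁]
      ext x
      rw [Finset.mem_neg', Finset.mem_inter, Finset.mem_inter, ← Finset.mem_neg',
        ← Finset.mem_neg', hA, hloc.bl_neg]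
    have hS : ∀ p : s, ∃ S : Finset Γ, (S ⊆ A₁ ∧ S.Nonempty ∧ -S = S ∧
        (S + S + S).card ≤ K' * S.card) ∧
        (∀ x ∈ A₁, x - p.1.1 ∈ ks k₁ (p.1.2 - p.1.2) → x ∈ S) := by
      intro p
      obtain ⟨h1, h2, h4⟩ := hs2 p.1 p.2
      obtain ⟨S, hS1, hS2, hS3, hS4, hS5⟩ := htri Γ A₁ p.1.2 p.1.1 hA₁n h1 h2 h4
      exact ⟨S, ⟨hS1, h2.mono hS3, hS2, hS5⟩, hS4⟩
    choose S hS1 hS2 using hS
    have hcol : (SimpleGraph.fromRel (fun u v : Γ => ∃ p, v - u ∈ S p)).Colorable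
        ((C + 1) ^ L₁) := by
      apply colorable_union (SimpleGraph.fromRel (fun u v : Γ => ∃ p, v - u ∈ S p))
        (fun p : s => SimpleGraph.fromRel (fun u v : Γ => v - u ∈ S p)) (C + 1) L₁ (by omega)
      · rw [Fintype.card_coe]
        exact hs
      · intro u v huv
        rw [SimpleGraph.fromRel_adj] at huv
        obtain ⟨hne, ⟨p, hp⟩ | ⟨p, hp⟩⟩ := huv
        · exact ⟨p, (SimpleGraph.fromRel_adj _ _ _).2 ⟨hne, Or.inl hp⟩⟩
        · exact ⟨p, (SimpleGraph.fromRel_adj _ _ _).2 ⟨hne, Or.inr hp⟩⟩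
      · intro p
        obtain ⟨hSA, hSne, hSn, hSK⟩ := hS1 p
        obtain ⟨c, hc⟩ := hC D Γ A Λ (S p) θ hloc hA h0 hPM hemp hpack hcl (hSA.trans hA₁A)
          (hSA.trans hA₁b) hSne hSn hSK
        have h1 : (SimpleGraph.fromRel (fun u v : Γ => v - u ∈ S p)).Colorable C := by
          refine ⟨SimpleGraph.Coloring.mk c ?_⟩
          intro u v huv
          rw [SimpleGraph.fromRel_adj] at huv
          obtain ⟨_, h | h⟩ := huv
          · exact hc u v h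
          · exact (hc v u h).symm
        exact h1.mono (by omega)
    obtain ⟨c⟩ := hcol
    refine ⟨c, ?_⟩
    intro u hu v hv huv
    apply c.valid
    rw [SimpleGraph.fromRel_adj]
    refine ⟨?_, Or.inl ?_⟩
    · intro h
      rw [h, sub_self] at huv
      exact h0 huv
    · have h1 := (hloc.sub_mem (by linarith) hv hu).1
      have h2 : ε₁ / 2 + ε₁ / 2 = ε₁ := by ring
      rw [h2] at h1
      obtain ⟨p, hp, hx⟩ := hs3 (v - u) (Finset.mem_inter.2 ⟨huv, h1⟩)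
      refine ⟨⟨p, hp⟩, hS2 ⟨p, hp⟩ _ ?_ hx⟩
      rw [hA₁]
      exact Finset.mem_inter.2 ⟨huv, bl_mono _ _ hε₁κ h1⟩

end Pool.Agent.K4H78.GA
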