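import Pool.Agent.K4H78.GA.Step

/-!
# Local pieces: the small generators are covered by few structured sets
-/

set_option autoImplicit false

open Finset
open scoped Pointwise

namespace Pool.Agent.K4H78.GA

open Pool.Agent.TH346.CG

theorem addCayley_iff {Γ : Type} [AddCommGroup Γ] [DecidableEq Γ] (A : Finset Γ) (hA : -A = A)
    (h0 : (0 : Γ) ∉ A) (u v : Γ) :
    (SimpleGraph.addCayley (A : Set Γ)).Adj u v ↔ v - u ∈ A := by
  rw [SimpleGraph.addCayley_adj']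
  constructor
  · rintro ⟨hne, g, hg, h | h⟩
    · rw [← h, add_sub_cancel_left]
      exact hg
    · rw [h, ← hA, Finset.mem_neg', neg_sub, add_sub_cancel_left]
      exact hg
  · intro h
    refine ⟨?_, v - u, h, Or.inl (by abel)⟩
    intro h'
    rw [h', sub_self] at h
    exact h0 h

/-- a good list gives an induced tree -/
theorem ch_embed {Γ : Type} [AddCommGroup Γ] [DecidableEq Γ] (A : Finset Γ) (hA : -A = A)
    (h0 : (0 : Γ) ∉ A) (t : RT) (l : List Γ) (hl : l.length = t.E) (hch : Ch A l) :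
    Nonempty (t.graph ↪g SimpleGraph.addCayley (A : Set Γ)) := by
  obtain ⟨φ, -, -, h1, h2⟩ := rt_embed A hA t l hl hch
  have hneg : ∀ x : Γ, -x ∈ A ↔ x ∈ A := by
    intro x
    rw [← Finset.mem_neg', hA]
  have hadj : ∀ v w, t.adj v w ↔ φ w - φ v ∈ A := by
    intro v w
    constructor
    · intro h
      have := h1 v w h
      rwa [← hneg, neg_sub] at this
    · intro h
      by_contra hcon
      have hne : v ≠ w := by
        rintro rfl
        rw [sub_self] at h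
        exact h0 h
      have := (h2 v w hne hcon).1
      rw [← hneg, neg_sub] at this
      exact this h
  refine ⟨⟨⟨φ, ?_⟩, ?_⟩⟩
  · intro v w hvw
    by_contra hne
    by_cases h : t.adj v w
    · have h3 := h1 v w h
      rw [hvw, sub_self] at h3
      exact h0 h3
    · exact (h2 v w hne h).2 (by rw [hvw, sub_self])
  · intro v w
    show (SimpleGraph.addCayley (A : Set Γ)).Adj (φ v) (φ w) ↔ t.adj v w
    rw [addCayley_iff A hA h0, hadj]

/-- the data of the first `n` steps -/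
def Run {Γ : Type} [AddCommGroup Γ] [Fintype Γ] [DecidableEq Γ] {D : ℕ} (A A₁ Λ : Finset Γ)
    (θ : Γ → Fin D → ℝ) (M : ℝ) (ρ : ℕ → ℝ) (γ : ℝ) (j : ℕ) (K k L n : ℕ) : Prop :=
  ∃ (B U V : ℕ → Finset Γ) (v : ℕ → Fin D → ℝ), V 0 = {0} ∧
    (∀ i < n, V (i + 1) = Vn j (A ∩ U i) (V i) (B i) ∧ (B i).Nonempty ∧ B i ⊆ A \ V i ∧
      -(U i) = U i ∧
      (SlowStep Λ θ M (ρ i) (B i) (U i) ∨ FastStep Λ θ M (ρ i) γ (B i) (U i) (v i))) ∧
    Cov A₁ K k L (V n)

theorem run_end {Γ : Type} [AddCommGroup Γ] [Fintype Γ] [DecidableEq Γ] {D : ℕ}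
    (A A₁ Λ : Finset Γ) (θ : Γ → Fin D → ℝ) (hloc : IsLoc Λ θ) (hA : -A = A) (h0 : (0 : Γ) ∉ A)
    (t : RT) (M ρ₀ δ γ : ℝ) (hM : 2 ≤ M) (hρ : 0 < ρ₀) (hMρ : M * ρ₀ ≤ 1 / 2) (hδ : 0 < δ)
    (hδM : δ * (32 * M) ≤ 1) (κ : ℕ) (col : (Fin D → ℝ) → Fin κ)
    (hcol : ∀ u v, ‖u‖ ≤ 1 → ‖v‖ ≤ 1 → col u = col v → ‖u - v‖ ≤ 1 / 16)
    (N : ℕ) (hN : (κ + 1) * t.E ≤ N) (hγ : 0 < γ) (hγN : γ ≤ ρ₀ * δ ^ N / 32) (K k L : ℕ)
    (hrun : Run A A₁ Λ θ M (fun i => ρ₀ * δ ^ i) γ t.E K k L N) : ¬ NoCh t A Λ := by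
  classical
  obtain ⟨B, U, V, v, hV0, hstep, -⟩ := hrun
  have hδ1 : δ ≤ 1 := by nlinarith
  have hUn : ∀ i < N, -(A ∩ U i) = A ∩ U i := by
    intro i hi
    have e1 : ∀ x, -x ∈ A ↔ x ∈ A := by
      intro x
      rw [← Finset.mem_neg', hA]
    have e2 : ∀ x, -x ∈ U i ↔ x ∈ U i := by
      intro x
      rw [← Finset.mem_neg', (hstep i hi).2.2.2.1]
    ext x
    rw [Finset.mem_neg', Finset.mem_inter, Finset.mem_inter, e1, e2]
  have hVn : ∀ i ≤ N, -(V i) = V i := by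
    intro i
    induction i with
    | zero => intro _; rw [hV0]; simp
    | succ i ih =>
      intro hi
      rw [(hstep i (by omega)).1]
      exact Vn_symm _ _ _ _ (hUn i (by omega)) (ih (by omega))
  have h0V : ∀ i ≤ N, (0 : Γ) ∈ V i := by
    intro i
    induction i with
    | zero => intro _; rw [hV0]; simp
    | succ i ih =>
      intro hi
      rw [(hstep i (by omega)).1]
      exact Finset.mem_union_left _ (ih (by omega))
  -- colours of the steps
  obtain ⟨c, hc⟩ : ∃ c : ℕ → Option (Fin κ), c = fun i =>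
      if SlowStep Λ θ M (ρ₀ * δ ^ i) (B i) (U i) then none
      else some (col ((‖v i‖)⁻¹ • v i)) := ⟨_, rfl⟩
  obtain ⟨x, -, hx⟩ := Finset.exists_le_card_fiber_of_mul_le_card_of_maps_to
    (s := Finset.range N) (t := (Finset.univ : Finset (Option (Fin κ)))) (f := c) (n := t.E)
    (fun a _ => Finset.mem_univ _) ⟨none, Finset.mem_univ _⟩
    (by
      rw [Finset.card_univ, Fintype.card_option, Fintype.card_fin, Finset.card_range]
      exact hN)
  obtain ⟨S, hS, hSc⟩ := Finset.exists_subset_card_eq hx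
  obtain ⟨I, hI⟩ : ∃ I : List ℕ, I = S.sort (· ≤ ·) := ⟨_, rfl⟩
  have hIlen : I.length = t.E := by
    rw [hI, Finset.length_sort, hSc]
  have hIs : I.Pairwise (· < ·) := by
    rw [hI]
    exact (Finset.sortedLT_sort S).pairwise
  have hImem : ∀ i ∈ I, i < N ∧ c i = x := by
    intro i hi
    rw [hI, Finset.mem_sort] at hi
    have h1 := hS hi
    rw [Finset.mem_filter, Finset.mem_range] at h1
    exact h1
  obtain ⟨l, hl, -⟩ := select A B U V t.E N (fun i hi => (hstep i hi).1) hVn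
    (fun i hi => ⟨(hstep i hi).2.1, (hstep i hi).2.2.1⟩) I hIlen.le hIs
    (fun i hi => (hImem i hi).1) 0 (Nat.zero_le _) (fun i _ => Nat.zero_le i)
  intro hno
  have hlΛ : ∀ x ∈ l, x ∈ Λ := by
    apply hl.mem
    intro i hi x hx
    rcases (hstep i (hImem i hi).1).2.2.2.2 with h | ⟨r, -, -, h, -⟩
    · exact ((mem_bl _ _ _ _).1 (h.1 hx)).1
    · exact ((mem_bl _ _ _ _).1 (h hx)).1
  refine hno l (by rw [hl.length, hIlen]) hlΛ ?_
  have hbase : ∀ i ∈ I, (0 : Γ) ∈ V i ∧ B i ⊆ A := by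
    intro i hi
    exact ⟨h0V i (hImem i hi).1.le, (hstep i (hImem i hi).1).2.2.1.trans Finset.sdiff_subset⟩
  cases x with
  | none =>
    apply slow_ch hloc A hA B U V M ρ₀ δ hM hρ hMρ hδ hδM I hIs ?_ l hl
    intro i hi
    refine ⟨hbase i hi, ?_⟩
    have h1 := (hImem i hi).2
    rw [hc] at h1
    simp only at h1
    by_contra hcon
    rw [if_neg hcon] at h1
    exact absurd h1 (by simp)
  | some y =>
    have hfast : ∀ i ∈ I, FastStep Λ θ M (ρ₀ * δ ^ i) γ (B i) (U i) (v i) ∧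
        col ((‖v i‖)⁻¹ • v i) = y := by
      intro i hi
      have h1 := (hImem i hi).2
      rw [hc] at h1
      simp only at h1
      by_cases hslow : SlowStep Λ θ M (ρ₀ * δ ^ i) (B i) (U i)
      · rw [if_pos hslow] at h1
        exact absurd h1 (by simp)
      · rw [if_neg hslow] at h1
        exact ⟨((hstep i (hImem i hi).1).2.2.2.2).resolve_left hslow, Option.some_injective _ h1⟩
    have hunit : ∀ w : Fin D → ℝ, ‖(‖w‖)⁻¹ • w‖ ≤ 1 := by
      intro w
      rw [norm_smul, norm_inv, norm_norm]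
      by_cases hw : ‖w‖ = 0
      · rw [hw]; simp
      · rw [inv_mul_cancel₀ hw]
    obtain ⟨u, hu1, hu⟩ : ∃ u : Fin D → ℝ, ‖u‖ ≤ 1 ∧ (I ≠ [] → col u = y) := by
      rcases I with _ | ⟨i₁, I'⟩
      · exact ⟨0, by simp, fun h => absurd rfl h⟩
      · exact ⟨(‖v i₁‖)⁻¹ • v i₁, hunit _, fun _ => (hfast i₁ List.mem_cons_self).2⟩
    apply fast_ch hloc A hA B U V M ρ₀ δ γ hM hρ hMρ hδ hδM hγ I hIs v u ?_ l hl
    intro i hi
    refine ⟨hbase i hi, (hfast i hi).1, ?_, ?_⟩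
    · have h1 : δ ^ N ≤ δ ^ i := pow_le_pow_of_le_one hδ.le hδ1 (hImem i hi).1.le
      have h2 : ρ₀ * δ ^ N ≤ ρ₀ * δ ^ i := mul_le_mul_of_nonneg_left h1 hρ.le
      linarith
    · apply hcol _ _ (hunit _) hu1
      rw [(hfast i hi).2, hu (List.ne_nil_of_mem hi)]

/-- **Local pieces.** -/
theorem local_pieces (M D : ℕ) (t : RT) (hM : 2 ≤ M) (κ₀ : ℝ) (hκ : 0 < κ₀) (hκ2 : κ₀ ≤ 1 / 2) :
    ∃ (ε : ℝ) (K k L : ℕ), 0 < ε ∧ ε ≤ κ₀ ∧ ∀ (Γ : Type) [AddCommGroup Γ] [Fintype Γ]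
    [DecidableEq Γ] (A Λ : Finset Γ) (θ : Γ → Fin D → ℝ), IsLoc Λ θ → -A = A → (0 : Γ) ∉ A →
    PL M A Λ → NoCh t A Λ →
    Cov (A ∩ bl Λ θ κ₀) K k L (A ∩ bl Λ θ ε) := by
  classical
  obtain ⟨κ, col, hcol⟩ := cells D (1 / 16) (by norm_num)
  obtain ⟨N, hN⟩ : ∃ N : ℕ, N = (κ + 1) * t.E := ⟨_, rfl⟩
  have hM' : (2 : ℝ) ≤ M := by exact_mod_cast hM
  obtain ⟨ρ₀, hρ₀⟩ : ∃ ρ₀ : ℝ, ρ₀ = κ₀ / M := ⟨_, rfl⟩
  obtain ⟨δ, hδ'⟩ : ∃ δ : ℝ, δ = 1 / (32 * M) := ⟨_, rfl⟩
  have hM0 : (0 : ℝ) < M := by linarith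
  have hρ : 0 < ρ₀ := by rw [hρ₀]; positivity
  have hδ : 0 < δ := by rw [hδ']; positivity
  have hMρ' : M * ρ₀ = κ₀ := by rw [hρ₀]; field_simp
  have hδM : δ * (32 * M) ≤ 1 := by rw [hδ']; field_simp; exact le_rfl
  have hδ1 : δ ≤ 1 := by nlinarith
  obtain ⟨γ, hγ'⟩ : ∃ γ : ℝ, γ = ρ₀ * δ ^ N / 32 := ⟨_, rfl⟩
  have hγ : 0 < γ := by rw [hγ']; positivity
  have hρi : ∀ i, 0 < ρ₀ * δ ^ i ∧ M * (ρ₀ * δ ^ i) ≤ κ₀ := by
    intro i
    refine ⟨by positivity, ?_⟩
    have h1 : δ ^ i ≤ 1 := pow_le_one₀ hδ.le hδ1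
    have h2 : M * (ρ₀ * δ ^ i) = κ₀ * δ ^ i := by rw [← hMρ']; ring
    rw [h2]
    nlinarith
  have hs := fun (i K k L : ℕ) => step M t.E D hM (ρ₀ * δ ^ i) γ (hρi i).1 hγ
    (by linarith [(hρi i).2]) K k L
  choose K' k' L' hstep using hs
  obtain ⟨cs, hcs0, hcs⟩ : ∃ cs : ℕ → ℕ × ℕ × ℕ, cs 0 = (1, 0, 1) ∧
      ∀ i, cs (i + 1) = (K' i (cs i).1 (cs i).2.1 (cs i).2.2,
        k' i (cs i).1 (cs i).2.1 (cs i).2.2, L' i (cs i).1 (cs i).2.1 (cs i).2.2) :=
    ⟨fun n => Nat.rec (1, 0, 1) (fun i p => (K' i p.1 p.2.1 p.2.2, k' i p.1 p.2.1 p.2.2,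
      L' i p.1 p.2.1 p.2.2)) n, rfl, fun i => rfl⟩
  obtain ⟨Kt, hKt⟩ : ∃ Kt : ℕ, Kt = ∑ i ∈ Finset.range (N + 1), (cs i).1 := ⟨_, rfl⟩
  obtain ⟨kt, hkt⟩ : ∃ kt : ℕ, kt = ∑ i ∈ Finset.range (N + 1), (cs i).2.1 := ⟨_, rfl⟩
  obtain ⟨Lt, hLt⟩ : ∃ Lt : ℕ, Lt = ∑ i ∈ Finset.range (N + 1), (cs i).2.2 := ⟨_, rfl⟩
  have hKle : ∀ i ≤ N, (cs i).1 ≤ Kt := by
    intro i hi
    rw [hKt]
    exact Finset.single_le_sum (f := fun i => (cs i).1) (fun _ _ => Nat.zero_le _)
      (Finset.mem_range.2 (by omega))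
  have hkle : ∀ i ≤ N, (cs i).2.1 ≤ kt := by
    intro i hi
    rw [hkt]
    exact Finset.single_le_sum (f := fun i => (cs i).2.1) (fun _ _ => Nat.zero_le _)
      (Finset.mem_range.2 (by omega))
  have hLle : ∀ i ≤ N, (cs i).2.2 ≤ Lt := by
    intro i hi
    rw [hLt]
    exact Finset.single_le_sum (f := fun i => (cs i).2.2) (fun _ _ => Nat.zero_le _)
      (Finset.mem_range.2 (by omega))
  refine ⟨ρ₀ * δ ^ N, Kt, kt, Lt, (hρi N).1, ?_, ?_⟩
  · have := (hρi N).2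
    have h1 := (hρi N).1
    nlinarith
  intro Γ _ _ _ A Λ θ hloc hA h0 hP hemp
  obtain ⟨A₁, hA₁⟩ : ∃ A₁, A₁ = A ∩ bl Λ θ κ₀ := ⟨_, rfl⟩
  rw [← hA₁]
  by_cases hne : (A ∩ bl Λ θ (ρ₀ * δ ^ N)).Nonempty
  swap
  · rw [not_nonempty_iff_eq_empty] at hne
    rw [hne]
    exact ⟨∅, by simp, by simp, by simp⟩
  by_contra hcon
  have hrun : ∀ n ≤ N, Run A A₁ Λ θ M (fun i => ρ₀ * δ ^ i) γ t.E (cs n).1 (cs n).2.1
      (cs n).2.2 n := by
    intro n
    induction n with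
    | zero =>
      intro _
      refine ⟨fun _ => ∅, fun _ => ∅, fun _ => {0}, fun _ => 0, rfl, fun i hi => absurd hi
        (Nat.not_lt_zero i), ?_⟩
      rw [hcs0]
      obtain ⟨a, ha⟩ := hne
      have haA₁ : a ∈ A₁ := by
        rw [hA₁]
        rw [Finset.mem_inter] at ha ⊢
        refine ⟨ha.1, bl_mono Λ θ ?_ ha.2⟩
        have := (hρi N).2
        have h1 := (hρi N).1
        nlinarith
      refine ⟨{(0, {a})}, by simp, ?_, ?_⟩
      · intro p hp
        rw [Finset.mem_singleton] at hp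
        subst hp
        refine ⟨by simpa using haA₁, by simp, by simp⟩
      · intro x hx
        rw [Finset.mem_singleton] at hx
        subst hx
        refine ⟨(0, {a}), by simp, ?_⟩
        simp [ks]
    | succ n ih =>
      intro hn
      obtain ⟨B, U, V, v, hV0, hst, hcov⟩ := ih (by omega)
      have hUn : ∀ i < n, -(A ∩ U i) = A ∩ U i := by
        intro i hi
        have e1 : ∀ x, -x ∈ A ↔ x ∈ A := by
          intro x
          rw [← Finset.mem_neg', hA]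
        have e2 : ∀ x, -x ∈ U i ↔ x ∈ U i := by
          intro x
          rw [← Finset.mem_neg', (hst i hi).2.2.2.1]
        ext x
        rw [Finset.mem_neg', Finset.mem_inter, Finset.mem_inter, e1, e2]
      have hVn : ∀ i ≤ n, -(V i) = V i := by
        intro i
        induction i with
        | zero => intro _; rw [hV0]; simp
        | succ i ih =>
          intro hi
          rw [(hst i (by omega)).1]
          exact Vn_symm _ _ _ _ (hUn i (by omega)) (ih (by omega))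
      have h0V : ∀ i ≤ n, (0 : Γ) ∈ V i := by
        intro i
        induction i with
        | zero => intro _; rw [hV0]; simp
        | succ i ih =>
          intro hi
          rw [(hst i (by omega)).1]
          exact Finset.mem_union_left _ (ih (by omega))
      by_cases hX : ((A \ V n) ∩ bl Λ θ (ρ₀ * δ ^ n)).Nonempty
      swap
      · exfalso
        apply hcon
        refine hcov.mono (hKle n (by omega)) (hkle n (by omega)) (hLle n (by omega)) ?_
        intro x hx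
        rw [Finset.mem_inter] at hx
        by_contra hxV
        apply hX
        refine ⟨x, ?_⟩
        rw [Finset.mem_inter, Finset.mem_sdiff]
        refine ⟨⟨hx.1, hxV⟩, bl_mono Λ θ ?_ hx.2⟩
        apply mul_le_mul_of_nonneg_left _ hρ.le
        exact pow_le_pow_of_le_one hδ.le hδ1 (by omega)
      obtain ⟨B', U', hB'ne, hB'A, hU'n, hcov', hkind⟩ := hstep n _ _ _ Γ A A₁ (V n) Λ θ hloc hA
        (hVn n le_rfl) (h0V n le_rfl) hP (by
          rw [hA₁]
          exact Finset.inter_subset_inter_left (bl_mono Λ θ (hρi n).2)) hcov hX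
      obtain ⟨v', hv'⟩ : ∃ v', SlowStep Λ θ M (ρ₀ * δ ^ n) B' U' ∨
          FastStep Λ θ M (ρ₀ * δ ^ n) γ B' U' v' := by
        rcases hkind with h | ⟨v', h⟩
        · exact ⟨0, Or.inl h⟩
        · exact ⟨v', Or.inr h⟩
      refine ⟨Function.update B n B', Function.update U n U',
        Function.update V (n + 1) (Vn t.E (A ∩ U') (V n) B'), Function.update v n v', ?_, ?_, ?_⟩
      · rw [Function.update_of_ne (by omega)]
        exact hV0
      · intro i hi
        by_cases hin : i = n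
        · subst hin
          rw [Function.update_self, Function.update_self, Function.update_self,
            Function.update_self, Function.update_of_ne (by omega)]
          exact ⟨rfl, hB'ne, hB'A, hU'n, hv'⟩
        · rw [Function.update_of_ne hin, Function.update_of_ne hin, Function.update_of_ne hin,
            Function.update_of_ne (by omega), Function.update_of_ne (by omega)]
          exact hst i (by omega)
      · rw [Function.update_self, hcs n]
        exact hcov'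
  exact run_end A A₁ Λ θ hloc hA h0 t M ρ₀ δ γ hM' hρ (by rw [hMρ']; exact hκ2) hδ hδM κ
    col hcol N hN.ge hγ hγ'.le _ _ _ (hrun N le_rfl) hemp

end Pool.Agent.K4H78.GA
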