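import Mathlib
import Pool.Agent.K4H78.GA.Fin

/-!
# From Cayley graphs of finite abelian groups to abelian groups with few orbits
-/

set_option autoImplicit false

namespace Pool.Agent.K4H78.GA

theorem orb_of_cayley {m : ℕ} (F : SimpleGraph (Fin m)) (f₀ : ℕ → ℕ)
    (h₀ : ∀ (Γ : Type) [AddCommGroup Γ] [Fintype Γ] (A : Set Γ),
      ¬ F.IsIndContained (SimpleGraph.addCayley A) →
      (SimpleGraph.addCayley A).Colorable (f₀ (SimpleGraph.addCayley A).cliqueNum)) (r : ℕ) :
    ∃ f : ℕ → ℕ, ∀ (V : Type) [Fintype V] (G : SimpleGraph V) (Γ : Type) [CommGroup Γ]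
      [MulAction Γ V], (∀ (g : Γ) (v w : V), G.Adj v w → G.Adj (g • v) (g • w)) →
      Nat.card (MulAction.orbitRel.Quotient Γ V) ≤ r → ¬ F.IsIndContained G →
      G.Colorable (f G.cliqueNum) := by
  classical
  refine ⟨fun k => r * ∑ i ∈ Finset.range (k + 1), f₀ i, ?_⟩
  intro V _ G Γ _ _ hG hr hind
  set N := ∑ i ∈ Finset.range (G.cliqueNum + 1), f₀ i with hN
  -- each orbit can be coloured
  have key : ∀ v : V, ∃ c : V → Fin N, ∀ x ∈ MulAction.orbit Γ v, ∀ y ∈ MulAction.orbit Γ v,
      G.Adj x y → c x ≠ c y := by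
    intro v
    let Q := Additive (Γ ⧸ MulAction.stabilizer Γ v)
    let φ : Q → V := fun x => MulAction.ofQuotientStabilizer Γ v x.toMul
    have hinj : Function.Injective φ := fun x y h =>
      Additive.toMul.injective (MulAction.injective_ofQuotientStabilizer Γ v h)
    haveI : Finite Q := Finite.of_injective φ hinj
    haveI : Fintype Q := Fintype.ofFinite Q
    have hφ : ∀ g : Γ, φ (Additive.ofMul (g : Γ ⧸ MulAction.stabilizer Γ v)) = g • v := fun g => rfl
    let A : Set Q := {a | G.Adj v (φ a)}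
    have hadj : ∀ x y : Q, (SimpleGraph.addCayley A).Adj x y ↔ G.Adj (φ x) (φ y) := by
      have h1 : ∀ x a : Q, G.Adj v (φ a) ↔ G.Adj (φ x) (φ (x + a)) := by
        intro x a
        obtain ⟨g, hg⟩ := QuotientGroup.mk_surjective x.toMul
        obtain ⟨h, hh⟩ := QuotientGroup.mk_surjective a.toMul
        have hx : x = Additive.ofMul (g : Γ ⧸ MulAction.stabilizer Γ v) := by
          rw [hg]; rfl
        have ha : a = Additive.ofMul (h : Γ ⧸ MulAction.stabilizer Γ v) := by
          rw [hh]; rfl
        have hxa : x + a = Additive.ofMul ((g * h : Γ) : Γ ⧸ MulAction.stabilizer Γ v) := by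
          rw [hx, ha]; rfl
        rw [hxa, hφ, hx, hφ, ha, hφ]
        constructor
        · intro h2
          have := hG g _ _ h2
          rwa [← mul_smul] at this
        · intro h2
          have := hG g⁻¹ _ _ h2
          rw [inv_smul_smul, ← mul_smul, inv_mul_cancel_left] at this
          exact this
      intro x y
      rw [SimpleGraph.addCayley_adj']
      constructor
      · rintro ⟨hne, a, ha, h | h⟩
        · rw [← h]; exact (h1 x a).1 ha
        · rw [h]; exact ((h1 y a).1 ha).symm
      · intro h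
        refine ⟨fun he => ?_, y - x, ?_, Or.inl (add_sub_cancel x y)⟩
        · rw [he] at h; exact G.irrefl h
        · show G.Adj v (φ (y - x))
          rw [h1 x, add_sub_cancel]
          exact h
    have emb : Nonempty (SimpleGraph.addCayley A ↪g G) := ⟨⟨⟨φ, hinj⟩, by
      intro x y
      exact (hadj x y).symm⟩⟩
    obtain ⟨e⟩ := emb
    have hcol := h₀ Q A (fun ⟨ψ⟩ => hind ⟨ψ.trans e⟩)
    have hcl : (SimpleGraph.addCayley A).cliqueNum ≤ G.cliqueNum := by
      obtain ⟨s, hs⟩ := (SimpleGraph.addCayley A).exists_isNClique_cliqueNum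
      have h4 : (SimpleGraph.map (⇑e.toEmbedding) (SimpleGraph.addCayley A)) ≤ G := by
        intro a b h
        rw [SimpleGraph.map_adj] at h
        obtain ⟨x, y, hxy, rfl, rfl⟩ := h
        exact e.map_adj_iff.2 hxy
      have h5 := (hs.map (f := e.toEmbedding)).mono h4
      rw [← h5.card_eq]
      exact h5.isClique.card_le_cliqueNum
    have hle : f₀ (SimpleGraph.addCayley A).cliqueNum ≤ N := by
      rw [hN]
      exact Finset.single_le_sum (f := f₀) (fun i _ => Nat.zero_le _)
        (Finset.mem_range.2 (Nat.lt_succ_of_le hcl))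
    obtain ⟨c⟩ := hcol.mono hle
    have hN0 : 0 < N := lt_of_le_of_lt (Nat.zero_le _) (c 0).isLt
    refine ⟨fun w => if h : ∃ x : Q, φ x = w then c h.choose else ⟨0, hN0⟩, ?_⟩
    intro x hx y hy hxy
    have hx' : ∃ q : Q, φ q = x := by
      obtain ⟨g, rfl⟩ := hx
      exact ⟨_, hφ g⟩
    have hy' : ∃ q : Q, φ q = y := by
      obtain ⟨g, rfl⟩ := hy
      exact ⟨_, hφ g⟩
    simp only [dif_pos hx', dif_pos hy']
    apply c.valid
    rw [hadj, hx'.choose_spec, hy'.choose_spec]
    exact hxy
  choose c hc using key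
  -- combine
  haveI : Finite (MulAction.orbitRel.Quotient Γ V) := Quotient.finite _
  haveI : Fintype (MulAction.orbitRel.Quotient Γ V) := Fintype.ofFinite _
  have hcolor : G.Coloring (MulAction.orbitRel.Quotient Γ V × Fin N) := by
    refine SimpleGraph.Coloring.mk
      (fun w => ((Quotient.mk'' w : MulAction.orbitRel.Quotient Γ V),
        c (Quotient.out (Quotient.mk'' w : MulAction.orbitRel.Quotient Γ V)) w)) ?_
    intro x y hxy he
    simp only [Prod.mk.injEq] at he
    obtain ⟨h1, h2⟩ := he
    rw [← h1] at h2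
    refine hc (Quotient.out (Quotient.mk'' x : MulAction.orbitRel.Quotient Γ V)) x ?_ y ?_ hxy h2
    · have h3 : (Quotient.mk'' (Quotient.out (Quotient.mk'' x : MulAction.orbitRel.Quotient Γ V)) :
          MulAction.orbitRel.Quotient Γ V) = Quotient.mk'' x := Quotient.out_eq' _
      exact (MulAction.orbitRel_apply.1 (Quotient.exact' h3.symm))
    · have h3 : (Quotient.mk'' (Quotient.out (Quotient.mk'' x : MulAction.orbitRel.Quotient Γ V)) :
          MulAction.orbitRel.Quotient Γ V) = Quotient.mk'' y := by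
        rw [← h1]; exact Quotient.out_eq' _
      exact (MulAction.orbitRel_apply.1 (Quotient.exact' h3.symm))
  have hcard : Fintype.card (MulAction.orbitRel.Quotient Γ V × Fin N) ≤ r * N := by
    rw [Fintype.card_prod, Fintype.card_fin]
    refine Nat.mul_le_mul_right _ ?_
    rwa [Nat.card_eq_fintype_card] at hr
  exact (hcolor.colorable).mono hcard

/-- Gyárfás–Sumner for the graphs with an abelian group of automorphisms with few orbits. -/
theorem orb_forest (hb : Bohr) {m : ℕ} (F : SimpleGraph (Fin m)) (hF : F.IsAcyclic) (r : ℕ) :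
    ∃ f : ℕ → ℕ, ∀ (V : Type) [Fintype V] (G : SimpleGraph V) (Γ : Type) [CommGroup Γ]
      [MulAction Γ V], (∀ (g : Γ) (v w : V), G.Adj v w → G.Adj (g • v) (g • w)) →
      Nat.card (MulAction.orbitRel.Quotient Γ V) ≤ r → ¬ F.IsIndContained G →
      G.Colorable (f G.cliqueNum) := by
  obtain ⟨f₀, h₀⟩ := fin_forest hb F hF
  exact orb_of_cayley F f₀ h₀ r

end Pool.Agent.K4H78.GA
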