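import Pool.Agent.TH346.CG.Defs2
import Pool.Agent.TH521.CG.Pick
import Pool.Agent.TH424.CG.Cov2

/-!
# Local version of the structured subset lemma, and of the covering lemma
-/

set_option autoImplicit false

open Finset
open scoped Pointwise

namespace Pool.Agent.K4H78.GA

open Pool.Agent.TH346.CG Pool.Agent.TH521.CG

/-- energy from a pair count -/
theorem energyY {Γ : Type} [AddCommGroup Γ] [DecidableEq Γ] (X Y : Finset Γ) (hX : X.Nonempty)
    (t : Γ) (q C : ℕ) (hY : Y.card ≤ C * X.card)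
    (h : X.card ^ 2 ≤ q * ((X ×ˢ X).filter (fun p => p.1 + p.2 + t ∈ Y)).card) :
    X.card ^ 3 ≤ (q ^ 2 * C) * X.addEnergy X := by
  classical
  obtain ⟨r, hr⟩ : ∃ r : Γ → ℕ, ∀ s, r s = ((X ×ˢ X).filter (fun p => p.1 + p.2 = s)).card :=
    ⟨_, fun s => rfl⟩
  have hC : ((X ×ˢ X).filter (fun p => p.1 + p.2 + t ∈ Y)).card = ∑ y ∈ Y, r (y - t) := by
    have h0 := Finset.card_eq_sum_card_fiberwise (f := fun p : Γ × Γ => p.1 + p.2 + t)
      (s := (X ×ˢ X).filter (fun p => p.1 + p.2 + t ∈ Y)) (t := Y)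
      (fun p hp => by
        rw [Finset.mem_coe, Finset.mem_filter] at hp
        exact Finset.mem_coe.2 hp.2)
    rw [h0]
    refine Finset.sum_congr rfl fun s hs => ?_
    rw [Finset.filter_filter, hr]
    congr 1
    refine Finset.filter_congr fun p _ => ?_
    constructor
    · intro h0
      rw [← h0.2]; abel
    · intro h0
      have h1 : p.1 + p.2 + t = s := by rw [h0]; abel
      exact ⟨by rw [h1]; exact hs, h1⟩
  have hE : ∑ y ∈ Y, r (y - t) ^ 2 ≤ X.addEnergy X := by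
    rw [Finset.addEnergy_eq_sum_sq']
    have h1 : ∑ y ∈ Y, r (y - t) ^ 2 = ∑ s ∈ Y.image (fun y => y - t), r s ^ 2 := by
      rw [Finset.sum_image (fun a _ b _ hab => sub_left_injective hab)]
    rw [h1]
    have h2 : ∑ s ∈ Y.image (fun y => y - t), r s ^ 2 =
        ∑ s ∈ Y.image (fun y => y - t) ∩ (X + X), r s ^ 2 := by
      symm
      refine Finset.sum_subset Finset.inter_subset_left fun s hs hs' => ?_
      have h2 : r s = 0 := by
        rw [hr]
        simp only [Finset.card_eq_zero, Finset.filter_eq_empty_iff]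
        intro p hp hps
        rw [Finset.mem_product] at hp
        apply hs'
        rw [Finset.mem_inter]
        exact ⟨hs, by rw [← hps]; exact Finset.add_mem_add hp.1 hp.2⟩
      rw [h2]
      norm_num
    rw [h2]
    refine le_trans (Finset.sum_le_sum_of_subset (t := X + X) Finset.inter_subset_right) ?_
    refine Finset.sum_le_sum fun s _ => ?_
    rw [hr]
  have hcs : (∑ y ∈ Y, r (y - t)) ^ 2 ≤ Y.card * ∑ y ∈ Y, r (y - t) ^ 2 := sq_sum_le_card_mul_sum_sq
  rw [hC] at h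
  have h1 : X.card * X.card ^ 3 ≤ X.card * (q ^ 2 * C * X.addEnergy X) := by
    calc X.card * X.card ^ 3 = (X.card ^ 2) ^ 2 := by ring
      _ ≤ (q * ∑ y ∈ Y, r (y - t)) ^ 2 := Nat.pow_le_pow_left h 2
      _ = q ^ 2 * (∑ y ∈ Y, r (y - t)) ^ 2 := by ring
      _ ≤ q ^ 2 * (Y.card * ∑ y ∈ Y, r (y - t) ^ 2) := Nat.mul_le_mul_left _ hcs
      _ ≤ q ^ 2 * ((C * X.card) * X.addEnergy X) :=
        Nat.mul_le_mul_left _ (Nat.mul_le_mul hY hE)
      _ = X.card * (q ^ 2 * C * X.addEnergy X) := by ring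
  exact Nat.le_of_mul_le_mul_left h1 hX.card_pos

theorem pickXY (M K k L C : ℕ) : ∃ c K' k' : ℕ, ∀ (Γ : Type) [AddCommGroup Γ] [Fintype Γ]
    [DecidableEq Γ] (A A₁ V X Y : Finset Γ), -X = X → 0 ∈ V →
    (∀ a : Fin M → Γ, (∀ i, a i ∈ X) →
      ∃ ε : Fin M → SignType, 2 ≤ (univ.filter (fun i => ε i ≠ 0)).card ∧
        (∑ i, ((ε i : SignType) : ℤ) • a i) ∈ A ∪ {0}) → Cov A₁ K k L V → X.Nonempty → X ⊆ A \ V → X ⊆ A₁ → Y.card ≤ C * X.card →
    (∀ a : Fin M → Γ, (∀ i, a i ∈ X) → ∀ ε : Fin M → SignType,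
      (∑ i, ((ε i : SignType) : ℤ) • a i) ∈ A → (∑ i, ((ε i : SignType) : ℤ) • a i) ∉ V →
      (∑ i, ((ε i : SignType) : ℤ) • a i) ∈ Y) →
    ∃ (B B₀ : Finset Γ) (g : Γ), B ⊆ X ∧ B.Nonempty ∧ X.card ≤ c * B.card ∧
      B₀ ⊆ A₁ ∧ B₀.Nonempty ∧ (B₀ - B₀).card ≤ K' * B₀.card ∧
      ∀ b ∈ B, b - g ∈ ks k' (B₀ - B₀) := by
  classical
  obtain ⟨q, hq⟩ : ∃ q : ℕ, q = 3 ^ M * (L + 1) := ⟨_, rfl⟩
  have hq1 : 1 ≤ q := by rw [hq]; exact Nat.one_le_iff_ne_zero.mpr (by positivity)
  obtain ⟨Q, hQ⟩ : ∃ Q : ℕ, Q = q ^ 2 * (C + 1) := ⟨_, rfl⟩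
  have hQ1 : 1 ≤ Q := by rw [hQ]; exact Nat.one_le_iff_ne_zero.mpr (by positivity)
  have hqQ : q ≤ Q := by
    rw [hQ]
    calc q ≤ q ^ 2 := Nat.le_self_pow (by norm_num) q
      _ ≤ q ^ 2 * (C + 1) := Nat.le_mul_of_pos_right _ (by omega)
  refine ⟨8 * Q, K + 2 ^ 22 * Q ^ 10, k + 1, ?_⟩
  intro Γ _ _ dΓ A A₁ V X Y hXneg h0 hP hcov hne hXA hXA₁ hY hXY
  obtain ⟨s, hsL, hs, hcovs⟩ := hcov
  obtain ⟨T, hT⟩ : ∃ T : Finset (Fin M → Γ), T = Fintype.piFinset (fun _ : Fin M => X) := ⟨_, rfl⟩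
  have hTne : T.Nonempty := by
    obtain ⟨x, hx⟩ := hne
    exact ⟨fun _ => x, by rw [hT]; exact Fintype.mem_piFinset.mpr fun _ => hx⟩
  obtain ⟨S, hS⟩ : ∃ S : (Fin M → SignType) → (Fin M → Γ) → Γ,
      S = fun ε a => ∑ i, ((ε i : SignType) : ℤ) • a i := ⟨_, rfl⟩
  -- the sets of the pigeonhole
  obtain ⟨f, hf⟩ : ∃ f : ((Fin M → SignType) × Option (Γ × Finset Γ)) → Finset (Fin M → Γ),
    f = fun z => T.filter (fun a => 2 ≤ (univ.filter (fun i => z.1 i ≠ 0)).card ∧
      match z.2 with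
      | none => S z.1 a ∈ Y
      | some p => S z.1 a - p.1 ∈ ks k (p.2 - p.2)) := ⟨_, rfl⟩
  have hpig : ∃ z ∈ (univ : Finset (Fin M → SignType)) ×ˢ (Finset.insertNone s),
      T.card ≤ q * (T ∩ f z).card := by
    apply pig T _ f q hTne
    · intro a ha
      have ha' : ∀ i, a i ∈ X := by
        rw [hT] at ha
        exact Fintype.mem_piFinset.mp ha
      obtain ⟨ε, hε2, hε⟩ := hP a ha'
      have hε' : S ε a ∈ Y ∨ S ε a ∈ V := by
        rw [mem_union, mem_singleton] at hε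
        by_cases hv : S ε a ∈ V
        · exact Or.inr hv
        · rcases hε with h | h
          · left
            rw [hS] at hv ⊢
            exact hXY a ha' ε h hv
          · exact absurd (by rw [hS]; simp only; rw [h]; exact h0) hv
      rcases hε' with h | h
      · refine ⟨(ε, none), ?_, ?_⟩
        · rw [mem_product]
          exact ⟨mem_univ _, by simp⟩
        · rw [hf]
          simp only [mem_filter]
          exact ⟨ha, hε2, h⟩
      · obtain ⟨p, hp, hpx⟩ := hcovs _ h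
        refine ⟨(ε, some p), ?_, ?_⟩
        · rw [mem_product]
          exact ⟨mem_univ _, by simpa using hp⟩
        · rw [hf]
          simp only [mem_filter]
          exact ⟨ha, hε2, hpx⟩
    · rw [card_product, Finset.card_insertNone, hq]
      have : (univ : Finset (Fin M → SignType)).card = 3 ^ M := by
        rw [Finset.card_univ, Fintype.card_fun, Fintype.card_fin]
        rfl
      rw [this]
      exact Nat.mul_le_mul_left _ (by omega)
  obtain ⟨⟨ε, tag⟩, hz, hzc⟩ := hpig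
  have hTf : T ∩ f (ε, tag) = f (ε, tag) := by
    rw [hf]
    exact inter_eq_right.mpr (filter_subset _ _)
  rw [hTf] at hzc
  have hTpos : 0 < T.card := hTne.card_pos
  have hfne : (f (ε, tag)).Nonempty := by
    rw [← card_pos]
    by_contra hcon
    have : (f (ε, tag)).card = 0 := by omega
    rw [this] at hzc
    omega
  obtain ⟨a₀, ha₀⟩ := hfne
  have hsupp : 2 ≤ (univ.filter (fun i => ε i ≠ 0)).card := by
    rw [hf] at ha₀
    simp only [mem_filter] at ha₀
    exact ha₀.2.1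
  cases tag with
  | some p =>
    have hp : p ∈ s := by
      rw [mem_product] at hz
      simpa using hz.2
    obtain ⟨hpA, hpne, hpK⟩ := hs p hp
    obtain ⟨i₀, hi₀⟩ : ∃ i₀, ε i₀ ≠ 0 := by
      have : (univ.filter (fun i => ε i ≠ 0)).Nonempty := by
        rw [← card_pos]; omega
      obtain ⟨i, hi⟩ := this
      exact ⟨i, (mem_filter.mp hi).2⟩
    obtain ⟨F, hF⟩ : ∃ F : (Fin M → Γ) → ℕ,
      F = fun a => if S ε a - p.1 ∈ ks k (p.2 - p.2) then 1 else 0 := ⟨_, rfl⟩
    have hFsum : (f (ε, some p)).card ≤ ∑ a ∈ T, F a := by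
      rw [hF, ← card_filter]
      apply card_le_card
      intro a ha
      rw [hf] at ha
      simp only [mem_filter] at ha ⊢
      exact ⟨ha.1, ha.2.2⟩
    have havg := avg X i₀ F
    rw [← hT] at havg
    obtain ⟨a, haT, ha⟩ := exists_of_sum T (fun a => ∑ x ∈ X, F (Function.update a i₀ x)) q X.card
      hTne (by
        rw [havg]
        calc T.card * X.card ≤ (q * ∑ a ∈ T, F a) * X.card :=
              Nat.mul_le_mul_right _ (hzc.trans (Nat.mul_le_mul_left _ hFsum))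
          _ = q * (X.card * ∑ a ∈ T, F a) := by ring)
    have hBc : ∑ x ∈ X, F (Function.update a i₀ x) =
        (X.filter (fun x => S ε (Function.update a i₀ x) - p.1 ∈ ks k (p.2 - p.2))).card := by
      rw [hF, ← card_filter]
    obtain ⟨B, hB⟩ : ∃ B : Finset Γ,
      B = X.filter (fun x => S ε (Function.update a i₀ x) - p.1 ∈ ks k (p.2 - p.2)) := ⟨_, rfl⟩
    have ha' : X.card ≤ q * B.card := by
      have := ha
      rw [hBc] at this
      rw [hB]
      exact this
    have hBne : B.Nonempty := by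
      rw [← card_pos]
      by_contra hcon
      have h1 : B.card = 0 := by omega
      rw [h1] at ha'
      have := hne.card_pos
      omega
    obtain ⟨rest, hrest⟩ : ∃ rest : Γ, rest = S ε a - ((ε i₀ : SignType) : ℤ) • a i₀ := ⟨_, rfl⟩
    refine ⟨B, p.2, ((ε i₀ : SignType) : ℤ) • (p.1 - rest), ?_, hBne, ?_, hpA, hpne,
      ?_, ?_⟩
    · rw [hB]; exact filter_subset _ _
    · exact ha'.trans (Nat.mul_le_mul_right _ (by omega))
    · exact hpK.trans (Nat.mul_le_mul_right _ (by omega))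
    · intro b hb
      rw [hB, mem_filter] at hb
      have h1 := hb.2
      have h2 : S ε (Function.update a i₀ b) = ((ε i₀ : SignType) : ℤ) • b + rest := by
        rw [hrest, hS]
        simp only
        rw [sum_upd]
      rw [h2] at h1
      have hks := neg_ks (neg_diff p.2) k
      have h3 := sgn_mem hks hi₀ h1
      have h4 : ((ε i₀ : SignType) : ℤ) • (((ε i₀ : SignType) : ℤ) • b + rest - p.1) =
          b - ((ε i₀ : SignType) : ℤ) • (p.1 - rest) := by
        have h5 := sgn_sgn hi₀ b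
        rw [show ((ε i₀ : SignType) : ℤ) • b + rest - p.1 =
          ((ε i₀ : SignType) : ℤ) • b - (p.1 - rest) by abel, smul_sub, h5]
      rw [h4] at h3
      exact ks_mono (zero_mem_diff hpne) (Nat.le_succ k) h3
  | none =>
    obtain ⟨F, hF⟩ : ∃ F : (Fin M → Γ) → ℕ, F = fun a => if S ε a ∈ Y then 1 else 0 := ⟨_, rfl⟩
    have hFsum : (f (ε, none)).card ≤ ∑ a ∈ T, F a := by
      rw [hF, ← card_filter]
      apply card_le_card
      intro a ha
      rw [hf] at ha
      simp only [mem_filter] at ha ⊢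
      exact ⟨ha.1, ha.2.2⟩
    obtain ⟨i, hi, j, hj, hij⟩ := Finset.one_lt_card.1 (by omega :
      1 < (univ.filter (fun i => ε i ≠ 0)).card)
    have hi' : ε i ≠ 0 := (mem_filter.mp hi).2
    have hj' : ε j ≠ 0 := (mem_filter.mp hj).2
    obtain ⟨F1, hF1⟩ : ∃ F1 : (Fin M → Γ) → ℕ, F1 = fun a => ∑ y ∈ X, F (Function.update a j y) :=
      ⟨_, rfl⟩
    obtain ⟨F2, hF2⟩ : ∃ F2 : (Fin M → Γ) → ℕ, F2 = fun a => ∑ x ∈ X, F1 (Function.update a i x) :=
      ⟨_, rfl⟩
    have e1 : ∑ a ∈ T, F1 a = X.card * ∑ a ∈ T, F a := by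
      rw [hF1, hT]
      exact avg X j F
    have e2 : ∑ a ∈ T, F2 a = X.card * ∑ a ∈ T, F1 a := by
      rw [hF2, hT]
      exact avg X i F1
    obtain ⟨a, haT, ha⟩ := exists_of_sum T F2 q (X.card ^ 2) hTne (by
      rw [e2, e1]
      calc T.card * X.card ^ 2 ≤ (q * ∑ a ∈ T, F a) * X.card ^ 2 :=
            Nat.mul_le_mul_right _ (hzc.trans (Nat.mul_le_mul_left _ hFsum))
        _ = q * (X.card * (X.card * ∑ a ∈ T, F a)) := by ring)
    obtain ⟨t, ht⟩ : ∃ t : Γ, t = S ε a - ((ε i : SignType) : ℤ) • a i -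
      ((ε j : SignType) : ℤ) • a j := ⟨_, rfl⟩
    have hSup : ∀ x y : Γ, S ε (Function.update (Function.update a i x) j y)
        = ((ε i : SignType) : ℤ) • x + ((ε j : SignType) : ℤ) • y + t := by
      intro x y
      rw [hS] at ht ⊢
      simp only
      rw [sum_upd, sum_upd, Function.update_of_ne hij.symm, ht]
      abel
    have hF2c : F2 a = ((X ×ˢ X).filter (fun p =>
        ((ε i : SignType) : ℤ) • p.1 + ((ε j : SignType) : ℤ) • p.2 + t ∈ Y)).card := by
      rw [card_filter, Finset.sum_product]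
      rw [hF2]
      simp only [hF1, hF, hSup]
    have hle : F2 a ≤ ((X ×ˢ X).filter (fun p => p.1 + p.2 + t ∈ Y)).card := by
      rw [hF2c]
      refine Finset.card_le_card_of_injOn (fun p => (((ε i : SignType) : ℤ) • p.1,
        ((ε j : SignType) : ℤ) • p.2)) ?_ ?_
      · intro p hp
        simp only [coe_filter, mem_product, Set.mem_ofPred_eq] at hp ⊢
        exact ⟨⟨sgn_mem hXneg hi' hp.1.1, sgn_mem hXneg hj' hp.1.2⟩, hp.2⟩
      · intro p _ p' _ hpp
        simp only [Prod.mk.injEq] at hpp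
        obtain ⟨h1, h2⟩ := hpp
        have g1 := sgn_sgn hi' p.1
        have g1' := sgn_sgn hi' p'.1
        have g2 := sgn_sgn hj' p.2
        have g2' := sgn_sgn hj' p'.2
        rw [h1, g1'] at g1
        rw [h2, g2'] at g2
        exact Prod.ext g1.symm g2.symm
    have hen := energyY X Y hne t q (C + 1) (hY.trans (Nat.mul_le_mul_right _ (by omega)))
      (ha.trans (Nat.mul_le_mul_left _ hle))
    rw [← hQ] at hen
    obtain ⟨B, hBX, hBne, hBc, hBB⟩ := Pool.Agent.H217R3.AK.bsg X hne (Q : ℝ)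
      (by exact_mod_cast hQ1) (by exact_mod_cast hen)
    obtain ⟨g, hg⟩ := id hBne
    have hBc' : X.card ≤ 8 * Q * B.card := by exact_mod_cast hBc
    refine ⟨B, B, g, hBX, hBne, hBc', hBX.trans hXA₁, hBne, ?_, ?_⟩
    · have h1 : (B - B).card ≤ 2 ^ 22 * Q ^ 10 * B.card := by exact_mod_cast hBB
      exact h1.trans (Nat.mul_le_mul_right _ (by omega))
    · intro b hb
      have h1 : b - g ∈ ks 1 (B - B) := by
        show b - g ∈ ks 0 (B - B) + (B - B)
        show b - g ∈ ({0} : Finset Γ) + (B - B)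
        have h2 := Finset.add_mem_add (mem_singleton_self (0 : Γ)) (Finset.sub_mem_sub hb hg)
        simpa using h2
      exact ks_mono (zero_mem_diff hBne) (by omega) h1

section cov

variable {Γ : Type} [AddCommGroup Γ] [DecidableEq Γ] [Fintype Γ]

theorem halfV (A₁ V B : Finset Γ) (f : Γ → Γ) (K k q : ℕ) (s : Finset (Γ × Finset Γ))
    (hs : ∀ p ∈ s, p.2 ⊆ A₁ ∧ p.2.Nonempty ∧ (p.2 - p.2).card ≤ K * p.2.card)
    (hsV : ∀ x ∈ V, ∃ p ∈ s, x - p.1 ∈ ks k (p.2 - p.2))
    (hBne : B.Nonempty) :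
    ∃ s' : Finset (Γ × Finset Γ), s'.card ≤ s.card * (q * s.card) ∧
      (∀ p ∈ s', p.2 ⊆ A₁ ∧ p.2.Nonempty ∧ (p.2 - p.2).card ≤ K * p.2.card) ∧
      ∀ z, B.card ≤ q * (B.filter (fun b => z + f b ∈ V)).card →
        ∃ p ∈ s', z - p.1 ∈ ks (2 * k) (p.2 - p.2) := by
  classical
  have hp : ∀ p : Γ × Finset Γ, ∃ Yp : Finset Γ, p ∈ s → Yp.card ≤ q * s.card ∧
      ∀ z, B.card ≤ q * s.card *
        (B.filter (fun b => z + f b - p.1 ∈ ks k (p.2 - p.2))).card →
        ∃ y ∈ Yp, z - y ∈ ks (2 * k) (p.2 - p.2) := by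
    intro p
    by_cases hps : p ∈ s
    · obtain ⟨Yp, h1, h2⟩ := Pool.Agent.TH424.CG.partB B (ks k (p.2 - p.2))
        (ks (2 * k) (p.2 - p.2)) f (q * s.card) p.1 hBne
        (fun x hx y hy => Pool.Agent.TH424.CG.ks_sub p.2 (hs p hps).2.1 k _ (by omega) x y hx hy)
      exact ⟨Yp, fun _ => ⟨h1, h2⟩⟩
    · exact ⟨∅, fun h => absurd h hps⟩
  choose Yp hYp using hp
  refine ⟨s.biUnion (fun p => (Yp p).image (fun y => (y, p.2))), ?_, ?_, ?_⟩
  · refine card_biUnion_le.trans ?_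
    calc ∑ p ∈ s, ((Yp p).image (fun y => (y, p.2))).card ≤ ∑ _p ∈ s, q * s.card :=
          sum_le_sum fun p hps => card_image_le.trans (hYp p hps).1
      _ = s.card * (q * s.card) := by rw [sum_const, smul_eq_mul]
  · intro p hp
    rw [mem_biUnion] at hp
    obtain ⟨p', hp', h⟩ := hp
    rw [mem_image] at h
    obtain ⟨y, -, rfl⟩ := h
    exact hs p' hp'
  · intro z hz
    have h1 : (B.filter (fun b => z + f b ∈ V)).card ≤
        ∑ p ∈ s, (B.filter (fun b => z + f b - p.1 ∈ ks k (p.2 - p.2))).card := by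
      refine (card_le_card ?_).trans card_biUnion_le
      intro b hb
      rw [mem_filter] at hb
      obtain ⟨p, hps, hpx⟩ := hsV _ hb.2
      rw [mem_biUnion]
      exact ⟨p, hps, mem_filter.2 ⟨hb.1, hpx⟩⟩
    have h2 : ∃ p ∈ s, B.card ≤ q * s.card *
        (B.filter (fun b => z + f b - p.1 ∈ ks k (p.2 - p.2))).card := by
      by_contra hcon
      push Not at hcon
      have hpos := hBne.card_pos
      rcases s.eq_empty_or_nonempty with hse | hse
      · rw [hse, sum_empty] at h1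
        have h3 : (B.filter (fun b => z + f b ∈ V)).card = 0 := by omega
        rw [h3, mul_zero] at hz
        omega
      · have h3 : ∑ p ∈ s, q * s.card *
            (B.filter (fun b => z + f b - p.1 ∈ ks k (p.2 - p.2))).card < ∑ _p ∈ s, B.card :=
          sum_lt_sum_of_nonempty hse hcon
        rw [← mul_sum, sum_const, smul_eq_mul] at h3
        have h4 : s.card * B.card ≤ s.card * (q *
            ∑ p ∈ s, (B.filter (fun b => z + f b - p.1 ∈ ks k (p.2 - p.2))).card) :=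
          Nat.mul_le_mul_left _ (hz.trans (Nat.mul_le_mul_left _ h1))
        have h5 : s.card * (q *
            ∑ p ∈ s, (B.filter (fun b => z + f b - p.1 ∈ ks k (p.2 - p.2))).card) =
            q * s.card *
            ∑ p ∈ s, (B.filter (fun b => z + f b - p.1 ∈ ks k (p.2 - p.2))).card := by ring
        rw [h5] at h4
        omega
    obtain ⟨p, hps, h3⟩ := h2
    obtain ⟨y, hy, h4⟩ := (hYp p hps).2 z h3
    exact ⟨(y, p.2), mem_biUnion.2 ⟨p, hps, mem_image_of_mem _ hy⟩, h4⟩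

/-- counting -/
theorem four_cases (AU V B : Finset Γ) (j : ℕ) (z : Γ) (hz : z ∈ Vn j AU V B) (hzV : z ∉ V) :
    B.card ≤ 3 ^ j * ((B.filter (fun b => z + b ∈ AU \ V)).card +
      (B.filter (fun b => z + b ∈ V)).card + ((B.filter (fun b => z + -b ∈ AU \ V)).card +
      (B.filter (fun b => z + -b ∈ V)).card)) := by
  simp only [Vn, mem_union, mem_filter, mem_univ, true_and] at hz
  have hz1 := hz.resolve_left hzV
  refine hz1.trans (Nat.mul_le_mul_left (3 ^ j) ?_)
  refine le_trans (card_le_card (t := (B.filter (fun b => z + b ∈ AU \ V) ∪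
    B.filter (fun b => z + b ∈ V)) ∪ (B.filter (fun b => z + -b ∈ AU \ V) ∪
    B.filter (fun b => z + -b ∈ V))) ?_) ?_
  · intro b hb
    simp only [mem_union, mem_filter, mem_sdiff, ← sub_eq_add_neg] at hb ⊢
    tauto
  · exact (card_union_le _ _).trans (Nat.add_le_add (card_union_le _ _) (card_union_le _ _))

/-- the covering of the next set after a fast step -/
theorem cov_fast (A₁ AU V B : Finset Γ) (K k L j : ℕ) (hcov : Cov A₁ K k L V) (hBne : B.Nonempty)
    (hY : 4 * 3 ^ j * (AU \ V).card ≤ B.card) :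
    Cov A₁ K (2 * k) (L + 8 * 3 ^ j * L ^ 2) (Vn j AU V B) := by
  classical
  obtain ⟨s, hsL, hs, hsV⟩ := hcov
  obtain ⟨s1, h1a, h1b, h1c⟩ := halfV A₁ V B (fun b => b) K k (4 * 3 ^ j) s hs hsV hBne
  obtain ⟨s2, h2a, h2b, h2c⟩ := halfV A₁ V B (fun b => -b) K k (4 * 3 ^ j) s hs hsV hBne
  refine ⟨s ∪ (s1 ∪ s2), ?_, ?_, ?_⟩
  · have h3 : (s ∪ (s1 ∪ s2)).card ≤ s.card + (s1.card + s2.card) :=
      (card_union_le _ _).trans (Nat.add_le_add_left (card_union_le _ _) _)
    have h4 : s.card * (4 * 3 ^ j * s.card) ≤ L * (4 * 3 ^ j * L) :=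
      Nat.mul_le_mul hsL (Nat.mul_le_mul_left _ hsL)
    have h5 : L + 8 * 3 ^ j * L ^ 2 = L + (L * (4 * 3 ^ j * L) + L * (4 * 3 ^ j * L)) := by
      ring
    rw [h5]
    omega
  · intro p hp
    rw [mem_union, mem_union] at hp
    rcases hp with hp | hp | hp
    · exact hs p hp
    · exact h1b p hp
    · exact h2b p hp
  · intro z hz
    by_cases hzV : z ∈ V
    · obtain ⟨p, hps, hpz⟩ := hsV z hzV
      exact ⟨p, mem_union_left _ hps, Pool.Agent.TH424.CG.ks_mono _
        (Pool.Agent.TH424.CG.zero_mem_diff _ (hs p hps).2.1) _ _ (by omega) _ hpz⟩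
    · have h3 := four_cases AU V B j z hz hzV
      have hY1 : (B.filter (fun b => z + b ∈ AU \ V)).card ≤ (AU \ V).card := by
        refine Finset.card_le_card_of_injOn (fun b => z + b) ?_ ?_
        · intro b hb
          rw [Finset.mem_coe, mem_filter] at hb
          exact hb.2
        · intro a _ b _ hab
          exact add_left_cancel hab
      have hY2 : (B.filter (fun b => z + -b ∈ AU \ V)).card ≤ (AU \ V).card := by
        refine Finset.card_le_card_of_injOn (fun b => z + -b) ?_ ?_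
        · intro b hb
          rw [Finset.mem_coe, mem_filter] at hb
          exact hb.2
        · intro a _ b _ hab
          exact neg_injective (add_left_cancel hab)
      have h4 : B.card ≤ 4 * 3 ^ j * (B.filter (fun b => z + b ∈ V)).card ∨
          B.card ≤ 4 * 3 ^ j * (B.filter (fun b => z + -b ∈ V)).card := by
        by_contra hcon
        push Not at hcon
        obtain ⟨e2, e4⟩ := hcon
        have h5 : 3 ^ j * (B.filter (fun b => z + b ∈ AU \ V)).card ≤ 3 ^ j * (AU \ V).card :=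
          Nat.mul_le_mul_left _ hY1
        have h6 : 3 ^ j * (B.filter (fun b => z + -b ∈ AU \ V)).card ≤ 3 ^ j * (AU \ V).card :=
          Nat.mul_le_mul_left _ hY2
        nlinarith
      rcases h4 with h4 | h4
      · obtain ⟨p, hp, hpz⟩ := h1c z h4
        exact ⟨p, mem_union_right _ (mem_union_left _ hp), hpz⟩
      · obtain ⟨p, hp, hpz⟩ := h2c z h4
        exact ⟨p, mem_union_right _ (mem_union_right _ hp), hpz⟩

/-- the covering of the next set after a slow step -/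
theorem cov_slow (A₁ AU V B B₀ : Finset Γ) (g : Γ) (K K' k k' L c j : ℕ)
    (hcov : Cov A₁ K k L V) (hBne : B.Nonempty) (hX : (AU \ V).Nonempty)
    (hc : (AU \ V).card ≤ c * B.card) (hB₀ : B₀ ⊆ A₁) (hB₀ne : B₀.Nonempty)
    (hK' : (B₀ - B₀).card ≤ K' * B₀.card) (hBg : ∀ b ∈ B, b - g ∈ ks k' (B₀ - B₀)) :
    Cov A₁ (max K K') (2 * (k + k')) (L + 8 * c * 3 ^ j + 8 * 3 ^ j * L ^ 2) (Vn j AU V B) := by
  classical
  obtain ⟨s, hsL, hs, hsV⟩ := hcov
  obtain ⟨s1, h1a, h1b, h1c⟩ := halfV A₁ V B (fun b => b) K k (4 * 3 ^ j) s hs hsV hBne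
  obtain ⟨s2, h2a, h2b, h2c⟩ := halfV A₁ V B (fun b => -b) K k (4 * 3 ^ j) s hs hsV hBne
  obtain ⟨Y1, g1a, g1b⟩ := Pool.Agent.TH424.CG.partA (AU \ V) B (ks (2 * (k + k')) (B₀ - B₀))
    (fun b => b) (fun a b h => h) c (4 * 3 ^ j) hc hX (fun b hb b' hb' => by
      have : b' - b = (b' - g) - (b - g) := by abel
      rw [this]
      exact Pool.Agent.TH424.CG.ks_sub B₀ hB₀ne k' _ (by omega) _ _ (hBg b' hb') (hBg b hb))
  obtain ⟨Y2, g2a, g2b⟩ := Pool.Agent.TH424.CG.partA (AU \ V) B (ks (2 * (k + k')) (B₀ - B₀))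
    (fun b => -b) neg_injective c (4 * 3 ^ j) hc hX (fun b hb b' hb' => by
      have : -b' - -b = (b - g) - (b' - g) := by abel
      rw [this]
      exact Pool.Agent.TH424.CG.ks_sub B₀ hB₀ne k' _ (by omega) _ _ (hBg b hb) (hBg b' hb'))
  refine ⟨(s ∪ (s1 ∪ s2)) ∪ (Y1 ∪ Y2).image (fun y => (y, B₀)), ?_, ?_, ?_⟩
  · have h3 : (s ∪ (s1 ∪ s2)).card ≤ s.card + (s1.card + s2.card) :=
      (card_union_le _ _).trans (Nat.add_le_add_left (card_union_le _ _) _)
    have h4 : s.card * (4 * 3 ^ j * s.card) ≤ L * (4 * 3 ^ j * L) :=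
      Nat.mul_le_mul hsL (Nat.mul_le_mul_left _ hsL)
    have h5 : L + 8 * c * 3 ^ j + 8 * 3 ^ j * L ^ 2 =
        L + (L * (4 * 3 ^ j * L) + L * (4 * 3 ^ j * L)) + (c * (4 * 3 ^ j) + c * (4 * 3 ^ j)) := by
      ring
    have h6 : ((Y1 ∪ Y2).image (fun y => (y, B₀))).card ≤ Y1.card + Y2.card :=
      card_image_le.trans (card_union_le _ _)
    have h7 := card_union_le (s ∪ (s1 ∪ s2)) ((Y1 ∪ Y2).image (fun y => (y, B₀)))
    rw [h5]
    omega
  · intro p hp
    rw [mem_union, mem_union, mem_union] at hp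
    rcases hp with (hp | hp | hp) | hp
    · exact ⟨(hs p hp).1, (hs p hp).2.1,
        (hs p hp).2.2.trans (Nat.mul_le_mul_right _ (le_max_left _ _))⟩
    · exact ⟨(h1b p hp).1, (h1b p hp).2.1,
        (h1b p hp).2.2.trans (Nat.mul_le_mul_right _ (le_max_left _ _))⟩
    · exact ⟨(h2b p hp).1, (h2b p hp).2.1,
        (h2b p hp).2.2.trans (Nat.mul_le_mul_right _ (le_max_left _ _))⟩
    · rw [mem_image] at hp
      obtain ⟨y, -, rfl⟩ := hp
      exact ⟨hB₀, hB₀ne, hK'.trans (Nat.mul_le_mul_right _ (le_max_right _ _))⟩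
  · intro z hz
    by_cases hzV : z ∈ V
    · obtain ⟨p, hps, hpz⟩ := hsV z hzV
      exact ⟨p, mem_union_left _ (mem_union_left _ hps), Pool.Agent.TH424.CG.ks_mono _
        (Pool.Agent.TH424.CG.zero_mem_diff _ (hs p hps).2.1) _ _ (by omega) _ hpz⟩
    · have h3 := four_cases AU V B j z hz hzV
      have h4 : (B.card ≤ 4 * 3 ^ j * (B.filter (fun b => z + b ∈ AU \ V)).card ∨
          B.card ≤ 4 * 3 ^ j * (B.filter (fun b => z + b ∈ V)).card) ∨
          (B.card ≤ 4 * 3 ^ j * (B.filter (fun b => z + -b ∈ AU \ V)).card ∨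
          B.card ≤ 4 * 3 ^ j * (B.filter (fun b => z + -b ∈ V)).card) := by
        by_contra hcon
        push Not at hcon
        obtain ⟨⟨e1, e2⟩, e3, e4⟩ := hcon
        nlinarith
      rcases h4 with (h4 | h4) | (h4 | h4)
      · obtain ⟨y, hy, h⟩ := g1b z h4
        exact ⟨(y, B₀), mem_union_right _ (mem_image_of_mem _ (mem_union_left _ hy)), h⟩
      · obtain ⟨p, hp, hpz⟩ := h1c z h4
        refine ⟨p, mem_union_left _ (mem_union_right _ (mem_union_left _ hp)), ?_⟩
        exact Pool.Agent.TH424.CG.ks_mono _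
          (Pool.Agent.TH424.CG.zero_mem_diff _ (h1b p hp).2.1) _ _ (by omega) _ hpz
      · obtain ⟨y, hy, h⟩ := g2b z h4
        exact ⟨(y, B₀), mem_union_right _ (mem_image_of_mem _ (mem_union_right _ hy)), h⟩
      · obtain ⟨p, hp, hpz⟩ := h2c z h4
        refine ⟨p, mem_union_left _ (mem_union_right _ (mem_union_right _ hp)), ?_⟩
        exact Pool.Agent.TH424.CG.ks_mono _
          (Pool.Agent.TH424.CG.zero_mem_diff _ (h2b p hp).2.1) _ _ (by omega) _ hpz

end cov

end Pool.Agent.K4H78.GA
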