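import Pool.Agent.K4H78.GA.LP
import Pool.Agent.TH346.CG.Near

/-!
# Colouring a set of generators of small tripling from a colouring of a large set
-/

set_option autoImplicit false

open Finset
open scoped Pointwise

namespace Pool.Agent.K4H78.GA

open Pool.Agent.TH346.CG Pool.Agent.TH346.LG

/-- Colouring all edges with direction in `S` from a colouring of `R`, where `R` contains
`B - B` for a large `B`. -/
theorem region (a : ℕ) (ha : 1 ≤ a) (K N C' : ℕ) : ∃ C : ℕ, ∀ (Γ : Type) [AddCommGroup Γ] [Fintype Γ]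
    [DecidableEq Γ] (S B R : Finset Γ) (c' : Γ → Fin C'), S.Nonempty → -S = S →
    (S + S + S).card ≤ K * S.card → 0 ∈ B → S.card ≤ N * B.card → B - B ⊆ R → -R = R →
    R ⊆ ks a (insert 0 S) → B ⊆ R →
    (∀ u ∈ R, ∀ v ∈ R, v - u ∈ S → c' u ≠ c' v) →
    ∃ c : Γ → Fin C, ∀ u v, v - u ∈ S → c u ≠ c v := by
  classical
  refine ⟨(2 * (4 * K) ^ (a + a + 1 + a - 2) * N + 1) * C', ?_⟩
  intro Γ _ _ _ S B R c' hSne hS hK h0B hN hBR hRn hRT hBR' hc'
  obtain ⟨T, hT⟩ : ∃ T, T = insert 0 S := ⟨_, rfl⟩
  rw [← hT] at hRT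
  have hT0 : (0 : Γ) ∈ T := by rw [hT]; exact Finset.mem_insert_self _ _
  have hTn : -T = T := by rw [hT]; exact insert_neg S hS
  have hST : S ⊆ T := by rw [hT]; exact Finset.subset_insert _ _
  have hBpos : 0 < B.card := Finset.card_pos.2 ⟨0, h0B⟩
  -- maximal family of disjoint translates
  obtain ⟨Pr, hPr⟩ : ∃ Pr : Finset Γ → Prop, ∀ Z, Pr Z ↔
      ∀ z ∈ Z, ∀ z' ∈ Z, z ≠ z' → Disjoint (B.image fun e => z + e) (B.image fun e => z' + e) :=
    ⟨_, fun Z => Iff.rfl⟩
  have hne : ((Finset.univ : Finset (Finset Γ)).filter Pr).Nonempty :=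
    ⟨∅, Finset.mem_filter.2 ⟨Finset.mem_univ _, (hPr ∅).2 (by simp)⟩⟩
  obtain ⟨Z, hZ, hmax⟩ := Finset.exists_max_image _ Finset.card hne
  have hZd := (hPr Z).1 (Finset.mem_filter.1 hZ).2
  have hnear : ∀ u : Γ, ∃ z ∈ Z, u - z ∈ R := by
    intro u
    by_cases huZ : u ∈ Z
    · refine ⟨u, huZ, ?_⟩
      apply hBR
      rw [sub_self]
      have := Finset.sub_mem_sub h0B h0B
      rwa [sub_self] at this
    · by_contra hnone
      push Not at hnone
      have hdis : ∀ z ∈ Z, Disjoint (B.image fun e => u + e) (B.image fun e => z + e) := by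
        intro z hz
        rw [Finset.disjoint_left]
        intro x hx hx'
        obtain ⟨e, he, hxe⟩ := Finset.mem_image.1 hx
        obtain ⟨e', he', hxe'⟩ := Finset.mem_image.1 hx'
        apply hnone z hz
        apply hBR
        have h1 : u - z = e' - e := by
          have h2 : z + e' = u + e := hxe'.trans hxe.symm
          have h3 : u = z + e' - e := by rw [h2]; abel
          rw [h3]; abel
        rw [h1]
        exact Finset.sub_mem_sub he' he
      have h2 : insert u Z ∈ (Finset.univ : Finset (Finset Γ)).filter Pr := by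
        rw [Finset.mem_filter, hPr]
        refine ⟨Finset.mem_univ _, ?_⟩
        intro x hx y hy hxy
        rcases Finset.mem_insert.1 hx with h | h
        · rcases Finset.mem_insert.1 hy with h' | h'
          · exact absurd (h.trans h'.symm) hxy
          · rw [h]; exact hdis y h'
        · rcases Finset.mem_insert.1 hy with h' | h'
          · rw [h']; exact (hdis x h).symm
          · exact hZd x h y h' hxy
      have h3 := hmax _ h2
      rw [Finset.card_insert_of_notMem huZ] at h3
      omega
  choose z hz hz2 using hnear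
  have hneg2 : ∀ x, x ∈ R → -x ∈ R := by
    intro x hx
    rw [← hRn, Finset.mem_neg', neg_neg]
    exact hx
  -- the region graph
  obtain ⟨κ, hκ⟩ := greedy (X := Z) (fun x y => (y : Γ) - (x : Γ) ∈ ks (a + a + 1) T)
    (by
      intro x y h
      rw [← ks_neg T hTn (a + a + 1), Finset.mem_neg', neg_sub]
      exact h)
    (2 * (4 * K) ^ (a + a + 1 + a - 2) * N + 1) (by
      intro x Y hY
      have h1 : (Y.biUnion fun y => B.image fun e => (y : Γ) + e) ⊆
          (ks (a + a + 1 + a) T).image (fun t => (x : Γ) + t) := by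
        intro t ht
        obtain ⟨y, hy, ht⟩ := Finset.mem_biUnion.1 ht
        obtain ⟨e, he, rfl⟩ := Finset.mem_image.1 ht
        rw [Finset.mem_image]
        refine ⟨(y : Γ) - (x : Γ) + e, ?_, by abel⟩
        have h2 := Finset.add_mem_add (hY y hy) (hRT (hBR' he))
        rwa [ks_add] at h2
      have h2 : (Y.biUnion fun y => B.image fun e => (y : Γ) + e).card = Y.card * B.card := by
        rw [Finset.card_biUnion]
        · rw [Finset.sum_const_nat (m := B.card)]
          intro y _
          exact Finset.card_image_of_injective _ (fun a b h => add_left_cancel h)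
        · intro a _ b _ hab
          exact hZd a a.2 b b.2 (fun h => hab (Subtype.ext h))
      have h3 := (Finset.card_le_card h1).trans Finset.card_image_le
      have h4 := card_ks_T S hS hSne K hK (a + a + 1 + a) (by omega)
      rw [← hT] at h4
      rw [h2] at h3
      have h5 : Y.card * B.card ≤ 2 * (4 * K) ^ (a + a + 1 + a - 2) * N * B.card := by
        calc Y.card * B.card ≤ 2 * (4 * K) ^ (a + a + 1 + a - 2) * S.card := h3.trans h4
          _ ≤ 2 * (4 * K) ^ (a + a + 1 + a - 2) * (N * B.card) := Nat.mul_le_mul_left _ hN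
          _ = _ := by ring
      have h6 := Nat.le_of_mul_le_mul_right h5 hBpos
      omega)
  refine ⟨fun u => finProdFinEquiv (κ ⟨z u, hz u⟩, c' (u - z u)), ?_⟩
  intro u v huvS hcol
  have hcol' := finProdFinEquiv.injective hcol
  have hk : κ ⟨z u, hz u⟩ = κ ⟨z v, hz v⟩ := congrArg Prod.fst hcol'
  have hc : c' (u - z u) = c' (v - z v) := congrArg Prod.snd hcol'
  by_cases hzz : z u = z v
  · refine hc' _ (hz2 u) _ (hz2 v) ?_ hc
    have : v - z v - (u - z u) = v - u := by rw [hzz]; abel
    rw [this]
    exact huvS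
  · refine hκ _ _ ?_ ?_ hk
    · intro h
      exact hzz (congrArg Subtype.val h)
    · show z v - z u ∈ ks (a + a + 1) T
      have h2 : z v - z u = (-(v - z v) + (u - z u)) + (v - u) := by abel
      rw [h2]
      show _ ∈ ks (a + a) T + T
      apply Finset.add_mem_add _ (hST huvS)
      rw [← ks_add T a a]
      exact Finset.add_mem_add (hRT (hneg2 _ (hz2 v))) (hRT (hz2 u))

end Pool.Agent.K4H78.GA
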