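import Pool.Agent.K4H78.GA.Tree
import Pool.Agent.K4H78.GA.Loc
import Pool.Agent.TH321.CG.Red

/-!
# Selection of generic elements
-/

set_option autoImplicit false

open Finset
open scoped Pointwise

namespace Pool.Agent.K4H78.GA

open Pool.Agent.TH346.CG

section

variable {Γ : Type} [AddCommGroup Γ] [DecidableEq Γ]

/-- `l` consists of elements of the sets `B i`, `i ∈ I`, chosen generically, the last one first -/
def Sel (A : Finset Γ) (B U V : ℕ → Finset Γ) : List ℕ → List Γ → Prop
  | [], [] => True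
  | i :: I, b :: l => b ∈ B i ∧
      (∀ w ∈ sg l, w + b ∉ (A ∩ U i) ∪ V i ∧ w - b ∉ (A ∩ U i) ∪ V i) ∧ Sel A B U V I l
  | _, _ => False

theorem Sel.length {A : Finset Γ} {B U V : ℕ → Finset Γ} : ∀ {I : List ℕ} {l : List Γ},
    Sel A B U V I l → l.length = I.length := by
  intro I
  induction I with
  | nil =>
    intro l h
    rcases l with _ | ⟨b, l⟩
    · rfl
    · exact absurd h (by simp [Sel])
  | cons i I ih =>
    intro l h
    rcases l with _ | ⟨b, l⟩
    · exact absurd h (by simp [Sel])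
    · rw [List.length_cons, List.length_cons, ih h.2.2]

theorem Sel.mem {A : Finset Γ} {B U V : ℕ → Finset Γ} {W : Finset Γ} : ∀ {I : List ℕ}
    {l : List Γ}, Sel A B U V I l → (∀ i ∈ I, B i ⊆ W) → ∀ x ∈ l, x ∈ W := by
  intro I
  induction I with
  | nil =>
    intro l h
    rcases l with _ | ⟨b, l⟩
    · intro _ x hx
      exact absurd hx (by simp)
    · exact absurd h (by simp [Sel])
  | cons i I ih =>
    intro l h hB
    rcases l with _ | ⟨b, l⟩
    · exact absurd h (by simp [Sel])
    · intro x hx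
      rcases List.mem_cons.1 hx with h1 | h1
      · rw [h1]
        exact hB i List.mem_cons_self h.1
      · exact ih h.2.2 (fun j hj => hB j (List.mem_cons_of_mem _ hj)) x h1

theorem select [Fintype Γ] (A : Finset Γ) (B U V : ℕ → Finset Γ) (j N : ℕ)
    (hV : ∀ i < N, V (i + 1) = Vn j (A ∩ U i) (V i) (B i))
    (hVn : ∀ i ≤ N, -(V i) = V i)
    (hB : ∀ i < N, (B i).Nonempty ∧ B i ⊆ A \ V i) :
    ∀ I : List ℕ, I.length ≤ j → I.Pairwise (· < ·) → (∀ i ∈ I, i < N) →
      ∀ i₀, i₀ ≤ N → (∀ i ∈ I, i₀ ≤ i) →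
      ∃ l : List Γ, Sel A B U V I l ∧ ∀ w ∈ sg l, w ∉ V i₀ := by
  have hmono1 : ∀ i < N, V i ⊆ V (i + 1) := by
    intro i hi x hx
    rw [hV i hi]
    exact Finset.mem_union_left _ hx
  have hmono : ∀ k i, i + k ≤ N → V i ⊆ V (i + k) := by
    intro k
    induction k with
    | zero => intro i _; exact Finset.Subset.refl _
    | succ k ih =>
      intro i hi
      exact (ih i (by omega)).trans (hmono1 (i + k) (by omega))
  intro I
  induction I with
  | nil =>
    intro _ _ _ i₀ _ _
    exact ⟨[], trivial, fun w hw => by simp [sg] at hw⟩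
  | cons i I ih =>
    intro hlen hsort hN i₀ hi₀ hle
    rw [List.pairwise_cons] at hsort
    rw [List.length_cons] at hlen
    have hiN : i < N := hN i (List.mem_cons_self)
    obtain ⟨l, hl, hlV⟩ := ih (by omega) hsort.2 (fun i' hi' => hN i' (List.mem_cons_of_mem _ hi'))
      (i + 1) (by omega) (fun i' hi' => hsort.1 i' hi')
    have hVneg : ∀ x, -x ∈ V i ↔ x ∈ V i := by
      intro x
      rw [← Finset.mem_neg', hVn i hiN.le]
    have hbad : ∀ w ∈ sg l, 3 ^ j * ((B i).filter (fun b => w + b ∈ (A ∩ U i) ∪ V i ∨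
        w - b ∈ (A ∩ U i) ∪ V i)).card < (B i).card := by
      intro w hw
      have h1 := hlV w hw
      rw [hV i hiN] at h1
      simp only [Vn, Finset.mem_union, Finset.mem_filter, Finset.mem_univ, true_and, not_or,
        not_le] at h1
      simpa only [Finset.mem_union] using h1.2
    obtain ⟨b, hb, hbw⟩ := Pool.Agent.TH321.CG.Red_union (B i) (hB i hiN).1 (sg l) (3 ^ j)
      (by
        have h1 := card_sg l
        rw [hl.length] at h1
        have h2 : 3 ^ I.length ≤ 3 ^ j := Nat.pow_le_pow_right (by norm_num) (by omega)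
        omega)
      (fun w => (B i).filter (fun b => w + b ∈ (A ∩ U i) ∪ V i ∨ w - b ∈ (A ∩ U i) ∪ V i)) hbad
    have hbw' : ∀ w ∈ sg l, w + b ∉ (A ∩ U i) ∪ V i ∧ w - b ∉ (A ∩ U i) ∪ V i := by
      intro w hw
      have h1 := hbw w hw
      rw [Finset.mem_filter] at h1
      constructor
      · intro h2
        exact h1 ⟨hb, Or.inl h2⟩
      · intro h2
        exact h1 ⟨hb, Or.inr h2⟩
    have hbV : b ∉ V i := (Finset.mem_sdiff.1 ((hB i hiN).2 hb)).2
    refine ⟨b :: l, ⟨hb, hbw', hl⟩, ?_⟩
    intro w hw hwV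
    obtain ⟨k, hk⟩ := Nat.exists_eq_add_of_le (hle i List.mem_cons_self)
    have hwVi : w ∈ V i := by
      rw [hk]
      exact hmono k i₀ (by omega) hwV
    rw [mem_sg_cons] at hw
    rcases hw with h | h | h | ⟨w', hw', h⟩ | ⟨w', hw', h⟩
    · exact hlV w h (hmono1 i hiN hwVi)
    · rw [h] at hwVi
      exact hbV hwVi
    · rw [h, hVneg] at hwVi
      exact hbV hwVi
    · apply (hbw' w' hw').1
      rw [h]
      exact Finset.mem_union_right _ hwVi
    · apply (hbw' w' hw').2
      rw [h]
      exact Finset.mem_union_right _ hwVi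

variable {D : ℕ} {Λ : Finset Γ} {θ : Γ → Fin D → ℝ}

/-- signed sums of selected elements are small -/
theorem sel_mem (hloc : IsLoc Λ θ) (A : Finset Γ) (B U V : ℕ → Finset Γ) (R : ℕ → ℝ)
    (hR : ∀ i, 0 ≤ R i) : ∀ (I : List ℕ) (l : List Γ), (∀ i ∈ I, B i ⊆ bl Λ θ (R i)) →
    (I.map R).sum ≤ 1 → Sel A B U V I l → ∀ w ∈ sg l, w ∈ bl Λ θ ((I.map R).sum) := by
  intro I
  induction I with
  | nil =>
    intro l _ _ h w hw
    rcases l with _ | ⟨b, l⟩
    · simp [sg] at hw
    · exact absurd h (by simp [Sel])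
  | cons i I ih =>
    intro l hB hsum h w hw
    rcases l with _ | ⟨b, l⟩
    · exact absurd h (by simp [Sel])
    obtain ⟨hb, _, hl⟩ := h
    rw [List.map_cons, List.sum_cons] at hsum ⊢
    have hs0 : 0 ≤ (I.map R).sum := by
      apply List.sum_nonneg
      intro x hx
      obtain ⟨y, _, rfl⟩ := List.mem_map.1 hx
      exact hR y
    have hRi := hR i
    have ih' := ih l (fun i' hi' => hB i' (List.mem_cons_of_mem _ hi')) (by linarith) hl
    have hbB : b ∈ bl Λ θ (R i) := hB i List.mem_cons_self hb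
    rw [mem_sg_cons] at hw
    rcases hw with h | h | h | ⟨w', hw', h⟩ | ⟨w', hw', h⟩
    · exact bl_mono Λ θ (by linarith) (ih' w h)
    · rw [h]
      exact bl_mono Λ θ (by linarith) hbB
    · rw [h]
      exact bl_mono Λ θ (by linarith) (hloc.bl_neg_mem hbB)
    · have h5 := (hloc.add_mem (r := R i) (r' := (I.map R).sum) (by linarith) hbB
        (ih' w' hw')).1
      rw [add_comm b w', h] at h5
      exact h5
    · have h5 := (hloc.sub_mem (r := (I.map R).sum) (r' := R i) (by linarith) (ih' w' hw')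
        hbB).1
      rw [h, add_comm (I.map R).sum] at h5
      exact h5

/-- from the selection to the hypothesis of the embedding -/
theorem sel_ch (A : Finset Γ) (hA : -A = A) (B U V : ℕ → Finset Γ)
    :
    ∀ (I : List ℕ) (l : List Γ), (∀ i ∈ I, (0 : Γ) ∈ V i ∧ B i ⊆ A) → Sel A B U V I l →
    (∀ (I₁ : List ℕ) (i : ℕ) (I₂ : List ℕ) (b : Γ) (l₂ : List Γ), I = I₁ ++ i :: I₂ →
      Sel A B U V I₂ l₂ → b ∈ B i → ∀ w ∈ ps l₂, b - w ∈ U i) → Ch A l := by
  intro I
  induction I with
  | nil =>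
    intro l _ h _
    rcases l with _ | ⟨b, l⟩
    · trivial
    · exact absurd h (by simp [Sel])
  | cons i I ih =>
    intro l hI0 h hU
    rcases l with _ | ⟨b, l⟩
    · exact absurd h (by simp [Sel])
    obtain ⟨hb, hbw, hl⟩ := h
    obtain ⟨h0V, hBA⟩ := hI0 i List.mem_cons_self
    refine ⟨hBA hb, ?_, ih l (fun i' hi' => hI0 i' (List.mem_cons_of_mem _ hi')) hl ?_⟩
    · intro w hw
      have h1 := (hbw w (ps_sub_sg l hw)).2
      rw [Finset.mem_union, not_or] at h1
      have h2 : b - w = -(w - b) := by abel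
      constructor
      · intro h3
        apply h1.1
        rw [Finset.mem_inter]
        constructor
        · rw [← hA, Finset.mem_neg', neg_sub]
          exact h3
        · have h4 := hU [] i I b l rfl hl hb (w) hw
          exfalso
          have h5 := (hbw (-w) (sg_neg l w (ps_sub_sg l hw))).1
          apply h5
          rw [Finset.mem_union, Finset.mem_inter]
          left
          have h6 : -w + b = b - w := by abel
          rw [h6]
          exact ⟨h3, h4⟩
      · intro h3
        apply h1.2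
        have h4 : w - b = 0 := by
          have : w - b = -(b - w) := by abel
          rw [this, h3, neg_zero]
        rw [h4]
        exact h0V
    · intro I₁ i' I₂ b' l₂ hI hl₂ hb' w hw
      exact hU (i :: I₁) i' I₂ b' l₂ (by rw [hI]; rfl) hl₂ hb' w hw

theorem geom_sum (δ : ℝ) (hδ0 : 0 < δ) (hδ : δ ≤ 1 / 2) : ∀ (I : List ℕ), I.Pairwise (· < ·) →
    ∀ i₀, (∀ i ∈ I, i₀ ≤ i) → (I.map fun i => δ ^ i).sum ≤ 2 * δ ^ i₀ := by
  intro I
  induction I with
  | nil =>
    intro _ i₀ _
    simp only [List.map_nil, List.sum_nil]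
    positivity
  | cons i I ih =>
    intro hs i₀ hle
    rw [List.pairwise_cons] at hs
    have h1 := ih hs.2 (i + 1) (fun i' hi' => hs.1 i' hi')
    rw [List.map_cons, List.sum_cons]
    have h2 : δ ^ i ≤ δ ^ i₀ := pow_le_pow_of_le_one hδ0.le (by linarith)
      (hle i List.mem_cons_self)
    have h3 : 0 < δ ^ i := by positivity
    rw [pow_succ] at h1
    nlinarith

end

end Pool.Agent.K4H78.GA
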