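import Pool.Agent.K4H78.GA.Geo
import Pool.Agent.K4H78.GA.Pick
import Pool.Agent.K4H78.GA.Hyp
import Pool.Agent.TH346.CG.Asm

/-!
# One step: slow or fast
-/

set_option autoImplicit false

open Finset
open scoped Pointwise

namespace Pool.Agent.K4H78.GA

open Pool.Agent.TH346.CG

theorem step (M j D : ℕ) (hM : 2 ≤ M) (ρ γ : ℝ) (hρ : 0 < ρ) (hγ : 0 < γ) (hMρ : (M : ℝ) * ρ ≤ 1)
    (K k L : ℕ) : ∃ K' k' L' : ℕ, ∀ (Γ : Type) [AddCommGroup Γ] [Fintype Γ] [DecidableEq Γ]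
    (A A₁ V Λ : Finset Γ) (θ : Γ → Fin D → ℝ), IsLoc Λ θ → -A = A → -V = V → 0 ∈ V →
    PL M A Λ → A ∩ bl Λ θ (M * ρ) ⊆ A₁ → Cov A₁ K k L V → ((A \ V) ∩ bl Λ θ ρ).Nonempty →
    ∃ B U : Finset Γ, B.Nonempty ∧ B ⊆ A \ V ∧ -U = U ∧
      Cov A₁ K' k' L' (Vn j (A ∩ U) V B) ∧
      (SlowStep Λ θ M ρ B U ∨ ∃ v, FastStep Λ θ M ρ γ B U v) := by
  classical
  obtain ⟨N, hN, hcell⟩ := big_cell D γ hγ
  obtain ⟨J, hJ⟩ : ∃ J : ℕ, (M : ℝ) * ρ / γ ≤ J := ⟨_, Nat.le_ceil _⟩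
  obtain ⟨CF, hCF⟩ : ∃ CF : ℕ, CF = 4 * 3 ^ j * N := ⟨_, rfl⟩
  obtain ⟨c, K1, k1, hpick⟩ := pickXY M K k L (CF ^ J)
  refine ⟨max K K1, 2 * (k + k1), L + 8 * (CF ^ J * c) * 3 ^ j + 8 * 3 ^ j * L ^ 2, ?_⟩
  intro Γ _ _ _ A A₁ V Λ θ hloc hA hV h0 hP hA₁ hcov hne
  have hM' : (2 : ℝ) ≤ M := by exact_mod_cast hM
  have hρM : ρ ≤ M * ρ := by nlinarith
  obtain ⟨r, hr⟩ : ∃ r : ℕ → ℝ, ∀ i, r i = min (ρ + i * γ) (M * ρ) := ⟨_, fun i => rfl⟩
  have hr0 : r 0 = ρ := by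
    rw [hr]
    simp only [Nat.cast_zero, zero_mul, add_zero]
    exact min_eq_left hρM
  have hrJ : r J = M * ρ := by
    rw [hr]
    apply min_eq_right
    rw [div_le_iff₀ hγ] at hJ
    linarith
  have hrle : ∀ i, ρ ≤ r i ∧ r i ≤ M * ρ := by
    intro i
    rw [hr]
    refine ⟨le_min ?_ hρM, min_le_right _ _⟩
    have : 0 ≤ (i : ℝ) * γ := by positivity
    linarith
  have hrstep : ∀ i, r (i + 1) - γ ≤ r i := by
    intro i
    rw [hr, hr]
    apply le_min
    · have := min_le_left (ρ + ((i + 1 : ℕ) : ℝ) * γ) (M * ρ)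
      push_cast at this ⊢
      linarith
    · have := min_le_right (ρ + ((i + 1 : ℕ) : ℝ) * γ) (M * ρ)
      linarith
  obtain ⟨a, ha⟩ : ∃ a : ℕ → ℕ, ∀ i, a i = ((A \ V) ∩ bl Λ θ (r i)).card := ⟨_, fun i => rfl⟩
  by_cases hcase : ∃ i < J, CF * a i ≤ a (i + 1)
  · -- fast
    obtain ⟨i, hi, hai⟩ := hcase
    have hXne : ((A \ V) ∩ bl Λ θ (r (i + 1))).Nonempty := by
      refine hne.mono (Finset.inter_subset_inter_left (bl_mono Λ θ (hrle (i + 1)).1))
    obtain ⟨B, hB, hBne, hBc, hBd⟩ := hcell Γ θ ((A \ V) ∩ bl Λ θ (r (i + 1)))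
      (fun x hx => by
        rw [Finset.mem_inter, mem_bl] at hx
        exact (hx.2.2.trans (hrle (i + 1)).2).trans hMρ) hXne
    have hU : -(bl Λ θ (r (i + 1) - γ)) = bl Λ θ (r (i + 1) - γ) := hloc.bl_neg _
    have hYc : ((A ∩ bl Λ θ (r (i + 1) - γ)) \ V).card ≤ a i := by
      rw [ha]
      apply Finset.card_le_card
      intro x hx
      rw [Finset.mem_sdiff, Finset.mem_inter] at hx
      rw [Finset.mem_inter, Finset.mem_sdiff]
      exact ⟨⟨hx.1.1, hx.2⟩, bl_mono Λ θ (hrstep i) hx.1.2⟩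
    have hbig : 4 * 3 ^ j * a i ≤ B.card := by
      have h1 : N * (4 * 3 ^ j * a i) ≤ N * B.card := by
        calc N * (4 * 3 ^ j * a i) = CF * a i := by rw [hCF]; ring
          _ ≤ a (i + 1) := hai
          _ ≤ N * B.card := by rw [ha]; exact hBc
      exact Nat.le_of_mul_le_mul_left h1 (by omega)
    have hx : ∃ x ∈ B, r (i + 1) - γ < ‖θ x‖ := by
      by_contra hcon
      push Not at hcon
      have h1 : B.card ≤ a i := by
        rw [ha]
        apply Finset.card_le_card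
        intro x hx
        have h2 := hB hx
        rw [Finset.mem_inter, mem_bl] at h2
        rw [Finset.mem_inter, mem_bl]
        exact ⟨h2.1, h2.2.1, (hcon x hx).trans (hrstep i)⟩
      have h2 : 0 < B.card := hBne.card_pos
      have h3 : 1 ≤ 3 ^ j := Nat.one_le_pow _ _ (by norm_num)
      nlinarith
    obtain ⟨x, hxB, hx⟩ := hx
    refine ⟨B, bl Λ θ (r (i + 1) - γ), hBne, hB.trans Finset.inter_subset_left, hU, ?_,
      Or.inr ⟨θ x, r (i + 1), (hrle _).1, (hrle _).2, hB.trans Finset.inter_subset_right, rfl,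
        fun b hb => hBd b hb x hxB, by linarith, ?_⟩⟩
    · have h1 := cov_fast A₁ (A ∩ bl Λ θ (r (i + 1) - γ)) V B K k L j hcov hBne
        ((Nat.mul_le_mul_left _ hYc).trans hbig)
      exact h1.mono (le_max_left _ _) (by omega) (by omega) (Finset.Subset.refl _)
    · have h2 := hB hxB
      rw [Finset.mem_inter, mem_bl] at h2
      exact h2.2.2
  · -- slow
    push Not at hcase
    have hgrow : ∀ i ≤ J, a i ≤ CF ^ i * a 0 := by
      intro i
      induction i with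
      | zero => intro _; simp
      | succ i ih =>
        intro hi
        have h1 := ih (by omega)
        have h2 := hcase i (by omega)
        calc a (i + 1) ≤ CF * a i := h2.le
          _ ≤ CF * (CF ^ i * a 0) := Nat.mul_le_mul_left _ h1
          _ = CF ^ (i + 1) * a 0 := by ring
    have hJc := hgrow J le_rfl
    rw [ha, ha, hr0, hrJ] at hJc
    obtain ⟨B, B₀, g, hB, hBne, hBc, hB₀, hB₀ne, hK1, hBg⟩ := hpick Γ A A₁ V
      ((A \ V) ∩ bl Λ θ ρ) ((A \ V) ∩ bl Λ θ (M * ρ))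
      (by
        have e1 : ∀ x, -x ∈ A ↔ x ∈ A := by
          intro x
          rw [← Finset.mem_neg', hA]
        have e2 : ∀ x, -x ∈ V ↔ x ∈ V := by
          intro x
          rw [← Finset.mem_neg', hV]
        have e3 : ∀ x, -x ∈ bl Λ θ ρ ↔ x ∈ bl Λ θ ρ := by
          intro x
          rw [← Finset.mem_neg', hloc.bl_neg]
        ext x
        rw [Finset.mem_neg', Finset.mem_inter, Finset.mem_inter, Finset.mem_sdiff,
          Finset.mem_sdiff, e1, e2, e3])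
      h0 (fun a ha => hP a (fun i => by
        have h1 := Finset.mem_inter.1 (ha i)
        exact ⟨(Finset.mem_sdiff.1 h1.1).1, ((mem_bl _ _ _ _).1 h1.2).1⟩)) hcov hne
      Finset.inter_subset_left
      (by
        intro x hx
        apply hA₁
        rw [Finset.mem_inter, Finset.mem_sdiff] at hx
        rw [Finset.mem_inter]
        exact ⟨hx.1.1, bl_mono Λ θ hρM hx.2⟩)
      hJc
      (by
        intro b hb ε h1 h2
        rw [Finset.mem_inter, Finset.mem_sdiff]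
        refine ⟨⟨h1, h2⟩, ?_⟩
        have h3 := hloc.signed_mem hρ.le b (fun i => (Finset.mem_inter.1 (hb i)).2) ε Finset.univ
          (by rw [Finset.card_univ, Fintype.card_fin]; exact hMρ)
        rwa [Finset.card_univ, Fintype.card_fin] at h3)
    have hYeq : (A ∩ bl Λ θ (M * ρ)) \ V = (A \ V) ∩ bl Λ θ (M * ρ) := by
      ext x
      simp only [Finset.mem_sdiff, Finset.mem_inter]
      tauto
    refine ⟨B, bl Λ θ (M * ρ), hBne, hB.trans Finset.inter_subset_left, hloc.bl_neg _, ?_,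
      Or.inl ⟨hB.trans Finset.inter_subset_right, rfl⟩⟩
    apply cov_slow A₁ (A ∩ bl Λ θ (M * ρ)) V B B₀ g K K1 k k1 L (CF ^ J * c) j hcov hBne ?_ ?_ hB₀
      hB₀ne hK1 hBg
    · rw [hYeq]
      exact hne.mono (Finset.inter_subset_inter_left (bl_mono Λ θ hρM))
    · rw [hYeq]
      calc ((A \ V) ∩ bl Λ θ (M * ρ)).card ≤ CF ^ J * ((A \ V) ∩ bl Λ θ ρ).card := hJc
        _ ≤ CF ^ J * (c * B.card) := Nat.mul_le_mul_left _ hBc
        _ = CF ^ J * c * B.card := by ring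

end Pool.Agent.K4H78.GA
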