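import Pool.Agent.K4H78.GA.Defs

/-!
# Signed sums of lists, and the embedding of trees
-/

set_option autoImplicit false

open Finset
open scoped Pointwise

namespace Pool.Agent.K4H78.GA

section sums

variable {Γ : Type} [AddCommGroup Γ] [DecidableEq Γ]

theorem mem_sg_cons (b : Γ) (l : List Γ) (x : Γ) : x ∈ sg (b :: l) ↔
    x ∈ sg l ∨ x = b ∨ x = -b ∨ (∃ w ∈ sg l, w + b = x) ∨ (∃ w ∈ sg l, w - b = x) := by
  simp only [sg, mem_union, mem_insert, mem_singleton, mem_image, or_assoc]

theorem mem_ps_cons (b : Γ) (l : List Γ) (x : Γ) : x ∈ ps (b :: l) ↔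
    x ∈ ps l ∨ x = b ∨ (∃ w ∈ sg l, w + b = x) := by
  simp only [ps, mem_union, mem_singleton, mem_image, or_assoc]

theorem sg_neg (l : List Γ) : ∀ x ∈ sg l, -x ∈ sg l := by
  induction l with
  | nil => intro x hx; simp [sg] at hx
  | cons b l ih =>
    intro x hx
    rw [mem_sg_cons] at hx ⊢
    rcases hx with h | h | h | ⟨w, hw, h⟩ | ⟨w, hw, h⟩
    · exact Or.inl (ih x h)
    · right; right; left; rw [h]
    · right; left; rw [h, neg_neg]
    · right; right; right; right
      exact ⟨-w, ih w hw, by rw [← h]; abel⟩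
    · right; right; right; left
      exact ⟨-w, ih w hw, by rw [← h]; abel⟩

theorem ps_sub_sg (l : List Γ) : ps l ⊆ sg l := by
  induction l with
  | nil => intro x hx; simp [ps] at hx
  | cons b l ih =>
    intro x hx
    rw [mem_ps_cons] at hx
    rw [mem_sg_cons]
    rcases hx with h | h | h
    · exact Or.inl (ih h)
    · exact Or.inr (Or.inl h)
    · exact Or.inr (Or.inr (Or.inr (Or.inl h)))

theorem card_sg (l : List Γ) : (sg l).card + 1 ≤ 3 ^ l.length := by
  induction l with
  | nil => simp [sg]
  | cons b l ih =>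
    have h1 : (sg (b :: l)).card ≤ (sg l).card + 2 + (sg l).card + (sg l).card := by
      show (sg l ∪ {b, -b} ∪ (sg l).image (fun w => w + b) ∪
        (sg l).image (fun w => w - b)).card ≤ _
      refine (card_union_le _ _).trans (Nat.add_le_add ((card_union_le _ _).trans
        (Nat.add_le_add ((card_union_le _ _).trans (Nat.add_le_add le_rfl ?_))
          card_image_le)) card_image_le)
      exact Finset.card_le_two
    rw [List.length_cons, pow_succ]
    omega

theorem sg_append_left (l l' : List Γ) : ∀ x ∈ sg l, x ∈ sg (l ++ l') := by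
  induction l with
  | nil => intro x hx; simp [sg] at hx
  | cons b l ih =>
    intro x hx
    rw [List.cons_append, mem_sg_cons]
    rw [mem_sg_cons] at hx
    rcases hx with h | h | h | ⟨w, hw, h⟩ | ⟨w, hw, h⟩
    · exact Or.inl (ih x h)
    · exact Or.inr (Or.inl h)
    · exact Or.inr (Or.inr (Or.inl h))
    · exact Or.inr (Or.inr (Or.inr (Or.inl ⟨w, ih w hw, h⟩)))
    · exact Or.inr (Or.inr (Or.inr (Or.inr ⟨w, ih w hw, h⟩)))

theorem sg_append_right (l l' : List Γ) : ∀ x ∈ sg l', x ∈ sg (l ++ l') := by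
  induction l with
  | nil => intro x hx; exact hx
  | cons b l ih =>
    intro x hx
    rw [List.cons_append, mem_sg_cons]
    exact Or.inl (ih x hx)

theorem sg_append_add (l l' : List Γ) : ∀ x ∈ sg l, ∀ y ∈ sg l', x + y ∈ sg (l ++ l') := by
  induction l with
  | nil => intro x hx; simp [sg] at hx
  | cons b l ih =>
    intro x hx y hy
    rw [List.cons_append, mem_sg_cons]
    rw [mem_sg_cons] at hx
    rcases hx with h | h | h | ⟨w, hw, h⟩ | ⟨w, hw, h⟩
    · exact Or.inl (ih x h y hy)
    · right; right; right; left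
      exact ⟨y, sg_append_right l l' y hy, by rw [h]; abel⟩
    · right; right; right; right
      exact ⟨y, sg_append_right l l' y hy, by rw [h]; abel⟩
    · right; right; right; left
      exact ⟨w + y, ih w hw y hy, by rw [← h]; abel⟩
    · right; right; right; right
      exact ⟨w + y, ih w hw y hy, by rw [← h]; abel⟩

theorem ps_append_left (l l' : List Γ) : ∀ x ∈ ps l, x ∈ ps (l ++ l') := by
  induction l with
  | nil => intro x hx; simp [ps] at hx
  | cons b l ih =>
    intro x hx
    rw [List.cons_append, mem_ps_cons]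
    rw [mem_ps_cons] at hx
    rcases hx with h | h | ⟨w, hw, h⟩
    · exact Or.inl (ih x h)
    · exact Or.inr (Or.inl h)
    · exact Or.inr (Or.inr ⟨w, sg_append_left l l' w hw, h⟩)

theorem ps_append_right (l l' : List Γ) : ∀ x ∈ ps l', x ∈ ps (l ++ l') := by
  induction l with
  | nil => intro x hx; exact hx
  | cons b l ih =>
    intro x hx
    rw [List.cons_append, mem_ps_cons]
    exact Or.inl (ih x hx)

theorem ps_append_add (l l' : List Γ) : ∀ x ∈ ps l, ∀ y ∈ ps l', x + y ∈ ps (l ++ l') := by
  induction l with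
  | nil => intro x hx; simp [ps] at hx
  | cons b l ih =>
    intro x hx y hy
    rw [List.cons_append, mem_ps_cons]
    rw [mem_ps_cons] at hx
    rcases hx with h | h | ⟨w, hw, h⟩
    · exact Or.inl (ih x h y hy)
    · right; right
      exact ⟨y, sg_append_right l l' y (ps_sub_sg l' hy), by rw [h]; abel⟩
    · right; right
      exact ⟨w + y, sg_append_add l l' w hw y (ps_sub_sg l' hy), by rw [← h]; abel⟩

/-- `b - w` is not in `A ∪ {0}` for `b` in the list and `w` a positive sum of later terms -/
def Ch (A : Finset Γ) : List Γ → Prop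
  | [] => True
  | b :: l => b ∈ A ∧ (∀ w ∈ ps l, b - w ∉ A ∧ b - w ≠ 0) ∧ Ch A l

theorem Ch_left (A : Finset Γ) (l l' : List Γ) (h : Ch A (l ++ l')) : Ch A l := by
  induction l with
  | nil => trivial
  | cons b l ih =>
    obtain ⟨h1, h2, h3⟩ := h
    exact ⟨h1, fun w hw => h2 w (ps_append_left l l' w hw), ih h3⟩

theorem Ch_right (A : Finset Γ) (l l' : List Γ) (h : Ch A (l ++ l')) : Ch A l' := by
  induction l with
  | nil => exact h
  | cons b l ih => exact ih h.2.2

end sums

/-- rooted trees, built by joining the roots of two rooted trees by an edge -/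
inductive RT : Type
  | leaf : RT
  | join : RT → RT → RT

namespace RT

/-- vertices -/
def V : RT → Type
  | leaf => Unit
  | join a b => a.V ⊕ b.V

/-- root -/
def root : (t : RT) → t.V
  | leaf => ()
  | join a _ => Sum.inl a.root

/-- number of edges -/
def E : RT → ℕ
  | leaf => 0
  | join a b => a.E + b.E + 1

/-- adjacency -/
def adj : (t : RT) → t.V → t.V → Prop
  | leaf => fun _ _ => False
  | join a b => fun x y => Sum.elim
      (fun x' : a.V => Sum.elim (fun y' : a.V => a.adj x' y')
        (fun y' : b.V => x' = a.root ∧ y' = b.root) y)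
      (fun x' : b.V => Sum.elim (fun y' : a.V => y' = a.root ∧ x' = b.root)
        (fun y' : b.V => b.adj x' y') y) x

theorem adj_symm : ∀ (t : RT) (x y : t.V), t.adj x y → t.adj y x := by
  intro t
  induction t with
  | leaf => intro x y h; exact h
  | join a b iha ihb =>
    intro x y h
    rcases x with x | x <;> rcases y with y | y
    · exact iha x y h
    · exact h
    · exact h
    · exact ihb x y h

theorem adj_irrefl : ∀ (t : RT) (x : t.V), ¬ t.adj x x := by
  intro t
  induction t with
  | leaf => intro x h; exact h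
  | join a b iha ihb =>
    intro x h
    rcases x with x | x
    · exact iha x h
    · exact ihb x h

/-- the tree as a graph -/
def graph (t : RT) : SimpleGraph t.V where
  Adj := t.adj
  symm := ⟨t.adj_symm⟩
  loopless := ⟨t.adj_irrefl⟩

end RT

theorem rt_embed {Γ : Type} [AddCommGroup Γ] [DecidableEq Γ] (A : Finset Γ) (hA : -A = A) :
    ∀ (t : RT) (l : List Γ), l.length = t.E → Ch A l →
    ∃ φ : t.V → Γ, φ t.root = 0 ∧ (∀ v, v ≠ t.root → φ v ∈ ps l) ∧
      (∀ v w, t.adj v w → φ v - φ w ∈ A) ∧
      (∀ v w, v ≠ w → ¬ t.adj v w → φ v - φ w ∉ A ∧ φ v - φ w ≠ 0) := by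
  have hneg : ∀ x : Γ, -x ∈ A ↔ x ∈ A := by
    intro x
    rw [← Finset.mem_neg', hA]
  intro t
  induction t with
  | leaf =>
    intro l _ _
    refine ⟨fun _ => 0, rfl, fun v hv => absurd rfl hv, fun v w h => absurd h (by exact id),
      fun v w hvw => absurd rfl hvw⟩
  | join a b iha ihb =>
    intro l hl hch
    rcases l with _ | ⟨b₀, l₁⟩
    · simp [RT.E] at hl
    obtain ⟨l', hl'⟩ : ∃ l', l' = l₁.take a.E := ⟨_, rfl⟩
    obtain ⟨l'', hl''⟩ : ∃ l'', l'' = l₁.drop a.E := ⟨_, rfl⟩
    have happ : l' ++ l'' = l₁ := by rw [hl', hl'']; exact List.take_append_drop _ _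
    have hlen : l₁.length = a.E + b.E := by
      have : (b₀ :: l₁).length = a.E + b.E + 1 := hl
      rw [List.length_cons] at this
      omega
    have hlen' : l'.length = a.E := by
      rw [hl', List.length_take, hlen]
      omega
    have hlen'' : l''.length = b.E := by
      rw [hl'', List.length_drop, hlen]
      omega
    rw [← happ] at hch ⊢
    obtain ⟨hb₀, hch1, hch2⟩ := hch
    obtain ⟨φ, hφ0, hφ1, hφ2, hφ3⟩ := iha l' hlen' (Ch_left A l' l'' hch2)
    obtain ⟨ψ, hψ0, hψ1, hψ2, hψ3⟩ := ihb l'' hlen'' (Ch_right A l' l'' hch2)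
    -- positions
    have hps' : ∀ v, v ≠ a.root → φ v ∈ ps (l' ++ l'') := fun v hv =>
      ps_append_left l' l'' _ (hφ1 v hv)
    have hps'' : ∀ v, v ≠ b.root → ψ v ∈ ps (l' ++ l'') := fun v hv =>
      ps_append_right l' l'' _ (hψ1 v hv)
    have hsum : ∀ v w, ¬ (v = a.root ∧ w = b.root) → φ v + ψ w ∈ ps (l' ++ l'') := by
      intro v w hvw
      by_cases hv : v = a.root
      · by_cases hw : w = b.root
        · exact absurd ⟨hv, hw⟩ hvw
        · rw [hv, hφ0, zero_add]
          exact hps'' w hw
      · by_cases hw : w = b.root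
        · rw [hw, hψ0, add_zero]
          exact hps' v hv
        · exact ps_append_add l' l'' _ (hφ1 v hv) _ (hψ1 w hw)
    obtain ⟨Φ, hΦ⟩ : ∃ Φ : (RT.join a b).V → Γ,
        Φ = fun x : a.V ⊕ b.V => Sum.elim φ (fun y => b₀ - ψ y) x := ⟨_, rfl⟩
    have hΦl : ∀ v : a.V, Φ (Sum.inl v : a.V ⊕ b.V) = φ v := by intro v; rw [hΦ]; rfl
    have hΦr : ∀ v : b.V, Φ (Sum.inr v : a.V ⊕ b.V) = b₀ - ψ v := by intro v; rw [hΦ]; rfl
    have hcross : ∀ (v : a.V) (w : b.V), ¬ (v = a.root ∧ w = b.root) →
        φ v - (b₀ - ψ w) ∉ A ∧ φ v - (b₀ - ψ w) ≠ 0 := by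
      intro v w hvw
      obtain ⟨h1, h2⟩ := hch1 _ (hsum v w hvw)
      have h3 : φ v - (b₀ - ψ w) = -(b₀ - (φ v + ψ w)) := by abel
      rw [h3, hneg]
      exact ⟨h1, fun h => h2 (neg_eq_zero.1 h)⟩
    refine ⟨Φ, ?_, ?_, ?_, ?_⟩
    · show Φ (Sum.inl a.root : a.V ⊕ b.V) = 0
      rw [hΦl, hφ0]
    · intro v hv
      rcases v with v | v
      · have hv' : v ≠ a.root := by
          rintro rfl
          exact hv rfl
        rw [hΦl, mem_ps_cons]
        exact Or.inl (hps' v hv')
      · rw [hΦr, mem_ps_cons]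
        by_cases hv' : v = b.root
        · right; left
          rw [hv', hψ0, sub_zero]
        · right; right
          exact ⟨-ψ v, sg_neg _ _ (ps_sub_sg _ (hps'' v hv')), by abel⟩
    · intro v w hvw
      rcases v with v | v <;> rcases w with w | w
      · rw [hΦl, hΦl]
        exact hφ2 v w hvw
      · obtain ⟨rfl, rfl⟩ : v = a.root ∧ w = b.root := hvw
        rw [hΦl, hΦr, hφ0, hψ0, sub_zero, zero_sub, hneg]
        exact hb₀
      · obtain ⟨rfl, rfl⟩ : w = a.root ∧ v = b.root := hvw
        rw [hΦl, hΦr, hφ0, hψ0, sub_zero, sub_zero]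
        exact hb₀
      · rw [hΦr, hΦr]
        have h1 := hψ2 w v (b.adj_symm v w hvw)
        have h2 : b₀ - ψ v - (b₀ - ψ w) = ψ w - ψ v := by abel
        rw [h2]
        exact h1
    · intro v w hne hvw
      rcases v with v | v <;> rcases w with w | w
      · rw [hΦl, hΦl]
        exact hφ3 v w (fun h => hne (by rw [h])) hvw
      · rw [hΦl, hΦr]
        exact hcross v w hvw
      · rw [hΦl, hΦr]
        obtain ⟨h1, h2⟩ := hcross w v hvw
        have h3 : b₀ - ψ v - φ w = -(φ w - (b₀ - ψ v)) := by abel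
        rw [h3, hneg]
        exact ⟨h1, fun h => h2 (neg_eq_zero.1 h)⟩
      · rw [hΦr, hΦr]
        have h1 := hψ3 w v (fun h => hne (by rw [h])) (fun h => hvw (b.adj_symm w v h))
        have h2 : b₀ - ψ v - (b₀ - ψ w) = ψ w - ψ v := by abel
        rw [h2]
        exact h1

/-- a new leaf -/
theorem add_leaf : ∀ (t : RT) (v : t.V), ∃ (t' : RT) (e : t.V → t'.V) (w : t'.V),
    Function.Injective e ∧ e t.root = t'.root ∧ (∀ x, e x ≠ w) ∧
    (∀ x y, t'.adj (e x) (e y) ↔ t.adj x y) ∧ (∀ x, t'.adj (e x) w ↔ x = v) := by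
  intro t
  induction t with
  | leaf =>
    intro v
    refine ⟨RT.join RT.leaf RT.leaf, fun _ => (Sum.inl () : Unit ⊕ Unit),
      (Sum.inr () : Unit ⊕ Unit), ?_, rfl, ?_, ?_, ?_⟩
    · intro x y _
      exact (Subsingleton.elim (α := Unit) x y : _)
    · intro x h
      exact Sum.inl_ne_inr h
    · intro x y
      exact Iff.rfl
    · intro x
      constructor
      · intro _
        exact (Subsingleton.elim (α := Unit) x v : _)
      · intro _
        exact ⟨rfl, rfl⟩
  | join a b iha ihb =>
    intro v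
    rcases v with v | v
    · obtain ⟨t', e, w, h1, h2, h3, h4, h5⟩ := iha v
      refine ⟨RT.join t' b, fun x : a.V ⊕ b.V => (Sum.map e id x : t'.V ⊕ b.V),
        (Sum.inl w : t'.V ⊕ b.V), ?_, ?_, ?_, ?_, ?_⟩
      · exact Function.Injective.sumMap h1 Function.injective_id
      · show (Sum.inl (e a.root) : t'.V ⊕ b.V) = Sum.inl t'.root
        rw [h2]
      · rintro (x | x) h
        · exact h3 x (Sum.inl_injective h)
        · exact Sum.inr_ne_inl h
      · rintro (x | x) (y | y)
        · exact h4 x y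
        · show (e x = t'.root ∧ y = b.root) ↔ (x = a.root ∧ y = b.root)
          rw [← h2, h1.eq_iff]
        · show (e y = t'.root ∧ x = b.root) ↔ (y = a.root ∧ x = b.root)
          rw [← h2, h1.eq_iff]
        · exact Iff.rfl
      · rintro (x | x)
        · show t'.adj (e x) w ↔ (Sum.inl x : a.V ⊕ b.V) = Sum.inl v
          rw [h5, Sum.inl_injective.eq_iff]
        · show (w = t'.root ∧ x = b.root) ↔ (Sum.inr x : a.V ⊕ b.V) = Sum.inl v
          constructor
          · rintro ⟨h, _⟩
            exact absurd (h2.trans h.symm) (h3 _)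
          · intro h
            exact absurd h Sum.inr_ne_inl
    · obtain ⟨t', e, w, h1, h2, h3, h4, h5⟩ := ihb v
      refine ⟨RT.join a t', fun x : a.V ⊕ b.V => (Sum.map id e x : a.V ⊕ t'.V),
        (Sum.inr w : a.V ⊕ t'.V), ?_, rfl, ?_, ?_, ?_⟩
      · exact Function.Injective.sumMap Function.injective_id h1
      · rintro (x | x) h
        · exact Sum.inl_ne_inr h
        · exact h3 x (Sum.inr_injective h)
      · rintro (x | x) (y | y)
        · exact Iff.rfl
        · show (x = a.root ∧ e y = t'.root) ↔ (x = a.root ∧ y = b.root)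
          rw [← h2, h1.eq_iff]
        · show (y = a.root ∧ e x = t'.root) ↔ (y = a.root ∧ x = b.root)
          rw [← h2, h1.eq_iff]
        · exact h4 x y
      · rintro (x | x)
        · show (x = a.root ∧ w = t'.root) ↔ (Sum.inl x : a.V ⊕ b.V) = Sum.inr v
          constructor
          · rintro ⟨_, h⟩
            exact absurd (h2.trans h.symm) (h3 _)
          · intro h
            exact absurd h Sum.inl_ne_inr
        · show t'.adj (e x) w ↔ (Sum.inr x : a.V ⊕ b.V) = Sum.inr v
          rw [h5, Sum.inr_injective.eq_iff]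

theorem tree_rt : ∀ (n : ℕ) (V : Type) [Fintype V] (T : SimpleGraph V), T.IsTree →
    Fintype.card V = n + 1 → ∃ t : RT, Nonempty (T ↪g t.graph) := by
  intro n
  induction n with
  | zero =>
    intro V _ T hT hV
    have hsub : Subsingleton V := by
      rw [← Fintype.card_le_one_iff_subsingleton]
      omega
    refine ⟨RT.leaf, ⟨⟨⟨fun _ => (), fun x y _ => Subsingleton.elim x y⟩, ?_⟩⟩⟩
    intro x y
    constructor
    · intro h
      exact absurd h (by exact id)
    · intro h
      exact absurd (Subsingleton.elim x y) h.ne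
  | succ n ih =>
    intro V _ T hT hV
    classical
    have hnt : Nontrivial V := by
      rw [← Fintype.one_lt_card_iff_nontrivial]
      omega
    obtain ⟨l, hl⟩ := hT.exists_vert_degree_one_of_nontrivial
    have hconn := hT.connected.induce_compl_singleton_of_degree_eq_one hl
    have hT' : (T.induce ({l}ᶜ : Set V)).IsTree := ⟨hconn, hT.isAcyclic.induce _⟩
    obtain ⟨u, hu, huu⟩ := SimpleGraph.degree_eq_one_iff_existsUnique_adj.1 hl
    have hu' : u ∈ ({l}ᶜ : Set V) := fun h => hu.ne h.symm
    have hcard : Fintype.card ({l}ᶜ : Set V) = n + 1 := by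
      rw [Fintype.card_compl_set, hV]
      simp
    obtain ⟨t, ⟨f⟩⟩ := ih _ (T.induce ({l}ᶜ : Set V)) hT' hcard
    obtain ⟨t', e, w, h1, -, h3, h4, h5⟩ := add_leaf t (f ⟨u, hu'⟩)
    have hmem : ∀ v, v ≠ l → v ∈ ({l}ᶜ : Set V) := fun v h => h
    obtain ⟨g, hg⟩ : ∃ g : V → t'.V, g = fun v => if h : v = l then w
      else e (f ⟨v, hmem v h⟩) := ⟨_, rfl⟩
    have hgl : g l = w := by
      rw [hg]
      simp
    have hgv : ∀ v (h : v ≠ l), g v = e (f ⟨v, hmem v h⟩) := by
      intro v h
      rw [hg]
      simp only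
      rw [dif_neg h]
    have hlv : ∀ v (_ : v ≠ l), (t'.adj (g v) w ↔ T.Adj v l) := by
      intro v h
      rw [hgv v h, h5, f.injective.eq_iff]
      constructor
      · intro h6
        have h7 : v = u := congrArg Subtype.val h6
        rw [h7]
        exact hu.symm
      · intro h6
        have h7 := huu v h6.symm
        subst h7
        rfl
    refine ⟨t', ⟨⟨⟨g, ?_⟩, ?_⟩⟩⟩
    · intro x y hxy
      by_cases hx : x = l
      · by_cases hy : y = l
        · rw [hx, hy]
        · rw [hx, hgl, hgv y hy] at hxy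
          exact absurd hxy.symm (h3 _)
      · by_cases hy : y = l
        · rw [hy, hgl, hgv x hx] at hxy
          exact absurd hxy (h3 _)
        · rw [hgv x hx, hgv y hy] at hxy
          exact congrArg Subtype.val (f.injective (h1 hxy))
    · intro x y
      show t'.adj (g x) (g y) ↔ T.Adj x y
      by_cases hx : x = l
      · by_cases hy : y = l
        · rw [hx, hy]
          constructor
          · intro h
            exact absurd h (t'.adj_irrefl _)
          · intro h
            exact absurd rfl h.ne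
        · rw [hx, hgl]
          constructor
          · intro h
            exact ((hlv y hy).1 (t'.adj_symm _ _ h)).symm
          · intro h
            exact t'.adj_symm _ _ ((hlv y hy).2 h.symm)
      · by_cases hy : y = l
        · rw [hy, hgl]
          exact hlv x hx
        · rw [hgv x hx, hgv y hy, h4]
          have h6 : t.adj (f ⟨x, hmem x hx⟩) (f ⟨y, hmem y hy⟩) ↔
              (T.induce ({l}ᶜ : Set V)).Adj ⟨x, hmem x hx⟩ ⟨y, hmem y hy⟩ := f.map_rel_iff'
          rw [h6]
          rfl

end Pool.Agent.K4H78.GA
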